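import Pool.Agent.H.MP_f96d9d_nt.FEvenA

/-!
# `n = 2a` even: values of `f_0` and `h_0`

`p = 2n+1`, `n = 2a`, `κ = (-1)^a 2^n`.
* `Tv_neg_one`: `T_{2a}(-1) = u_a` for `2a < p`: `r0v` at `t = -1` reads
  `2(k+2) T_{k+2} = 2(k+1) T_k`; with `k = 2b`: `2(2b+2) T_{2b+2} = 2 (2b+1) T_{2b}`, and
  `2(b+1) u_{b+1} = (2b+1) u_b`; `T_0 = 1 = u_0`; `2(2b+2)` is a unit as `2b+2 < p`.
* `f0_even`: `p (u_j - u_{n-j}) = 0` (by `p_u_rev`, `U = 1 + eta` for `n` even by `H4`,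
  `p eta = 0`), hence `(u_j - u_{n-j})^2 = 0` (`sq_zero`: `p x = 0` in `ZMod (p^2)` gives `x = p z`).
  Multiply by `(-1)^j` and sum: `∑ (-1)^j u_j^2 + ∑ (-1)^j u_{n-j}^2 = 2 ∑ (-1)^j u_j u_{n-j}`;
  the second sum equals the first (reflect, `n` even), so `2 f0 = 2 T_n(-1)`.
* `h0_even`: by `p_u`, `p (u_j - (-1)^j C(n,j)) = 0`, so `(u_j - (-1)^j C(n,j))^2 = 0`; multiply by
  `(-1)^j` and sum: `f0 - 2 h0 + ∑ (-1)^j C(n,j)^2 = 0`. The last sum is the coefficient of `X^n`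
  in `(1-X)^n (1+X)^n = (1-X^2)^n`, i.e. `(-1)^a C(n,a)` (`alt_sq`), and `C(2a,a) = 4^a u_a
  = 2^n u_a = 2^n f0`. So `2 h0 = f0 + κ f0`.
* `kap`: `(κ-1)^2 = 0`: in `ZMod p` we have `2^n = legendreSym p 2 = χ₈ p = (-1)^a` for
  `p = 4a+1` (`legendreSym.eq_pow`, `ZMod.exists_sq_eq_two_iff` or `legendreSym.at_two`,
  `ZMod.χ₈_nat_eq_if_mod_eight`), so `κ = 1` in `ZMod p`, `κ - 1 = p z`.
-/

namespace MPf96

open Finset

variable {p n : ℕ} [hp : Fact p.Prime]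

theorem feven_sq_zero {x : ZMod (p ^ 2)} (hx : (p : ZMod (p ^ 2)) * x = 0) : x ^ 2 = 0 := by
  have h0 : 0 < p := hp.out.pos
  have : NeZero (p ^ 2) := ⟨pow_ne_zero 2 hp.out.ne_zero⟩
  obtain ⟨m, rfl⟩ : ∃ m : ℕ, (m : ZMod (p ^ 2)) = x := ⟨x.val, ZMod.natCast_zmod_val x⟩
  have h1 : ((p * m : ℕ) : ZMod (p ^ 2)) = 0 := by
    push_cast
    exact hx
  have h2 := (ZMod.natCast_eq_zero_iff (p * m) (p ^ 2)).1 h1
  have h3 : p ∣ m := by
    rw [pow_two] at h2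
    exact Nat.dvd_of_mul_dvd_mul_left h0 h2
  obtain ⟨z, rfl⟩ := h3
  have h4 := p_sq (p := p)
  push_cast
  linear_combination ((z : ZMod (p ^ 2)) ^ 2) * h4

theorem feven_alt (a : ℕ) :
    ∑ j ∈ range (2 * a + 1), (-1 : ZMod (p ^ 2)) ^ j * ((2 * a).choose j : ZMod (p ^ 2)) ^ 2 =
      (-1) ^ a * ((2 * a).choose a : ZMod (p ^ 2)) := by
  have h := congrArg (Int.cast : ℤ → ZMod (p ^ 2)) (alt_sq a)
  push_cast at h
  exact h

theorem h0_even (hn : p = 2 * n + 1) {a : ℕ} (ha : n = 2 * a) :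
    2 * h0 p n = ((-1) ^ a * 2 ^ n + 1) * f0 p n := by
  have hp2 : p ≠ 2 := by omega
  have hh := two_half (p := p) hp2
  have hf := f0_even hn ha
  have hsq : ∀ j ∈ range (n + 1), (-1 : ZMod (p ^ 2)) ^ j * (u (half p) j) ^ 2
      - 2 * ((n.choose j : ZMod (p ^ 2)) * u (half p) j)
      + (-1) ^ j * (n.choose j : ZMod (p ^ 2)) ^ 2 = 0 := by
    intro j hj
    have hj' : j ≤ n := Nat.lt_succ_iff.1 (Finset.mem_range.1 hj)
    have h1 := p_u hn hj'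
    have h2 : (p : ZMod (p ^ 2)) * (u (half p) j - (-1) ^ j * (n.choose j : ZMod (p ^ 2))) = 0 := by
      linear_combination h1
    have h3 := feven_sq_zero h2
    have h4 : ((-1 : ZMod (p ^ 2)) ^ j) ^ 2 = 1 := by
      rw [← pow_mul, mul_comm, pow_mul]
      simp
    linear_combination (-1 : ZMod (p ^ 2)) ^ j * h3 +
      (2 * (n.choose j : ZMod (p ^ 2)) * u (half p) j
        - (-1) ^ j * (n.choose j : ZMod (p ^ 2)) ^ 2) * h4
  have hsum := Finset.sum_eq_zero hsq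
  rw [Finset.sum_add_distrib, Finset.sum_sub_distrib, ← Finset.mul_sum] at hsum
  have halt := feven_alt (p := p) a
  rw [← ha] at halt
  rw [halt] at hsum
  have hc : ((n.choose a : ℕ) : ZMod (p ^ 2)) = 2 ^ n * u (half p) a := by
    have e1 : n.choose a = Nat.centralBinom a := by
      rw [ha, Nat.centralBinom_eq_two_mul_choose]
    have e2 : (2 : ZMod (p ^ 2)) ^ n * (half p) ^ (2 * a) = 1 := by
      rw [ha, ← mul_pow, hh, one_pow]
    rw [e1]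
    unfold u
    linear_combination (-(Nat.centralBinom a : ZMod (p ^ 2))) * e2
  rw [hc] at hsum
  have hf2 : ∑ j ∈ range (n + 1), (-1 : ZMod (p ^ 2)) ^ j * (u (half p) j) ^ 2 = f0 p n := rfl
  have hh2 : ∑ j ∈ range (n + 1), (n.choose j : ZMod (p ^ 2)) * u (half p) j = h0 p n := rfl
  rw [hf2, hh2, ← hf] at hsum
  linear_combination -hsum

theorem leg_two {a : ℕ} (h : p = 4 * a + 1) : legendreSym p 2 = (-1) ^ a := by
  have hp2 : p ≠ 2 := by omega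
  rw [legendreSym.at_two hp2, ZMod.χ₈_nat_eq_if_mod_eight]
  rcases Nat.even_or_odd a with ⟨b, hb⟩ | ⟨b, hb⟩
  · have h1 : ¬ (p % 2 = 0) := by omega
    have h2 : p % 8 = 1 ∨ p % 8 = 7 := by omega
    rw [if_neg h1, if_pos h2]
    exact (Even.neg_one_pow ⟨b, hb⟩).symm
  · have h1 : ¬ (p % 2 = 0) := by omega
    have h2 : ¬ (p % 8 = 1 ∨ p % 8 = 7) := by omega
    rw [if_neg h1, if_neg h2]
    exact (Odd.neg_one_pow ⟨b, hb⟩).symm

theorem kap (hn : p = 2 * n + 1) {a : ℕ} (ha : n = 2 * a) :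
    ((-1) ^ a * 2 ^ n - 1 : ZMod (p ^ 2)) ^ 2 = 0 := by
  have h4 : p = 4 * a + 1 := by omega
  have h1 := legendreSym.eq_pow p 2
  rw [leg_two h4] at h1
  have h2 : p / 2 = n := by omega
  rw [h2] at h1
  push_cast at h1
  have hc : (ZMod.castHom (Dvd.intro_left (p ^ 1) (by ring) : p ∣ p ^ 2) (ZMod p))
      ((-1) ^ a * 2 ^ n - 1 : ZMod (p ^ 2)) = 0 := by
    rw [map_sub, map_mul, map_pow, map_pow, map_neg, map_one, map_ofNat, ← h1]
    have h5 : ((-1 : ZMod p) ^ a) * (-1) ^ a = 1 := by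
      rw [← mul_pow]
      simp
    rw [h5, sub_self]
  obtain ⟨z, hz⟩ := eq_p_mul_of_cast_zero hc
  rw [hz, mul_pow, p_sq, zero_mul]

end MPf96
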