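import Pool.Agent.H.MP_f96d9d_nt.Harm

/-!
# The sum `∑_{i=1}^n u_i^2 u_{n+i}` modulo `p^2`

`p = 2n+1`.
* `u_up`: for `1 ≤ i ≤ n`: `u_{n+i} * (2 i u_i) = p u_n`, by induction on `i`, together with
  `p u_{n+i} = 0`.
* `p_u`: `p u_i = p (-1)^i C(n,i)` for `i ≤ n`.
* `sum_choose_inv`: for `m ≤ n`: `∑_{i=1}^m (-1)^i C(m,i) / i = - Hs m`.
* So `u_i^2 u_{n+i} = u_i (half) (1/i) p u_n`, the sum is `half u_n ∑ (p u_i)/i
  = half u_n p ∑ (-1)^i C(n,i)/i = - half u_n p Hs n = half u_n 2 eta = u_n eta` by `H1`.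
* `Y_top2_val`: `U = (-1)^n (1 + eta)` by `H4` (`2^(p-1) = 1 + eta`), `eta^2 = 0`, so
  `U^3 + 3 U^3 eta = U^3 (1 + 3 eta) = (-1)^n U^6`.
-/

namespace MPf96

open Finset

variable {p n : ℕ} [hp : Fact p.Prime]

omit hp in
private theorem sumu_cast (hn : p = 2 * n + 1) : (p : ZMod (p ^ 2)) = 2 * (n : ZMod (p ^ 2)) + 1 := by
  have h : (p : ZMod (p ^ 2)) = ((2 * n + 1 : ℕ) : ZMod (p ^ 2)) := by
    congr 1
  rw [h]
  push_cast
  ring

omit hp in
private theorem sumu_ne_two (hn : p = 2 * n + 1) : p ≠ 2 := by omega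

private theorem sumu_unit (m : ℕ) (h0 : 0 < m) (h1 : m < p) : IsUnit (m : ZMod (p ^ 2)) :=
  unit_nat (not_dvd_of_lt h0 h1)

private theorem sumu_up (hn : p = 2 * n + 1) (i : ℕ) (hi : i + 1 ≤ n) :
    (p : ZMod (p ^ 2)) * u (half p) (n + (i + 1)) = 0 ∧
    u (half p) (n + (i + 1)) * (2 * ((i + 1 : ℕ) : ZMod (p ^ 2)) * u (half p) (i + 1)) =
      p * u (half p) n := by
  have hh := two_half (p := p) (sumu_ne_two hn)
  have hc := sumu_cast hn
  have hp2 := p_sq (p := p)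
  induction i with
  | zero =>
    have h1 := u_succ hh n
    have h0 := u_succ hh 0
    rw [u_zero] at h0
    have hx : ((p : ZMod (p ^ 2)) + 1) * u (half p) (n + 1) = p * u (half p) n := by
      rw [hc]
      linear_combination h1
    have hx0 : (p : ZMod (p ^ 2)) * u (half p) (n + 1) = 0 := by
      linear_combination (p : ZMod (p ^ 2)) * hx + (u (half p) n - u (half p) (n + 1)) * hp2
    refine ⟨by simpa using hx0, ?_⟩
    push_cast at h0 ⊢
    simp only [zero_add] at h0 ⊢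
    linear_combination hx - hx0 + u (half p) (n + 1) * h0
  | succ i ih =>
    obtain ⟨h1, h2⟩ := ih (by omega)
    have h3 := u_succ hh (n + (i + 1))
    have h4 := u_succ hh (i + 1)
    have e1 : n + (i + 1) + 1 = n + (i + 1 + 1) := by ring
    rw [e1] at h3
    push_cast at h3 h4 h2 ⊢
    have hx : ((p : ZMod (p ^ 2)) + (2 * (i : ZMod (p ^ 2)) + 3)) * u (half p) (n + (i + 1 + 1)) =
        (2 * (i : ZMod (p ^ 2)) + 2) * u (half p) (n + (i + 1)) := by
      have : (p : ZMod (p ^ 2)) * u (half p) (n + (i + 1)) = 0 := h1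
      rw [hc] at this ⊢
      linear_combination h3 + this
    have hu : IsUnit (2 * (i : ZMod (p ^ 2)) + 3) := by
      have := sumu_unit (p := p) (2 * i + 3) (by omega) (by omega)
      push_cast at this
      exact this
    have hx0 : (p : ZMod (p ^ 2)) * u (half p) (n + (i + 1 + 1)) = 0 := by
      apply eq_zero_of_unit_mul hu
      linear_combination (p : ZMod (p ^ 2)) * hx - u (half p) (n + (i + 1 + 1)) * hp2 +
        (2 * (i : ZMod (p ^ 2)) + 2) * h1
    refine ⟨hx0, ?_⟩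
    linear_combination u (half p) (i + 1) * hx - u (half p) (i + 1) * hx0 +
      u (half p) (n + (i + 1 + 1)) * h4 + h2

theorem u_up (hn : p = 2 * n + 1) {i : ℕ} (h1 : 1 ≤ i) (hi : i ≤ n) :
    u (half p) (n + i) * (2 * i * u (half p) i) = p * u (half p) n := by
  obtain ⟨j, rfl⟩ : ∃ j, i = j + 1 := ⟨i - 1, by omega⟩
  exact (sumu_up hn j hi).2

theorem p_u (hn : p = 2 * n + 1) {i : ℕ} (hi : i ≤ n) :
    (p : ZMod (p ^ 2)) * u (half p) i = p * ((-1) ^ i * (n.choose i : ZMod (p ^ 2))) := by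
  have hh := two_half (p := p) (sumu_ne_two hn)
  have hc := sumu_cast hn
  have hp2 := p_sq (p := p)
  induction i with
  | zero => simp [u_zero]
  | succ i ih =>
    have ih' := ih (by omega)
    have h1 := u_succ hh i
    have hu : IsUnit (2 * ((i : ZMod (p ^ 2)) + 1)) := by
      have := sumu_unit (p := p) (2 * (i + 1)) (by omega) (by omega)
      push_cast at this
      exact this
    have h2 : (n.choose (i + 1) : ZMod (p ^ 2)) * ((i : ZMod (p ^ 2)) + 1) =
        (n.choose i : ZMod (p ^ 2)) * ((n : ZMod (p ^ 2)) - i) := by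
      have h := Nat.choose_succ_right_eq n i
      have h' : ((n.choose (i + 1) * (i + 1) : ℕ) : ZMod (p ^ 2)) =
          ((n.choose i * (n - i) : ℕ) : ZMod (p ^ 2)) := by rw [h]
      rw [Nat.cast_mul, Nat.cast_mul, Nat.cast_sub (by omega)] at h'
      push_cast at h'
      exact h'
    apply cancel_unit hu
    have h3 : 2 * (n : ZMod (p ^ 2)) = p - 1 := by rw [hc]; ring
    linear_combination (p : ZMod (p ^ 2)) * h1 + (2 * (i : ZMod (p ^ 2)) + 1) * ih' -
      2 * (p : ZMod (p ^ 2)) * (-1) ^ (i + 1) * h2 -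
      (p : ZMod (p ^ 2)) * (-1) ^ (i + 1) * (n.choose i : ZMod (p ^ 2)) * h3 -
      (-1) ^ (i + 1) * (n.choose i : ZMod (p ^ 2)) * hp2

omit hp in
private theorem sumu_alt (m : ℕ) :
    ∑ i ∈ range (m + 1), (-1 : ZMod (p ^ 2)) ^ (i + 1) * ((m + 1).choose (i + 1) : ZMod (p ^ 2)) =
      -1 := by
  have h := Int.alternating_sum_range_choose_of_ne (n := m + 1) (by omega)
  rw [Finset.sum_range_succ'] at h
  have h2 := congrArg (fun x : ℤ => (x : ZMod (p ^ 2))) h
  simp only [Int.cast_add, Int.cast_sum, Int.cast_mul, Int.cast_pow, Int.cast_neg, Int.cast_one,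
    Int.cast_natCast, pow_zero, Nat.choose_zero_right, Nat.cast_one, mul_one, Int.cast_zero] at h2
  linear_combination h2

theorem sum_choose_inv (hn : p = 2 * n + 1) {m : ℕ} (hm : m ≤ n) :
    ∑ i ∈ range m, (-1) ^ (i + 1) * (m.choose (i + 1) : ZMod (p ^ 2)) *
      ((i + 1 : ℕ) : ZMod (p ^ 2))⁻¹ = -Hs p m := by
  induction m with
  | zero => simp [Hs]
  | succ m ih =>
    have ih' := ih (by omega)
    have hm1 : ((m + 1 : ℕ) : ZMod (p ^ 2)) * ((m + 1 : ℕ) : ZMod (p ^ 2))⁻¹ = 1 :=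
      mul_inv_nat (not_dvd_of_lt (by omega) (by omega))
    have hsplit : ∀ i ∈ range (m + 1),
        (-1) ^ (i + 1) * ((m + 1).choose (i + 1) : ZMod (p ^ 2)) *
          ((i + 1 : ℕ) : ZMod (p ^ 2))⁻¹ =
        (-1) ^ (i + 1) * (m.choose (i + 1) : ZMod (p ^ 2)) * ((i + 1 : ℕ) : ZMod (p ^ 2))⁻¹ +
        ((m + 1 : ℕ) : ZMod (p ^ 2))⁻¹ *
          ((-1) ^ (i + 1) * ((m + 1).choose (i + 1) : ZMod (p ^ 2))) := by
      intro i hi
      have hi' := Finset.mem_range.1 hi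
      have hi1 : ((i + 1 : ℕ) : ZMod (p ^ 2)) * ((i + 1 : ℕ) : ZMod (p ^ 2))⁻¹ = 1 :=
        mul_inv_nat (not_dvd_of_lt (by omega) (by omega))
      have h1 : ((m + 1).choose (i + 1) : ZMod (p ^ 2)) =
          (m.choose i : ZMod (p ^ 2)) + (m.choose (i + 1) : ZMod (p ^ 2)) := by
        rw [Nat.choose_succ_succ]
        push_cast
        ring
      have h2 : ((m + 1 : ℕ) : ZMod (p ^ 2)) * (m.choose i : ZMod (p ^ 2)) =
          ((m + 1).choose (i + 1) : ZMod (p ^ 2)) * ((i + 1 : ℕ) : ZMod (p ^ 2)) := by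
        have h := Nat.add_one_mul_choose_eq m i
        have h' : (((m + 1) * m.choose i : ℕ) : ZMod (p ^ 2)) =
          (((m + 1).choose (i + 1) * (i + 1) : ℕ) : ZMod (p ^ 2)) := by
          rw [← h]
        rw [Nat.cast_mul, Nat.cast_mul] at h'
        exact h'
      have h3 : (m.choose i : ZMod (p ^ 2)) * ((i + 1 : ℕ) : ZMod (p ^ 2))⁻¹ =
          ((m + 1 : ℕ) : ZMod (p ^ 2))⁻¹ * ((m + 1).choose (i + 1) : ZMod (p ^ 2)) := by
        linear_combination ((i + 1 : ℕ) : ZMod (p ^ 2))⁻¹ * ((m + 1 : ℕ) : ZMod (p ^ 2))⁻¹ * h2 -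
          (m.choose i : ZMod (p ^ 2)) * ((i + 1 : ℕ) : ZMod (p ^ 2))⁻¹ * hm1 +
          ((m + 1 : ℕ) : ZMod (p ^ 2))⁻¹ * ((m + 1).choose (i + 1) : ZMod (p ^ 2)) * hi1
      linear_combination (-1) ^ (i + 1) * ((i + 1 : ℕ) : ZMod (p ^ 2))⁻¹ * h1 +
        (-1) ^ (i + 1) * h3
    rw [Finset.sum_congr rfl hsplit, Finset.sum_add_distrib, ← Finset.mul_sum, sumu_alt,
      Finset.sum_range_succ, ih']
    have hHs : Hs p (m + 1) = Hs p m + ((m + 1 : ℕ) : ZMod (p ^ 2))⁻¹ := by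
      unfold Hs
      rw [Finset.sum_range_succ]
    rw [hHs, Nat.choose_succ_self]
    push_cast
    ring

theorem sum_u (hn : p = 2 * n + 1) :
    ∑ i ∈ range n, (u (half p) (i + 1)) ^ 2 * u (half p) (n + (i + 1)) =
      u (half p) n * eta p := by
  have hh := two_half (p := p) (sumu_ne_two hn)
  have hterm : ∀ i ∈ range n, (u (half p) (i + 1)) ^ 2 * u (half p) (n + (i + 1)) =
      (half p * u (half p) n * p) * ((-1) ^ (i + 1) * (n.choose (i + 1) : ZMod (p ^ 2)) *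
      ((i + 1 : ℕ) : ZMod (p ^ 2))⁻¹) := by
    intro i hi
    have hi' := Finset.mem_range.1 hi
    have h1 := u_up hn (i := i + 1) (by omega) (by omega)
    have h2 := p_u hn (i := i + 1) (by omega)
    have hi1 : ((i + 1 : ℕ) : ZMod (p ^ 2)) * ((i + 1 : ℕ) : ZMod (p ^ 2))⁻¹ = 1 :=
      mul_inv_nat (not_dvd_of_lt (by omega) (by omega))
    generalize ((i + 1 : ℕ) : ZMod (p ^ 2))⁻¹ = w at *
    generalize ((i + 1 : ℕ) : ZMod (p ^ 2)) = v at *
    linear_combination half p * w * u (half p) (i + 1) * h1 +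
      half p * u (half p) n * w * h2 -
      (u (half p) (i + 1)) ^ 2 * u (half p) (n + (i + 1)) * (v * w * hh + hi1)
  rw [Finset.sum_congr rfl hterm, ← Finset.mul_sum, sum_choose_inv hn le_rfl]
  have h := H1 hn
  linear_combination -(half p * u (half p) n) * h + u (half p) n * eta p * hh

theorem Y_top2_val (hn : p = 2 * n + 1) :
    (u (half p) n) ^ 3 + 3 * (u (half p) n) ^ 2 *
        (∑ i ∈ range n, (u (half p) (i + 1)) ^ 2 * u (half p) (n + (i + 1))) =
      (-1) ^ n * (u (half p) n) ^ 6 := by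
  rw [sum_u hn]
  have h4 := H4 (p := p) hn
  have he : (2 : ZMod (p ^ 2)) ^ (p - 1) = 1 + eta p := by
    unfold eta
    ring
  rw [he] at h4
  have hs := eta_sq (p := p) hn
  have hsgn : ((-1 : ZMod (p ^ 2)) ^ n) ^ 2 = 1 := by
    rw [← pow_mul, mul_comm, pow_mul]
    simp
  generalize ((-1 : ZMod (p ^ 2)) ^ n) = s at *
  generalize eta p = e at *
  rw [h4]
  have e6 : (1 + e) ^ 6 = 1 + 6 * e := by
    linear_combination (15 + 20 * e + 15 * e ^ 2 + 6 * e ^ 3 + e ^ 4) * hs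
  have e3 : (1 + e) ^ 3 = 1 + 3 * e := by
    linear_combination (3 + e) * hs
  have s3 : s ^ 3 = s := by linear_combination s * hsgn
  have s7 : s * s ^ 6 = s := by linear_combination (s * (s ^ 4 + s ^ 2 + 1)) * hsgn
  calc (s * (1 + e)) ^ 3 + 3 * (s * (1 + e)) ^ 2 * (s * (1 + e) * e)
      = s ^ 3 * ((1 + e) ^ 3) * (1 + 3 * e) := by ring
    _ = s * (1 + 3 * e) * (1 + 3 * e) := by rw [s3, e3]
    _ = s * (1 + 6 * e) := by linear_combination 9 * s * hs
    _ = (s * s ^ 6) * ((1 + e) ^ 6) := by rw [s7, e6]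
    _ = s * (s * (1 + e)) ^ 6 := by ring

end MPf96
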