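import Pool.Agent.H.MP_f96d9d_nt.Rev
import Pool.Agent.H.MP_f96d9d_nt.SumU

/-!
# `n` odd: `f_0^2 = h_0^2 = 0`

`p = 2n+1`, `n` odd. It is enough that `f0 = p z`, `h0 = p z'`, i.e. `p f0 = 0`, `p h0 = 0` gives
the same: in `ZMod (p^2)`, `p x = 0` implies `x = p z` (`eq_p_mul_of_p_mul`: `x = (m : ZMod (p^2))`,
`p^2 ∣ p m`, so `p ∣ m`), and then `x^2 = 0`.
`p f0`: by `p_u_rev` (`p u_{n-j} = p U u_j`; `U^2 p = p` since `U = ± (1+eta)`, `p eta = 0`: `H4`,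
`p_eta`), `p u_{n-j}^2 = p U^2 u_j^2 = p u_j^2`. Reversing the sum (`Finset.sum_range_reflect`)
`p f0 = p ∑_j (-1)^(n-j) u_{n-j}^2 = (-1)^n p ∑_j (-1)^j u_j^2 = - p f0`, so `2 p f0 = 0` and
`p f0 = 0`.
`p h0`: by `p_u` `p C(n,j) u_j = p (-1)^j u_j^2` (`p u_j = p (-1)^j C(n,j)` multiplied by
`(-1)^j u_j`), so `p h0 = p f0 = 0`.
-/

namespace MPf96

open Finset

variable {p n : ℕ} [hp : Fact p.Prime]

omit hp in
theorem sq_zero_of_p_mul {x : ZMod (p ^ 2)} (h0 : 0 < p) (hx : (p : ZMod (p ^ 2)) * x = 0) :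
    x ^ 2 = 0 := by
  have : NeZero (p ^ 2) := ⟨pow_ne_zero 2 h0.ne'⟩
  obtain ⟨m, rfl⟩ : ∃ m : ℕ, (m : ZMod (p ^ 2)) = x := ⟨x.val, ZMod.natCast_zmod_val x⟩
  have h1 : ((p * m : ℕ) : ZMod (p ^ 2)) = 0 := by
    rw [Nat.cast_mul]
    exact hx
  have h2 : p ^ 2 ∣ p * m := (ZMod.natCast_eq_zero_iff _ _).1 h1
  have h3 : p ∣ m := by
    rw [pow_two] at h2
    exact Nat.dvd_of_mul_dvd_mul_left h0 h2
  obtain ⟨z, rfl⟩ := h3
  have h4 : (((p * z) ^ 2 : ℕ) : ZMod (p ^ 2)) = 0 := by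
    rw [ZMod.natCast_eq_zero_iff, mul_pow]
    exact dvd_mul_right _ _
  rw [Nat.cast_pow] at h4
  exact h4

theorem p_h0 (hn : p = 2 * n + 1) : (p : ZMod (p ^ 2)) * h0 p n = p * f0 p n := by
  unfold h0 f0
  rw [Finset.mul_sum, Finset.mul_sum]
  refine Finset.sum_congr rfl fun j hj => ?_
  have hj' : j ≤ n := Nat.lt_succ_iff.1 (Finset.mem_range.1 hj)
  have h1 := p_u hn hj'
  have h2 : ((-1 : ZMod (p ^ 2)) ^ j) * (-1) ^ j = 1 := by
    rw [← mul_pow]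
    norm_num
  linear_combination (-(-1 : ZMod (p ^ 2)) ^ j * u (half p) j) * h1 -
    ((p : ZMod (p ^ 2)) * (n.choose j : ZMod (p ^ 2)) * u (half p) j) * h2

theorem fodd_p_f0 (hn : p = 2 * n + 1) (ho : Odd n) : (p : ZMod (p ^ 2)) * f0 p n = 0 := by
  have hp2 : p ≠ 2 := by omega
  have hU := p_u hn (le_refl n)
  rw [Nat.choose_self, Nat.cast_one, mul_one] at hU
  have hsq : ∀ k : ℕ, ((-1 : ZMod (p ^ 2)) ^ k) * (-1) ^ k = 1 := by
    intro k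
    rw [← mul_pow]
    norm_num
  have hUU : (p : ZMod (p ^ 2)) * (u (half p) n) ^ 2 = p := by
    have h1 := hsq n
    linear_combination (u (half p) n + (-1) ^ n) * hU + (p : ZMod (p ^ 2)) * h1
  have hterm : ∀ j ≤ n, (p : ZMod (p ^ 2)) * ((-1) ^ (n - j) * (u (half p) (n - j)) ^ 2) =
      -(p * ((-1) ^ j * (u (half p) j) ^ 2)) := by
    intro j hj
    have h1 := p_u_rev hn hj
    have h2 : ((-1 : ZMod (p ^ 2)) ^ (n - j)) * (-1) ^ j = -1 := by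
      rw [← pow_add, Nat.sub_add_cancel hj, ho.neg_one_pow]
    have h3 : ((-1 : ZMod (p ^ 2)) ^ (n - j)) = -(-1) ^ j := by
      have h4 := hsq j
      linear_combination ((-1 : ZMod (p ^ 2)) ^ j) * h2 - ((-1 : ZMod (p ^ 2)) ^ (n - j)) * h4
    rw [h3]
    linear_combination (-(-1 : ZMod (p ^ 2)) ^ j * (u (half p) (n - j) +
      u (half p) n * u (half p) j)) * h1 - ((-1 : ZMod (p ^ 2)) ^ j * (u (half p) j) ^ 2) * hUU
  have hsum : (p : ZMod (p ^ 2)) * f0 p n = -(p * f0 p n) := by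
    conv_lhs => rw [f0, ← Finset.sum_range_reflect]
    rw [f0, Finset.mul_sum, Finset.mul_sum, ← Finset.sum_neg_distrib]
    refine Finset.sum_congr rfl fun j hj => ?_
    have hj' : j ≤ n := Nat.lt_succ_iff.1 (Finset.mem_range.1 hj)
    rw [show n + 1 - 1 - j = n - j by omega]
    exact hterm j hj'
  have h2 := two_half (p := p) hp2
  linear_combination (half p) * hsum - ((p : ZMod (p ^ 2)) * f0 p n) * h2

theorem f0_odd (hn : p = 2 * n + 1) (ho : Odd n) : (f0 p n) ^ 2 = 0 := by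
  exact sq_zero_of_p_mul hp.out.pos (fodd_p_f0 hn ho)

theorem h0_odd (hn : p = 2 * n + 1) (ho : Odd n) : (h0 p n) ^ 2 = 0 := by
  refine sq_zero_of_p_mul hp.out.pos ?_
  rw [p_h0 hn]
  exact fodd_p_f0 hn ho

end MPf96
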