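import Pool.Agent.H.MP_f96d9d_nt.Base

/-!
# Reversal of `u_j` modulo `p^2`

`p = 2n+1`. `E_j = ∑_{m<j} (1/(2m+1) - 1/(2m+2))` in `ZMod (p^2)`; claim
`u_{n-j} = u_n u_j (1 - p E_j)` for `j ≤ n`. Induction on `j`. For `j < n` put `s = 2j+1`,
`r = 2j+2`; both are units (`< p`). `u_succ` for the index `n-j-1` reads
`2(n-j) u_{n-j} = (2(n-j)-1) u_{n-j-1}`, i.e. `(p-s) u_{n-j} = (p-r) u_{n-j-1}`, and for the index
`j`: `r u_{j+1} = s u_j`. Hence
`s (p-r) u_{n-j-1} = (p-s) s u_n u_j (1-pE_j) = (p-s) r u_n u_{j+1} (1-pE_j)`; multiply by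
`-(1/s)(1/r)`: `(1 - p/r) u_{n-j-1} = (1 - p/s)(1 - p E_j) u_n u_{j+1}`, multiply by `1 + p/r` and
use `p^2 = 0`: `u_{n-j-1} = (1 - p(E_j + 1/s - 1/r)) u_n u_{j+1}`.
-/

namespace MPf96

open Finset

variable {p n : ℕ} [hp : Fact p.Prime]

/-- `E_j = ∑_{m<j} (1/(2m+1) - 1/(2m+2))` -/
def EE (p j : ℕ) : ZMod (p ^ 2) :=
  ∑ m ∈ range j, (((2 * m + 1 : ℕ) : ZMod (p ^ 2))⁻¹ - ((2 * m + 2 : ℕ) : ZMod (p ^ 2))⁻¹)

omit hp in
theorem rev_ne_two (hn : p = 2 * n + 1) : p ≠ 2 := by omega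

theorem u_rev (hn : p = 2 * n + 1) {j : ℕ} (hj : j ≤ n) :
    u (half p) (n - j) = u (half p) n * u (half p) j * (1 - p * EE p j) := by
  induction j with
  | zero => simp [EE, u_zero]
  | succ j ih =>
    have e2 := ih (by omega)
    obtain ⟨m, hm⟩ : ∃ m, n = m + 1 + j := ⟨n - j - 1, by omega⟩
    have h1 : n - j = m + 1 := by omega
    have h2 : n - (j + 1) = m := by omega
    rw [h1] at e2
    rw [h2]
    have hh := two_half (rev_ne_two hn)
    have e1 := u_succ hh m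
    have e3 := u_succ hh j
    have es : ((2 * j + 1 : ℕ) : ZMod (p ^ 2)) * ((2 * j + 1 : ℕ) : ZMod (p ^ 2))⁻¹ = 1 :=
      mul_inv_nat (not_dvd_of_lt (by omega) (by omega))
    have er : ((2 * j + 2 : ℕ) : ZMod (p ^ 2)) * ((2 * j + 2 : ℕ) : ZMod (p ^ 2))⁻¹ = 1 :=
      mul_inv_nat (not_dvd_of_lt (by omega) (by omega))
    have ep := p_sq (p := p)
    have epn : (p : ZMod (p ^ 2)) = 2 * ((m : ZMod (p ^ 2)) + 1 + j) + 1 := by
      have h3 : ((p : ℕ) : ZMod (p ^ 2)) = ((2 * (m + 1 + j) + 1 : ℕ) : ZMod (p ^ 2)) := by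
        congr 1
        omega
      rw [h3]
      push_cast
      ring
    have hE : EE p (j + 1) = EE p j + (((2 * j + 1 : ℕ) : ZMod (p ^ 2))⁻¹ -
        ((2 * j + 2 : ℕ) : ZMod (p ^ 2))⁻¹) := by
      unfold EE
      rw [sum_range_succ]
    rw [hE]
    generalize ((2 * j + 1 : ℕ) : ZMod (p ^ 2))⁻¹ = S at *
    generalize ((2 * j + 2 : ℕ) : ZMod (p ^ 2))⁻¹ = T at *
    generalize EE p j = E at *
    generalize u (half p) (m + 1) = v at *
    generalize u (half p) m = w at *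
    generalize u (half p) n = a at *
    generalize u (half p) (j + 1) = b at *
    generalize u (half p) j = c at *
    push_cast at es er
    have hA : ((p : ZMod (p ^ 2)) - (2 * j + 2)) * w =
        ((p : ZMod (p ^ 2)) - (2 * j + 1)) * (a * c * (1 - p * E)) := by
      rw [← e2]
      linear_combination (-1 : ZMod (p ^ 2)) * e1 + (w - v) * epn
    have hc : c = S * (2 * j + 2) * b := by
      linear_combination (-c) * es - S * e3
    have hB : ((p : ZMod (p ^ 2)) * T - 1) * w = (p * S - 1) * (a * b * (1 - p * E)) := by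
      rw [hc] at hA
      linear_combination T * hA + w * er + (p * S - 1) * (a * b * (1 - p * E)) * er -
        ((2 * j + 2) * T * a * b * (1 - p * E)) * es
    linear_combination (-(1 + (p : ZMod (p ^ 2)) * T)) * hB + (T ^ 2 * w + S * T * a * b * (-1) +
      (E * (T - S)) * a * b * (-1) + (p : ZMod (p ^ 2)) * T * S * a * b * E) * ep

/-- `u_j` is a unit for `j ≤ n` (`C(2j,j)` is prime to `p` as `2j < p`, and `half p` is a unit). -/
theorem unit_u (hn : p = 2 * n + 1) {j : ℕ} (hj : j ≤ n) : IsUnit (u (half p) j) := by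
  have h1 : ¬ p ∣ Nat.centralBinom j := by
    intro h
    have h2 : Nat.centralBinom j ∣ (2 * j).factorial := by
      rw [Nat.centralBinom, ← Nat.choose_mul_factorial_mul_factorial (show j ≤ 2 * j by omega)]
      rw [mul_assoc]
      exact Dvd.intro _ rfl
    have h3 := (Nat.Prime.dvd_factorial hp.out).1 (h.trans h2)
    omega
  unfold u
  refine (unit_nat h1).mul (IsUnit.pow _ ?_)
  exact IsUnit.of_mul_eq_one 2 (by rw [mul_comm]; exact two_half (rev_ne_two hn))

/-- `p u_{n-j} = p u_n u_j` -/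
theorem p_u_rev (hn : p = 2 * n + 1) {j : ℕ} (hj : j ≤ n) :
    (p : ZMod (p ^ 2)) * u (half p) (n - j) = p * (u (half p) n * u (half p) j) := by
  rw [u_rev hn hj]
  have ep := p_sq (p := p)
  linear_combination (-(u (half p) n * u (half p) j * EE p j)) * ep

/-- For `n < j < p`, `u_j` is a multiple of `p` (`p` divides `C(2j,j)`:
`Nat.centralBinom`, `p ∣ (2j)!/(j!)^2` for `j < p ≤ 2j`; or by induction from `u_succ`:
`2(n+1) u_{n+1} = p u_n`, `2(j+1)` is a unit for `j + 1 < p`). -/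
theorem u_big (hn : p = 2 * n + 1) {j : ℕ} (h1 : n < j) (h2 : j < p) :
    ∃ z, u (half p) j = (p : ZMod (p ^ 2)) * z := by
  have h3 : p ∣ Nat.centralBinom j := by
    have h4 : p ∣ (2 * j).factorial := (Nat.Prime.dvd_factorial hp.out).2 (by omega)
    rw [← Nat.choose_mul_factorial_mul_factorial (show j ≤ 2 * j by omega)] at h4
    have h5 : ¬ p ∣ j.factorial := fun h => by
      have := (Nat.Prime.dvd_factorial hp.out).1 h
      omega
    have h6 : ¬ p ∣ (2 * j - j).factorial := by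
      rw [show 2 * j - j = j by omega]
      exact h5
    rcases (Nat.Prime.dvd_mul hp.out).1 h4 with h7 | h7
    · rcases (Nat.Prime.dvd_mul hp.out).1 h7 with h8 | h8
      · exact h8
      · exact absurd h8 h5
    · exact absurd h7 h6
  obtain ⟨z, hz⟩ := h3
  refine ⟨(z : ZMod (p ^ 2)) * (half p) ^ (2 * j), ?_⟩
  unfold u
  rw [hz]
  push_cast
  ring

end MPf96
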