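import Pool.Agent.H.MP_f96d9d_nt.ClausenInt
import Pool.Agent.H.MP_f96d9d_nt.Rev

/-!
# `F(8)` and `F(1/8)` modulo `p^2`

`p = 2n+1`.
* `choose_mod`: `C(n+i,2i) (-16)^i = C(2i,i)` in `ZMod (p^2)` for `i ≤ n`. Induction on `i`:
  `C(n+i+1,2i+2) (2i+2)(2i+1) = C(n+i,2i) (n+i+1)(n-i)` in `ℕ`, and
  `4 (n+i+1)(n-i) = (p+2i+1)(p-(2i+1)) = p^2 - (2i+1)^2`, so in `ZMod (p^2)`
  `-16 (2i+2)(2i+1) C(n+i+1,2i+2) = 4 (2i+1)^2 C(n+i,2i)`; also
  `(i+1) C(2i+2,i+1) = 2(2i+1) C(2i,i)`. Multiply by `(-16)^i` and use the induction hypothesis: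
  `(2i+2)(2i+1) [(-16)^(i+1) C(n+i+1,2i+2)] = 4(2i+1)^2 C(2i,i) = (2i+1)(2i+2) C(2i+2,i+1)`; cancel
  the unit `(2i+2)(2i+1)` (`2i+2 ≤ 2n < p`).
* `F8`: `C(n,j) C(n+j,j) = C(n+j,2j) C(2j,j)` (Nat.choose_mul or so), so in `ZMod (p^2)`
  `(-16)^j C(n,j) C(n+j,j) = C(2j,j)^2`, and with `k = half p`, `2k = 1`, `C(2j,j) = u_j 4^j`:
  `C(n,j) C(n+j,j) = (-1)^j u_j^2`. So the cast of the left side of `CLa` is `f0^2`. The right
  side: `C(n+i,2i) C(2i,i)^2 2^i = (-16)^(-i) C(2i,i)^3 2^i = u_i^3 64^i (-8)^(-i) = u_i^3 (-8)^i`.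
* `F18`: `8 s = 1`. The cast of the left side of `CLb` is `(4^n h0)^2 = 16^n h0^2`
  (`C(2j,j) 4^(n-j) = u_j 4^n`). The right side:
  `C(n+i,2i) C(2i,i)^2 32^(n-i) = 32^n u_i^3 64^i (-16)^(-i) 32^(-i) = 32^n u_i^3 (-1/8)^i`. So
  `16^n h0^2 = 32^n F(1/8)`, cancel `16^n` (unit): `h0^2 = 2^n F(1/8)`.
-/

namespace MPf96

open Finset

variable {p n : ℕ} [hp : Fact p.Prime]

theorem fval_choose (n i : ℕ) :
    (n + (i + 1)).choose (2 * (i + 1)) * ((2 * i + 2) * (2 * i + 1)) =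
      (n + i).choose (2 * i) * ((n + i + 1) * (n - i)) := by
  have h1 := Nat.add_one_mul_choose_eq (n + i) (2 * i + 1)
  have h2 := Nat.choose_succ_right_eq (n + i) (2 * i)
  have h3 : n + i - 2 * i = n - i := by omega
  rw [h3] at h2
  have e1 : n + (i + 1) = n + i + 1 := by ring
  have e2 : 2 * (i + 1) = 2 * i + 1 + 1 := by ring
  rw [e1, e2]
  calc (n + i + 1).choose (2 * i + 1 + 1) * ((2 * i + 2) * (2 * i + 1))
      = ((n + i + 1).choose (2 * i + 1 + 1) * (2 * i + 1 + 1)) * (2 * i + 1) := by ring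
    _ = ((n + i + 1) * (n + i).choose (2 * i + 1)) * (2 * i + 1) := by rw [h1]
    _ = (n + i + 1) * ((n + i).choose (2 * i + 1) * (2 * i + 1)) := by ring
    _ = (n + i + 1) * ((n + i).choose (2 * i) * (n - i)) := by rw [h2]
    _ = _ := by ring

theorem choose_mod (hn : p = 2 * n + 1) {i : ℕ} (hi : i ≤ n) :
    ((n + i).choose (2 * i) : ZMod (p ^ 2)) * (-16) ^ i = (Nat.centralBinom i : ZMod (p ^ 2)) := by
  induction i with
  | zero => simp
  | succ i ih =>
    have ih' := ih (by omega)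
    have k1 : (((n + (i + 1)).choose (2 * (i + 1)) * ((2 * i + 2) * (2 * i + 1)) : ℕ) :
        ZMod (p ^ 2)) = (((n + i).choose (2 * i) * ((n + i + 1) * (n - i)) : ℕ) : ZMod (p ^ 2)) := by
      rw [fval_choose]
    have k2 : (((i + 1) * Nat.centralBinom (i + 1) : ℕ) : ZMod (p ^ 2)) =
        ((2 * (2 * i + 1) * Nat.centralBinom i : ℕ) : ZMod (p ^ 2)) := by
      rw [Nat.succ_mul_centralBinom_succ i]
    have k3 : ((n - i : ℕ) : ZMod (p ^ 2)) = (n : ZMod (p ^ 2)) - i := by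
      rw [Nat.cast_sub (by omega)]
    have k4 : (2 * (n : ZMod (p ^ 2)) + 1) ^ 2 = 0 := by
      have := p_sq (p := p)
      have e : (p : ZMod (p ^ 2)) = 2 * (n : ZMod (p ^ 2)) + 1 := by
        have : ((2 * n + 1 : ℕ) : ZMod (p ^ 2)) = (p : ZMod (p ^ 2)) := by rw [← hn]
        rw [← this]; push_cast; ring
      rw [← e]; exact this
    have hu : IsUnit (((2 * i + 2 : ℕ) : ZMod (p ^ 2)) * ((2 * i + 1 : ℕ) : ZMod (p ^ 2))) :=
      (unit_nat (not_dvd_of_lt (by omega) (by omega))).mul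
        (unit_nat (not_dvd_of_lt (by omega) (by omega)))
    apply cancel_unit hu
    rw [Nat.cast_mul, Nat.cast_mul, Nat.cast_mul, Nat.cast_mul, k3] at k1
    push_cast at k1 k2 ih' ⊢
    have e16 : (-16 : ZMod (p ^ 2)) ^ (i + 1) = (-16) ^ i * (-16) := pow_succ _ _
    rw [e16]
    linear_combination (-16) ^ i * (-16) * k1 - 2 * (2 * (i : ZMod (p ^ 2)) + 1) * k2 +
      4 * (2 * (i : ZMod (p ^ 2)) + 1) ^ 2 * ih' -
      4 * ((n + i).choose (2 * i) : ZMod (p ^ 2)) * (-16) ^ i * k4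

theorem fval_A (hn : p = 2 * n + 1) {i : ℕ} (hi : i ≤ n) :
    ((n + i).choose (2 * i) : ZMod (p ^ 2)) =
      (Nat.centralBinom i : ZMod (p ^ 2)) * (-(half p) ^ 4) ^ i := by
  have hp2 : p ≠ 2 := by omega
  have hh := two_half (p := p) hp2
  rw [← choose_mod hn hi, mul_assoc, ← mul_pow]
  have : (-16 : ZMod (p ^ 2)) * -(half p) ^ 4 = 1 := by
    have : (-16 : ZMod (p ^ 2)) * -(half p) ^ 4 = (2 * half p) ^ 4 := by ring
    rw [this, hh, one_pow]
  rw [this, one_pow, mul_one]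

theorem F8 (hn : p = 2 * n + 1) : FF p n 8 = (f0 p n) ^ 2 := by
  have hp2 : p ≠ 2 := by omega
  have hh := two_half (p := p) hp2
  have key := congrArg (fun x : ℤ => (x : ZMod (p ^ 2))) (CLa n)
  push_cast at key
  have hl : (∑ j ∈ range (n + 1), ((n.choose j : ZMod (p ^ 2)) * ((n + j).choose j : ZMod (p ^ 2)))) =
      f0 p n := by
    unfold f0
    apply Finset.sum_congr rfl
    intro j hj
    have hj' : j ≤ n := by have := Finset.mem_range.1 hj; omega
    have c1 : (n + j).choose (2 * j) * (2 * j).choose j = (n + j).choose j * n.choose j := by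
      have := Nat.choose_mul (n := n + j) (k := 2 * j) (s := j) (by omega)
      rw [this]
      congr 2 <;> omega
    have c2 : ((n.choose j : ZMod (p ^ 2)) * ((n + j).choose j : ZMod (p ^ 2))) =
        ((n + j).choose (2 * j) : ZMod (p ^ 2)) * (Nat.centralBinom j : ZMod (p ^ 2)) := by
      rw [Nat.centralBinom_eq_two_mul_choose, mul_comm, ← Nat.cast_mul, ← Nat.cast_mul, c1]
    rw [c2, fval_A hn hj']
    unfold u
    rw [neg_pow]
    ring
  have hr : (∑ i ∈ range (n + 1), ((n + i).choose (2 * i) : ZMod (p ^ 2)) *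
      (Nat.centralBinom i : ZMod (p ^ 2)) ^ 2 * 2 ^ i) = FF p n 8 := by
    unfold FF
    apply Finset.sum_congr rfl
    intro j hj
    have hj' : j ≤ n := by have := Finset.mem_range.1 hj; omega
    rw [fval_A hn hj']
    unfold u
    have e : (-(half p) ^ 4) ^ j * 2 ^ j = (half p) ^ (6 * j) * (-8) ^ j := by
      rw [← mul_pow, pow_mul, ← mul_pow]
      congr 1
      linear_combination 2 * (half p) ^ 4 * (2 * half p + 1) * hh
    have e2 : ((half p) ^ (2 * j)) ^ 3 = (half p) ^ (6 * j) := by ring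
    rw [mul_pow, e2]
    linear_combination (Nat.centralBinom j : ZMod (p ^ 2)) ^ 3 * e
  rw [hl, hr] at key
  exact key.symm

theorem F18 (hn : p = 2 * n + 1) {s : ZMod (p ^ 2)} (hs : 8 * s = 1) :
    2 ^ n * FF p n s = (h0 p n) ^ 2 := by
  have hp2 : p ≠ 2 := by omega
  have hh := two_half (p := p) hp2
  have hs' : s = (half p) ^ 3 := by
    have : (half p) ^ 3 * (8 * s) = (2 * half p) ^ 3 * s := by ring
    rw [hs, hh] at this
    linear_combination -this
  have key := congrArg (fun x : ℤ => (x : ZMod (p ^ 2))) (CLb n)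
  push_cast at key
  have hl : (∑ j ∈ range (n + 1), (n.choose j : ZMod (p ^ 2)) *
      (Nat.centralBinom j : ZMod (p ^ 2)) * 4 ^ (n - j)) = 4 ^ n * h0 p n := by
    unfold h0
    rw [Finset.mul_sum]
    apply Finset.sum_congr rfl
    intro j hj
    have hj' : j ≤ n := by have := Finset.mem_range.1 hj; omega
    obtain ⟨d, rfl⟩ : ∃ d, n = d + j := ⟨n - j, by omega⟩
    rw [Nat.add_sub_cancel, pow_add]
    unfold u
    have e : (4 : ZMod (p ^ 2)) ^ j * (half p) ^ (2 * j) = 1 := by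
      rw [pow_mul, ← mul_pow]
      have : (4 : ZMod (p ^ 2)) * (half p) ^ 2 = (2 * half p) ^ 2 := by ring
      rw [this, hh, one_pow, one_pow]
    linear_combination (-((d + j).choose j : ZMod (p ^ 2)) *
      (Nat.centralBinom j : ZMod (p ^ 2)) * 4 ^ d) * e
  have hr : (∑ i ∈ range (n + 1), ((n + i).choose (2 * i) : ZMod (p ^ 2)) *
      (Nat.centralBinom i : ZMod (p ^ 2)) ^ 2 * 32 ^ (n - i)) = 32 ^ n * FF p n s := by
    unfold FF
    rw [Finset.mul_sum]
    apply Finset.sum_congr rfl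
    intro j hj
    have hj' : j ≤ n := by have := Finset.mem_range.1 hj; omega
    rw [fval_A hn hj']
    obtain ⟨d, hd⟩ : ∃ d, n = d + j := ⟨n - j, by omega⟩
    have hd' : n - j = d := by omega
    rw [hd', hd, pow_add]
    unfold u
    have e : (-(half p) ^ 4) ^ j = 32 ^ j * ((half p) ^ (6 * j) * (-s) ^ j) := by
      rw [pow_mul, ← mul_pow, ← mul_pow]
      congr 1
      have : (32 : ZMod (p ^ 2)) * ((half p) ^ 6 * -s) = -((2 * half p) ^ 5 * (half p) ^ 4) := by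
        rw [hs']; ring
      rw [this, hh]
      ring
    have e2 : ((half p) ^ (2 * j)) ^ 3 = (half p) ^ (6 * j) := by ring
    rw [mul_pow, e2]
    linear_combination (Nat.centralBinom j : ZMod (p ^ 2)) ^ 3 * 32 ^ d * e
  rw [hl, hr] at key
  have hu : IsUnit ((16 : ZMod (p ^ 2)) ^ n) := by
    apply IsUnit.pow
    apply IsUnit.of_mul_eq_one ((half p) ^ 4)
    have : (16 : ZMod (p ^ 2)) * (half p) ^ 4 = (2 * half p) ^ 4 := by ring
    rw [this, hh, one_pow]
  apply cancel_unit hu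
  have e32 : (32 : ZMod (p ^ 2)) ^ n = 16 ^ n * 2 ^ n := by
    rw [← mul_pow]; norm_num
  have e16 : (16 : ZMod (p ^ 2)) ^ n = (4 ^ n) ^ 2 := by
    rw [← pow_mul, mul_comm n 2, pow_mul]; norm_num
  rw [e32] at key
  have e16' : (16 : ZMod (p ^ 2)) ^ n * (h0 p n) ^ 2 = (4 ^ n * h0 p n) ^ 2 := by
    rw [e16]; ring
  rw [e16', key]
  ring

end MPf96
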