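import Pool.Agent.H.MP_f96d9d_nt.Master
import Pool.Agent.H.MP_f96d9d_nt.FVal
import Pool.Agent.H.MP_f96d9d_nt.FOdd
import Pool.Agent.H.MP_f96d9d_nt.FEven

/-!
# The sums `A_1`, `A_2` in `ZMod (p^2)`

`p = 2n+1`, `p ≠ 7`, `8 s = 1`. `S2 = ∑_{k<p} T_k(s)^3 8^k`, `S1 = ∑_{k<p} T_k(8)^3 s^k`.
`master` with `t = s` and with `t = 8`. Note `8 (1 - s) = 7` and `1 - 8 = -7` are units
(`unit_nat`, `7` is not divisible by the prime `p ≠ 7`).
* `n` odd: `F(8) = f0^2 = 0`, `2^n F(s) = h0^2 = 0` so `F(s) = 0`; both sums vanish.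
* `n = 2a`: `κ = (-1)^a 2^n`, `κ = 1 + e`, `e^2 = 0` (`kap`), `κ^2 = 4^n = 2^(p-1)`,
  `U = u_n = 2^(p-1) = κ^2` (`H4`, `n` even), `F(8) = f0^2`, `2^n F(s) = h0^2`,
  `4 h0^2 = (κ+1)^2 f0^2`; `8^(p-1) = (κ^2)^3 = κ^6`, `2^n = (-1)^a κ`.
  `S2`: `(1-s) S2 = F(8) (1 + U^6 s^p) - 2 U^3 s^(p-n) F(s)`. Multiply by `8`; with
  `s^(p-1) κ^6 = 1`: `U^6 s^p = κ^12 s^(p-1) s = κ^6 s`; `s^(p-n) F(s) = s s^n F(s)`, and
  `s^n 2^(3n) = 1`, so `s^n F(s) = s^n s^n 8^n F(s) = s^(2n) 4^n (2^n F(s)) =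
  s^(2n) κ^2 h0^2`, `s^(2n) = κ^(-6)`. So `7 S2 = f0^2 (8 + κ^6) - 2 κ^6 κ^(-4) h0^2 =
  f0^2 (8 + κ^6) - κ^2 (κ+1)^2 f0^2 / 2`, and with `κ = 1+e`: `8 + κ^6 = 9 + 6e`,
  `κ^2 (κ+1)^2/2 = (1+2e)(4+4e)/2 = 2 + 6e`. So `7 S2 = 7 f0^2`.
  `S1`: `-7 S1 = F(s) (1 + U^6 8^p) - 2 U^3 8^(p-n) F(8)`, `F(s) = 2^(-n) h0^2`,
  `2^(-n) = (-1)^a κ^(-1)`, `8^p = 8 κ^6`, `8^(p-n) = 8^(n+1) = 8 (2^n)^3 = 8 (-1)^a κ^3`:
  `-7 S1 = (-1)^a f0^2 [κ^(-1) (κ+1)^2/4 (1 + 8 κ^18) - 16 κ^9] = (-1)^a f0^2 (-7)`.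
-/

namespace MPf96

open Finset

variable {p n : ℕ} [hp : Fact p.Prime]

omit hp in
theorem aval_alg2 {R : Type*} [CommRing R] {s q w e f G H S : R} (hs : 8 * s = 1)
    (hw : w * q ^ 3 = 1) (hq : q ^ 2 = 1 + 2 * e) (he : e ^ 2 = 0) (hG : q * G = H ^ 2)
    (hH : 2 * H = (2 + e) * f)
    (hm : (1 - s) * S = f ^ 2 * (1 + q ^ 12 * (w ^ 2 * s)) - 2 * q ^ 6 * (w * s) * G) :
    14 * S = 14 * f ^ 2 := by
  have h1 : 7 * S = f ^ 2 * (8 + q ^ 12 * w ^ 2) - 2 * q ^ 6 * w * G := by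
    linear_combination 8 * hm + (S + f ^ 2 * q ^ 12 * w ^ 2 - 2 * q ^ 6 * w * G) * hs
  have h2 : q ^ 12 * w ^ 2 = q ^ 6 := by
    linear_combination (q ^ 6 * (w * q ^ 3 + 1)) * hw
  have h4 : 7 * S = f ^ 2 * (8 + q ^ 6) - 2 * q ^ 2 * H ^ 2 := by
    linear_combination h1 + f ^ 2 * h2 - 2 * q ^ 3 * G * hw - 2 * q ^ 2 * hG
  have h5 : (2 * H) ^ 2 = (4 + 4 * e) * f ^ 2 := by
    rw [hH]
    linear_combination f ^ 2 * he
  have h6 : q ^ 6 = 1 + 6 * e := by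
    have : q ^ 6 = (q ^ 2) ^ 3 := by ring
    rw [this, hq]
    linear_combination (12 + 8 * e) * he
  linear_combination 2 * h4 + 2 * f ^ 2 * h6 - q ^ 2 * h5 - (4 + 4 * e) * f ^ 2 * hq
    - 8 * f ^ 2 * he

omit hp in
theorem aval_alg1 {R : Type*} [CommRing R] {q e f G H S : R}
    (hq : q ^ 2 = 1 + 2 * e) (he : e ^ 2 = 0) (hG : q * G = H ^ 2)
    (hH : 2 * H = (2 + e) * f)
    (hm : (1 - 8) * S = G * (1 + q ^ 12 * (8 * q ^ 6)) - 2 * q ^ 6 * (8 * q ^ 3) * f ^ 2) :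
    28 * (q * S) = 28 * ((1 + e) * f ^ 2) := by
  have h5 : (2 * H) ^ 2 = (4 + 4 * e) * f ^ 2 := by
    rw [hH]
    linear_combination f ^ 2 * he
  have h7 : ∀ m : ℕ, (q ^ 2) ^ m = 1 + 2 * m * e := by
    intro m
    rw [hq]
    induction m with
    | zero => simp
    | succ m ih =>
      rw [pow_succ, ih]
      push_cast
      linear_combination (4 * m : R) * he
  have h18 : q ^ 18 = 1 + 18 * e := by
    have := h7 9
    push_cast at this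
    linear_combination this
  have h10 : q ^ 10 = 1 + 10 * e := by
    have := h7 5
    push_cast at this
    linear_combination this
  linear_combination (-4 * q) * hm - 4 * (1 + 8 * q ^ 18) * hG - (1 + 8 * q ^ 18) * h5
    - 8 * (4 + 4 * e) * f ^ 2 * h18 + 64 * f ^ 2 * h10 - 576 * f ^ 2 * he

theorem aval_unit {m : ℕ} (h2 : p ≠ 2) (h7 : p ≠ 7) (i j : ℕ) (hm : m = 2 ^ i * 7 ^ j) :
    IsUnit (m : ZMod (p ^ 2)) := by
  apply unit_nat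
  intro h
  rw [hm, hp.out.dvd_mul] at h
  rcases h with h | h
  · have := hp.out.dvd_of_dvd_pow h
    exact h2 ((Nat.prime_dvd_prime_iff_eq hp.out Nat.prime_two).1 this)
  · have := hp.out.dvd_of_dvd_pow h
    exact h7 ((Nat.prime_dvd_prime_iff_eq hp.out (by norm_num)).1 this)

theorem aval_two (hn : p = 2 * n + 1) : IsUnit (2 : ZMod (p ^ 2)) := by
  have h2 : p ≠ 2 := by omega
  have : ¬ p ∣ 2 := fun h => h2 ((Nat.prime_dvd_prime_iff_eq hp.out Nat.prime_two).1 h)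
  have := unit_nat this
  exact_mod_cast this

theorem S_odd (hn : p = 2 * n + 1) (h7 : p ≠ 7) (ho : Odd n) {s : ZMod (p ^ 2)}
    (hs : 8 * s = 1) :
    ∑ k ∈ range p, (Tv (half p) s k) ^ 3 * 8 ^ k = 0 ∧
      ∑ k ∈ range p, (Tv (half p) 8 k) ^ 3 * s ^ k = 0 := by
  have h2 : p ≠ 2 := by omega
  have hF : FF p n 8 = 0 := by rw [F8 hn, f0_odd hn ho]
  have hG : FF p n s = 0 := by
    have h := F18 hn hs
    rw [h0_odd hn ho] at h
    exact eq_zero_of_unit_mul ((aval_two hn).pow n) h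
  have u7 : IsUnit (7 : ZMod (p ^ 2)) := by
    have := aval_unit (m := 7) h2 h7 0 1 (by norm_num)
    exact_mod_cast this
  constructor
  · have hm := master hn (t := s) (s := 8) (by rw [mul_comm]; exact hs)
    rw [hF, hG] at hm
    apply eq_zero_of_unit_mul u7
    linear_combination 8 * hm +
      (∑ k ∈ range p, (Tv (half p) s k) ^ 3 * 8 ^ k) * hs
  · have hm := master hn (t := 8) (s := s) hs
    rw [hF, hG] at hm
    apply eq_zero_of_unit_mul u7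
    linear_combination (-1) * hm

/-- the data common to `S1_even` and `S2_even` -/
theorem aval_data (hn : p = 2 * n + 1) {a : ℕ} (ha : n = 2 * a) :
    ∃ e : ZMod (p ^ 2), e ^ 2 = 0 ∧ (2 ^ n : ZMod (p ^ 2)) ^ 2 = 1 + 2 * e ∧
      (-1) ^ a * 2 ^ n = 1 + e ∧ 2 * h0 p n = (2 + e) * u (half p) a ∧
      u (half p) n = (2 ^ n) ^ 2 := by
  have hk := kap hn ha
  have hh := h0_even hn ha
  rw [f0_even hn ha] at hh
  refine ⟨(-1) ^ a * 2 ^ n - 1, hk, ?_, by ring, ?_, ?_⟩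
  · have e1 : ((-1 : ZMod (p ^ 2)) ^ a) ^ 2 = 1 := by
      rw [← pow_mul, mul_comm, pow_mul]
      simp
    linear_combination hk - (2 ^ n) ^ 2 * e1
  · linear_combination hh
  · rw [H4 hn]
    have e1 : ((-1 : ZMod (p ^ 2)) ^ n) = 1 := by
      rw [ha, pow_mul]
      simp
    rw [e1, one_mul, hn, ← pow_mul]
    congr 1
    omega

theorem S2_even (hn : p = 2 * n + 1) (h7 : p ≠ 7) {a : ℕ} (ha : n = 2 * a) {s : ZMod (p ^ 2)}
    (hs : 8 * s = 1) :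
    ∑ k ∈ range p, (Tv (half p) s k) ^ 3 * 8 ^ k = (u (half p) a) ^ 2 := by
  have h2 : p ≠ 2 := by omega
  obtain ⟨e, he, hq, hk, hH, hU⟩ := aval_data hn ha
  have hm := master hn (t := s) (s := 8) (by rw [mul_comm]; exact hs)
  have e1 : ((-1 : ZMod (p ^ 2)) ^ n) = 1 := by
    rw [ha, pow_mul]
    simp
  have hG := F18 hn hs
  have e8 : (2 ^ n : ZMod (p ^ 2)) ^ 3 = 8 ^ n := by
    rw [← pow_mul, mul_comm, pow_mul]
    norm_num
  have hw : s ^ n * (2 ^ n : ZMod (p ^ 2)) ^ 3 = 1 := by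
    rw [e8, ← mul_pow, mul_comm s 8, hs, one_pow]
  have e2 : s ^ p = (s ^ n) ^ 2 * s := by
    rw [← pow_mul, ← pow_succ, mul_comm n 2, ← hn]
  have e3 : s ^ (p - n) = s ^ n * s := by
    rw [← pow_succ]
    congr 1
    omega
  rw [F8 hn, f0_even hn ha, e1, hU, e2, e3] at hm
  have key := aval_alg2 (S := ∑ k ∈ range p, (Tv (half p) s k) ^ 3 * 8 ^ k) hs hw hq he hG hH
    (by linear_combination hm)
  have u14 : IsUnit (14 : ZMod (p ^ 2)) := by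
    have := aval_unit (m := 14) h2 h7 1 1 (by norm_num)
    exact_mod_cast this
  exact cancel_unit u14 key

theorem S1_even (hn : p = 2 * n + 1) (h7 : p ≠ 7) {a : ℕ} (ha : n = 2 * a) {s : ZMod (p ^ 2)}
    (hs : 8 * s = 1) :
    ∑ k ∈ range p, (Tv (half p) 8 k) ^ 3 * s ^ k = (-1) ^ a * (u (half p) a) ^ 2 := by
  have h2 : p ≠ 2 := by omega
  obtain ⟨e, he, hq, hk, hH, hU⟩ := aval_data hn ha
  have hm := master hn (t := 8) (s := s) hs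
  have e1 : ((-1 : ZMod (p ^ 2)) ^ n) = 1 := by
    rw [ha, pow_mul]
    simp
  have hG := F18 hn hs
  have e8 : (8 : ZMod (p ^ 2)) ^ n = (2 ^ n) ^ 3 := by
    rw [← pow_mul, mul_comm, pow_mul]
    norm_num
  have e2 : (8 : ZMod (p ^ 2)) ^ p = 8 * (2 ^ n) ^ 6 := by
    have : (8 : ZMod (p ^ 2)) ^ p = (8 ^ n) ^ 2 * 8 := by
      rw [← pow_mul, ← pow_succ, mul_comm n 2, ← hn]
    rw [this, e8]
    ring
  have e3 : (8 : ZMod (p ^ 2)) ^ (p - n) = 8 * (2 ^ n) ^ 3 := by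
    have : (8 : ZMod (p ^ 2)) ^ (p - n) = 8 ^ n * 8 := by
      rw [← pow_succ]
      congr 1
      omega
    rw [this, e8]
    ring
  rw [F8 hn, f0_even hn ha, e1, hU, e2, e3] at hm
  have key := aval_alg1 (S := ∑ k ∈ range p, (Tv (half p) 8 k) ^ 3 * s ^ k) hq he hG hH
    (by linear_combination hm)
  have u28 : IsUnit (28 : ZMod (p ^ 2)) := by
    have := aval_unit (m := 28) h2 h7 2 1 (by norm_num)
    exact_mod_cast this
  have k2 := cancel_unit u28 key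
  apply cancel_unit ((aval_two hn).pow n)
  rw [k2, ← hk]
  ring

end MPf96
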