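import Mathlib

/-!
# MP_f96d9d, question 1: definitions and basic facts

Everything happens in a commutative ring `R` with an element `h` with `2 * h = 1`; later
`R = ZMod (p ^ 2)` and `h = half p`. `u h j = C(2j,j)/4^j`, `Tp h k = ∑ u_j u_{k-j} X^j`.
-/

namespace MPf96

open Polynomial Finset

section ring

variable {R : Type*} [CommRing R]

/-- `u_j = C(2j,j) h^(2j)`, where `h` is meant to be `1/2`. -/
def u (h : R) (j : ℕ) : R := (Nat.centralBinom j : R) * h ^ (2 * j)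

/-- `T_k(t) = ∑_{j ≤ k} u_j u_{k-j} t^j` as a polynomial. -/
noncomputable def Tp (h : R) (k : ℕ) : R[X] :=
  ∑ j ∈ range (k + 1), C (u h j * u h (k - j)) * X ^ j

/-- The value `T_k(t)`. -/
def Tv (h t : R) (k : ℕ) : R := ∑ j ∈ range (k + 1), u h j * u h (k - j) * t ^ j

/-- `P(t) = ∑_{k<p} T_k(t)^3 t^(p-1-k)`. -/
noncomputable def PP (h : R) (p : ℕ) : R[X] := ∑ k ∈ range p, (Tp h k) ^ 3 * X ^ (p - 1 - k)

/-- `Y(t) = (1-t) P(t)`. -/
noncomputable def YY (h : R) (p : ℕ) : R[X] := (1 - X) * PP h p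

theorem u_zero (h : R) : u h 0 = 1 := by simp [u]

theorem u_succ {h : R} (hh : 2 * h = 1) (j : ℕ) :
    2 * ((j : R) + 1) * u h (j + 1) = (2 * (j : R) + 1) * u h j := by
  have key : ((j + 1 : ℕ) : R) * (Nat.centralBinom (j + 1) : R) =
      ((2 * (2 * j + 1) : ℕ) : R) * (Nat.centralBinom j : R) := by
    have := Nat.succ_mul_centralBinom_succ j
    have h2 : (((j + 1) * Nat.centralBinom (j + 1) : ℕ) : R) =
      ((2 * (2 * j + 1) * Nat.centralBinom j : ℕ) : R) := by rw [this]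
    push_cast at h2 ⊢
    linear_combination h2
  unfold u
  push_cast at key
  have e : h ^ (2 * (j + 1)) = h ^ 2 * h ^ (2 * j) := by ring
  rw [e]
  linear_combination (2 * h ^ 2 * h ^ (2 * j)) * key +
    (2 * (j : R) + 1) * (Nat.centralBinom j : R) * h ^ (2 * j) * (2 * h + 1) * hh

theorem coeff_Tp (h : R) (k j : ℕ) :
    (Tp h k).coeff j = if j ≤ k then u h j * u h (k - j) else 0 := by
  unfold Tp
  simp only [finset_sum_coeff, coeff_C_mul, coeff_X_pow]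
  by_cases hj : j ≤ k
  · rw [Finset.sum_eq_single j]
    · simp [hj]
    · intro b _ hb
      simp [Ne.symm hb]
    · intro hb
      exact absurd (Finset.mem_range.2 (by omega)) hb
  · rw [if_neg hj]
    apply Finset.sum_eq_zero
    intro b hb
    have : b ≠ j := by
      have := Finset.mem_range.1 hb
      omega
    simp [Ne.symm this]

theorem eval_Tp (h t : R) (k : ℕ) : (Tp h k).eval t = Tv h t k := by
  unfold Tp Tv
  simp [eval_finset_sum]

theorem Tp_zero (h : R) : Tp h 0 = 1 := by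
  unfold Tp
  simp [u_zero]

theorem coeff_theta (f : R[X]) (m : ℕ) :
    (X * derivative f).coeff m = (m : R) * f.coeff m := by
  cases m with
  | zero => simp
  | succ m =>
    rw [coeff_X_mul, coeff_derivative]
    push_cast
    ring

end ring

section mod

/-- `1/2` in `ZMod (p^2)`. -/
def half (p : ℕ) : ZMod (p ^ 2) := (2 : ZMod (p ^ 2))⁻¹

/-- `η = 2^(p-1) - 1` in `ZMod (p^2)`. -/
def eta (p : ℕ) : ZMod (p ^ 2) := 2 ^ (p - 1) - 1

/-- The harmonic sum `∑_{i=1}^m 1/i` in `ZMod (p^2)` (used for `m < p` only). -/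
def Hs (p m : ℕ) : ZMod (p ^ 2) := ∑ i ∈ range m, ((i + 1 : ℕ) : ZMod (p ^ 2))⁻¹

/-- `F(x) = ∑_{j ≤ n} u_j^3 (-x)^j` in `ZMod (p^2)`. -/
def FF (p n : ℕ) (x : ZMod (p ^ 2)) : ZMod (p ^ 2) :=
  ∑ j ∈ range (n + 1), (u (half p) j) ^ 3 * (-x) ^ j

/-- `f_0 = ∑_{j ≤ n} (-1)^j u_j^2`. -/
def f0 (p n : ℕ) : ZMod (p ^ 2) := ∑ j ∈ range (n + 1), (-1) ^ j * (u (half p) j) ^ 2

/-- `h_0 = ∑_{j ≤ n} C(n,j) u_j`. -/
def h0 (p n : ℕ) : ZMod (p ^ 2) := ∑ j ∈ range (n + 1), (n.choose j : ZMod (p ^ 2)) * u (half p) j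

variable {p : ℕ} [hp : Fact p.Prime]

theorem p_sq : (p : ZMod (p ^ 2)) ^ 2 = 0 := by
  have : ((p ^ 2 : ℕ) : ZMod (p ^ 2)) = 0 := ZMod.natCast_self _
  exact_mod_cast this

theorem unit_nat {m : ℕ} (hm : ¬ p ∣ m) : IsUnit (m : ZMod (p ^ 2)) := by
  rw [ZMod.isUnit_iff_coprime]
  exact Nat.Coprime.pow_right 2 ((Nat.Prime.coprime_iff_not_dvd hp.out).2 hm).symm

theorem unit_int {m : ℤ} (hm : ¬ (p : ℤ) ∣ m) : IsUnit (m : ZMod (p ^ 2)) := by
  have h1 : ¬ p ∣ m.natAbs := by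
    intro h
    exact hm (Int.natCast_dvd.2 h)
  have h2 := unit_nat h1
  rcases Int.natAbs_eq m with h | h
  · rw [h]
    simpa using h2
  · rw [h]
    push_cast
    simpa using h2.neg

theorem mul_inv_nat {m : ℕ} (hm : ¬ p ∣ m) :
    (m : ZMod (p ^ 2)) * (m : ZMod (p ^ 2))⁻¹ = 1 :=
  ZMod.mul_inv_of_unit _ (unit_nat hm)

theorem not_dvd_of_lt {m : ℕ} (h0 : 0 < m) (h1 : m < p) : ¬ p ∣ m :=
  fun h => absurd (Nat.le_of_dvd h0 h) (by omega)

theorem two_half (h2 : p ≠ 2) : 2 * half p = 1 := by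
  have h : ¬ p ∣ 2 := by
    intro h
    have := (Nat.prime_dvd_prime_iff_eq hp.out Nat.prime_two).1 h
    exact h2 this
  have := mul_inv_nat (p := p) h
  exact_mod_cast this

/-- An element of `ZMod (p^2)` that vanishes modulo `p` is a multiple of `p`. -/
theorem eq_p_mul_of_cast_zero {x : ZMod (p ^ 2)}
    (hx : (ZMod.castHom (Dvd.intro_left (p ^ 1) (by ring) : p ∣ p ^ 2) (ZMod p)) x = 0) :
    ∃ z, x = (p : ZMod (p ^ 2)) * z := by
  have : NeZero (p ^ 2) := ⟨pow_ne_zero 2 hp.out.ne_zero⟩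
  obtain ⟨m, rfl⟩ : ∃ m : ℕ, (m : ZMod (p ^ 2)) = x := ⟨x.val, ZMod.natCast_zmod_val x⟩
  rw [map_natCast] at hx
  have := (ZMod.natCast_eq_zero_iff m p).1 hx
  obtain ⟨z, rfl⟩ := this
  exact ⟨z, by push_cast; ring⟩

/-- `ab = 0` and `a` a unit give `b = 0` (convenience). -/
theorem eq_zero_of_unit_mul {R : Type*} [CommRing R] {a b : R} (ha : IsUnit a) (h : a * b = 0) :
    b = 0 := by
  obtain ⟨v, rfl⟩ := ha
  have := congrArg (fun x => (↑v⁻¹ : R) * x) h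
  simpa [← mul_assoc] using this

theorem cancel_unit {R : Type*} [CommRing R] {a b c : R} (ha : IsUnit a) (h : a * b = a * c) :
    b = c := ha.mul_left_cancel h

end mod

end MPf96
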