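import Pool.Agent.H.MP_f96d9d_nt.Omega

/-!
# The quartic Jacobi sum modulo `p^2`

`p = 4a+1`. `jj = ∑_x om(x)^(3a) ρ(1-x)`, `ρ` the quadratic character (values in
`ZMod (p^2)`).
* `rho_eq`: `2 ρ(1-x) = 3 (1 - om x)^(2a) - (1 - om x)^(6a)` for every `x`. If `x = 1` both sides
  are 0 (`a > 0`). Otherwise put `v = 1 - om x`, `red v = 1 - x ≠ 0`; by Euler's criterion
  (`quadraticChar_eq_pow_of_char_ne_two'` or `legendreSym.eq_pow`, `2a = (p-1)/2`)
  `red (v^(2a)) = (1-x)^(2a) = ρ(1-x)`, so `v^(2a) = ρ + p z` (`eq_of_red_zero`), `ρ^2 = 1`,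
  `v^(6a) = (ρ + pz)^3 = ρ^3 + 3 ρ^2 p z = ρ + 3 p z` (`p^2 = 0`), and
  `3 v^(2a) - v^(6a) = 2 ρ`.
* Expand `(1 - om x)^(2a) = ∑_k C(2a,k) (-1)^k om(x)^k` and sum over `x` with `sum_om_pow`
  (exponents `3a + k > 0`): for `0 ≤ k ≤ 2a`, `p - 1 = 4a ∣ 3a + k` iff `k = a`; for
  `0 ≤ k ≤ 6a` iff `k = a` or `k = 5a`. So
  `2 jj = 3 (-1)^a C(2a,a) (p-1) - ((-1)^a C(6a,a) + (-1)^(5a) C(6a,5a)) (p-1)
       = (-1)^a (p-1) (3 C(2a,a) - 2 C(6a,a))`.
-/

namespace MPf96

open Finset

variable {p : ℕ} [hp : Fact p.Prime]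

/-- the quadratic character with values in `ZMod (p^2)` -/
def rho (p : ℕ) [Fact p.Prime] (x : ZMod p) : ZMod (p ^ 2) :=
  ((quadraticChar (ZMod p) x : ℤ) : ZMod (p ^ 2))

/-- `∑_x om(x)^(3a) ρ(1-x)` -/
def jj (p a : ℕ) [Fact p.Prime] : ZMod (p ^ 2) :=
  ∑ x : ZMod p, om p x ^ (3 * a) * rho p (1 - x)

private theorem charsum_pos {a : ℕ} (h : p = 4 * a + 1) : 0 < a := by
  have := hp.out.two_le
  omega

private theorem charsum_psq : (p : ZMod (p ^ 2)) ^ 2 = 0 := by
  have h : ((p ^ 2 : ℕ) : ZMod (p ^ 2)) = 0 := ZMod.natCast_self _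
  rw [← h]
  push_cast
  ring

theorem rho_eq {a : ℕ} (h : p = 4 * a + 1) (x : ZMod p) :
    2 * rho p (1 - x) = 3 * (1 - om p x) ^ (2 * a) - (1 - om p x) ^ (6 * a) := by
  have ha := charsum_pos h
  by_cases hx : x = 1
  · subst hx
    have e1 : rho p (1 - 1) = 0 := by
      unfold rho
      simp
    rw [e1, om_one, sub_self, zero_pow (by omega), zero_pow (by omega)]
    simp
  · have hx' : (1 : ZMod p) - x ≠ 0 := sub_ne_zero.2 (Ne.symm hx)
    have hchar : ringChar (ZMod p) ≠ 2 := by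
      rw [ZMod.ringChar_zmod_n]
      omega
    have hq : ((quadraticChar (ZMod p) (1 - x) : ℤ) : ZMod p) = (1 - x) ^ (2 * a) := by
      rw [quadraticChar_eq_pow_of_char_ne_two' hchar, ZMod.card]
      congr 1
      omega
    have hred : red p ((1 - om p x) ^ (2 * a) - rho p (1 - x)) = 0 := by
      rw [map_sub, map_pow, map_sub, map_one, red_om]
      unfold rho
      rw [map_intCast, hq, sub_self]
    obtain ⟨z, hz⟩ := eq_of_red_zero hred
    have hsq : rho p (1 - x) ^ 2 = 1 := by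
      unfold rho
      have := quadraticChar_sq_one hx'
      rw [← Int.cast_pow, this, Int.cast_one]
    have h1 : (1 - om p x) ^ (2 * a) = rho p (1 - x) + p * z := by
      rw [← hz]
      ring
    have h2 : (1 - om p x) ^ (6 * a) = (rho p (1 - x) + p * z) ^ 3 := by
      rw [← h1, ← pow_mul]
      congr 1
      ring
    have hp2 : (p : ZMod (p ^ 2)) ^ 2 = 0 := charsum_psq
    rw [h2, h1]
    linear_combination (rho p (1 - x) + 3 * p * z) * hsq +
      (3 * rho p (1 - x) * z ^ 2 + p * z ^ 3) * hp2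

private theorem charsum_expand {a : ℕ} (ha : 0 < a) (m : ℕ) :
    ∑ x : ZMod p, om p x ^ (3 * a) * (1 - om p x) ^ m =
      ∑ k ∈ range (m + 1), (-1 : ZMod (p ^ 2)) ^ k * (m.choose k : ZMod (p ^ 2)) *
        (if (p - 1) ∣ 3 * a + k then ((p : ZMod (p ^ 2)) - 1) else 0) := by
  have e : ∀ x : ZMod p, om p x ^ (3 * a) * (1 - om p x) ^ m =
      ∑ k ∈ range (m + 1), (-1 : ZMod (p ^ 2)) ^ k * (m.choose k : ZMod (p ^ 2)) *
        om p x ^ (3 * a + k) := by
    intro x
    have : (1 - om p x) = (-om p x + 1) := by ring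
    rw [this, add_pow, Finset.mul_sum]
    apply Finset.sum_congr rfl
    intro k _
    rw [one_pow, neg_pow, pow_add]
    ring
  simp only [e]
  rw [Finset.sum_comm]
  apply Finset.sum_congr rfl
  intro k _
  rw [← Finset.mul_sum, sum_om_pow (by omega)]

theorem jj_eq {a : ℕ} (h : p = 4 * a + 1) :
    2 * jj p a = (-1) ^ a * ((p : ZMod (p ^ 2)) - 1) *
      (3 * ((2 * a).choose a : ZMod (p ^ 2)) - 2 * ((6 * a).choose a : ZMod (p ^ 2))) := by
  have ha := charsum_pos h
  have hp1 : p - 1 = 4 * a := by omega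
  have e1 : 2 * jj p a = 3 * ∑ x : ZMod p, om p x ^ (3 * a) * (1 - om p x) ^ (2 * a) -
      ∑ x : ZMod p, om p x ^ (3 * a) * (1 - om p x) ^ (6 * a) := by
    unfold jj
    rw [Finset.mul_sum, Finset.mul_sum, ← Finset.sum_sub_distrib]
    apply Finset.sum_congr rfl
    intro x _
    have := rho_eq h x
    linear_combination (om p x ^ (3 * a)) * this
  have e2 : ∑ x : ZMod p, om p x ^ (3 * a) * (1 - om p x) ^ (2 * a) =
      (-1) ^ a * ((2 * a).choose a : ZMod (p ^ 2)) * ((p : ZMod (p ^ 2)) - 1) := by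
    rw [charsum_expand ha, hp1]
    rw [Finset.sum_eq_single a]
    · rw [if_pos]
      exact ⟨1, by ring⟩
    · intro k hk hka
      have hk' := Finset.mem_range.1 hk
      rw [if_neg, mul_zero]
      rintro ⟨c, hc⟩
      have hc1 : c = 1 := by
        have h1 : 0 < c := by
          rcases Nat.eq_zero_or_pos c with h0 | h0
          · subst h0
            omega
          · exact h0
        have h2 : c < 2 := by
          by_contra hcon
          have : 4 * a * 2 ≤ 4 * a * c := Nat.mul_le_mul_left _ (by omega)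
          omega
        omega
      subst hc1
      omega
    · intro hn
      exact absurd (Finset.mem_range.2 (by omega)) hn
  have e3 : ∑ x : ZMod p, om p x ^ (3 * a) * (1 - om p x) ^ (6 * a) =
      (-1) ^ a * ((6 * a).choose a : ZMod (p ^ 2)) * ((p : ZMod (p ^ 2)) - 1) +
      (-1) ^ (5 * a) * ((6 * a).choose (5 * a) : ZMod (p ^ 2)) * ((p : ZMod (p ^ 2)) - 1) := by
    rw [charsum_expand ha, hp1]
    have hsub : ({a, 5 * a} : Finset ℕ) ⊆ range (6 * a + 1) := by
      intro k hk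
      rw [Finset.mem_insert, Finset.mem_singleton] at hk
      rw [Finset.mem_range]
      omega
    rw [← Finset.sum_subset hsub]
    · rw [Finset.sum_pair (by omega)]
      rw [if_pos ⟨1, by ring⟩, if_pos ⟨2, by ring⟩]
    · intro k hk hka
      have hk' := Finset.mem_range.1 hk
      rw [Finset.mem_insert, Finset.mem_singleton, not_or] at hka
      rw [if_neg, mul_zero]
      rintro ⟨c, hc⟩
      have h1 : 0 < c := by
        rcases Nat.eq_zero_or_pos c with h0 | h0
        · subst h0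
          omega
        · exact h0
      have h2 : c < 3 := by
        by_contra hcon
        have : 4 * a * 3 ≤ 4 * a * c := Nat.mul_le_mul_left _ (by omega)
        omega
      have h3 : c = 1 ∨ c = 2 := by omega
      rcases h3 with h3 | h3
      · subst h3
        omega
      · subst h3
        omega
  have e4 : (6 * a).choose (5 * a) = (6 * a).choose a := by
    have : 5 * a = 6 * a - a := by omega
    rw [this, Nat.choose_symm (by omega)]
  have e5 : (-1 : ZMod (p ^ 2)) ^ (5 * a) = (-1) ^ a := by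
    have : 5 * a = 2 * (2 * a) + a := by omega
    rw [this, pow_add, pow_mul]
    simp
  rw [e1, e2, e3, e4, e5]
  ring

end MPf96
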