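import Pool.Agent.H.MP_f96d9d_nt.Harm
import Pool.Agent.H.MP_f96d9d_nt.CharSum

/-!
# Evaluation of the binomials

`p = 4a+1`, `n = 2a`, `p = 2n+1`.
* `choose6`: for `i ≤ a`: `C(6a,i) = C(2a-1,i) (1 + p (Hs(2a-1) - Hs(2a-1-i)))` in `ZMod (p^2)`
  (`6a = p + 2a - 1`). Induction on `i`: `(i+1) C(6a,i+1) = (6a-i) C(6a,i)` and
  `(i+1) C(2a-1,i+1) = (2a-1-i) C(2a-1,i)`, `6a - i = p + m` with `m = 2a-1-i` (`1 ≤ m < p`), and
  `p + m = m (1 + p/m)`, `Hs m = Hs (m-1) + 1/m`; `i+1` is a unit; `p^2 = 0`.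
* At `i = a`: `2 C(2a-1,a) = C(2a,a)` and `Hs(2a) = Hs(2a-1) + 1/(2a)`, `Hs a = Hs(a-1) + 1/a`:
  `p (Hs(2a-1) - Hs(a-1)) = p(Hs(2a) - Hs a) - p/(2a) + p/a = eta + p/(2a)` (`H2`,
  `1/a = 2 (1/(2a))`), and `p/(2a) = -2p` since `2a·(-2) = -(p-1)`, `p(p-1)... = -p`:
  i.e. `p (2a)⁻¹ = -2p` because `(2a)(-2) = 1 - p`. So
  `2 C(6a,a) = C(2a,a) (1 + eta - 2p)` (`choose6a`).
* `j_sq`: `2 jj = (-1)^a (p-1) C(2a,a) (3 - 1 - eta + 2p) = (-1)^(a+1) (1-p)(2+2p-eta) C(2a,a)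
  = (-1)^(a+1) (2 - eta) C(2a,a)` (`p^2 = 0`, `p eta = 0`), so `4 jj^2 = (4 - 4 eta) C(2a,a)^2`
  (`eta^2 = 0`), `jj^2 = (1-eta) C(2a,a)^2`; with `C(2a,a) = 4^a u_a`, `16^a = 2^(p-1) = 1 + eta`:
  `jj^2 = (1-eta)(1+eta) u_a^2 = u_a^2`.
-/

namespace MPf96

open Finset

variable {p : ℕ} [hp : Fact p.Prime]

theorem binomj_Hs_succ {m : ℕ} (hm : 0 < m) :
    Hs p m = Hs p (m - 1) + (m : ZMod (p ^ 2))⁻¹ := by
  obtain ⟨k, rfl⟩ : ∃ k, m = k + 1 := ⟨m - 1, by omega⟩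
  unfold Hs
  rw [Finset.sum_range_succ]
  simp

theorem choose6 {a : ℕ} (h : p = 4 * a + 1) {i : ℕ} (hi : i ≤ a) :
    ((6 * a).choose i : ZMod (p ^ 2)) =
      ((2 * a - 1).choose i : ZMod (p ^ 2)) * (1 + p * (Hs p (2 * a - 1) - Hs p (2 * a - 1 - i))) := by
  induction i with
  | zero => simp
  | succ i ih =>
    have ih' := ih (by omega)
    have hmpos : 0 < 2 * a - 1 - i := by omega
    have hmlt : 2 * a - 1 - i < p := by omega
    have e1 : ((6 * a).choose (i + 1) : ZMod (p ^ 2)) * ((i : ZMod (p ^ 2)) + 1) =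
        ((6 * a).choose i : ZMod (p ^ 2)) * ((p : ZMod (p ^ 2)) + ((2 * a - 1 - i : ℕ) : ZMod (p ^ 2))) := by
      have := Nat.choose_succ_right_eq (6 * a) i
      have e : 6 * a - i = p + (2 * a - 1 - i) := by omega
      rw [e] at this
      exact_mod_cast congrArg (fun z : ℕ => (z : ZMod (p ^ 2))) this
    have e2 : ((2 * a - 1).choose (i + 1) : ZMod (p ^ 2)) * ((i : ZMod (p ^ 2)) + 1) =
        ((2 * a - 1).choose i : ZMod (p ^ 2)) * ((2 * a - 1 - i : ℕ) : ZMod (p ^ 2)) := by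
      have := Nat.choose_succ_right_eq (2 * a - 1) i
      exact_mod_cast congrArg (fun z : ℕ => (z : ZMod (p ^ 2))) this
    have e3 : Hs p (2 * a - 1 - i) = Hs p (2 * a - 1 - (i + 1)) +
        ((2 * a - 1 - i : ℕ) : ZMod (p ^ 2))⁻¹ := by
      have := binomj_Hs_succ (p := p) hmpos
      rw [this]
      congr 1
    have e4 : ((2 * a - 1 - i : ℕ) : ZMod (p ^ 2)) * ((2 * a - 1 - i : ℕ) : ZMod (p ^ 2))⁻¹ = 1 :=
      mul_inv_nat (not_dvd_of_lt hmpos hmlt)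
    have hu : IsUnit ((i : ZMod (p ^ 2)) + 1) := by
      have : IsUnit ((i + 1 : ℕ) : ZMod (p ^ 2)) := unit_nat (not_dvd_of_lt (by omega) (by omega))
      exact_mod_cast this
    have e5 := p_sq (p := p)
    rw [e3] at ih'
    generalize ((2 * a - 1 - i : ℕ) : ZMod (p ^ 2)) = m at *
    generalize Hs p (2 * a - 1 - (i + 1)) = H' at *
    generalize Hs p (2 * a - 1) = H'' at *
    apply cancel_unit hu
    linear_combination e1 + ((p : ZMod (p ^ 2)) + m) * ih'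
      - (1 + (p : ZMod (p ^ 2)) * (H'' - H')) * e2
      - ((2 * a - 1).choose i : ZMod (p ^ 2)) * (p : ZMod (p ^ 2)) * e4
      + ((2 * a - 1).choose i : ZMod (p ^ 2)) * (H'' - H' - m⁻¹) * e5

theorem choose6a {a : ℕ} (h : p = 4 * a + 1) :
    2 * ((6 * a).choose a : ZMod (p ^ 2)) =
      ((2 * a).choose a : ZMod (p ^ 2)) * (1 + eta p - 2 * p) := by
  have hp1 := hp.out.one_lt
  have ha : 0 < a := by omega
  have h1 := choose6 h (le_refl a)
  have e0 : 2 * a - 1 - a = a - 1 := by omega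
  rw [e0] at h1
  have h2 := H2 (p := p) (n := 2 * a) (by omega) rfl
  have h3 := binomj_Hs_succ (p := p) (m := 2 * a) (by omega)
  have h4 := binomj_Hs_succ (p := p) ha
  rw [h3, h4] at h2
  have u1 : ((2 * a : ℕ) : ZMod (p ^ 2)) * ((2 * a : ℕ) : ZMod (p ^ 2))⁻¹ = 1 :=
    mul_inv_nat (not_dvd_of_lt (by omega) (by omega))
  have u2 : (a : ZMod (p ^ 2)) * (a : ZMod (p ^ 2))⁻¹ = 1 :=
    mul_inv_nat (not_dvd_of_lt (by omega) (by omega))
  have e5 := p_sq (p := p)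
  have hpa : (p : ZMod (p ^ 2)) = 4 * (a : ZMod (p ^ 2)) + 1 := by
    have := congrArg (fun z : ℕ => (z : ZMod (p ^ 2))) h
    push_cast at this
    exact this
  have v1 : (p : ZMod (p ^ 2)) * ((2 * a : ℕ) : ZMod (p ^ 2))⁻¹ = -2 * p := by
    generalize ((2 * a : ℕ) : ZMod (p ^ 2))⁻¹ = w at *
    push_cast at u1
    linear_combination w * e5 - 2 * (p : ZMod (p ^ 2)) * u1 -
      (p : ZMod (p ^ 2)) * w * hpa
  have v2 : (p : ZMod (p ^ 2)) * (a : ZMod (p ^ 2))⁻¹ = -4 * p := by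
    generalize (a : ZMod (p ^ 2))⁻¹ = w at *
    linear_combination w * e5 - 4 * (p : ZMod (p ^ 2)) * u2 -
      (p : ZMod (p ^ 2)) * w * hpa
  have h5 : 2 * ((2 * a - 1).choose a : ZMod (p ^ 2)) = ((2 * a).choose a : ZMod (p ^ 2)) := by
    have e : (2 * a).choose a = 2 * (2 * a - 1).choose a := by
      obtain ⟨b, rfl⟩ : ∃ b, a = b + 1 := ⟨a - 1, by omega⟩
      have e1 : 2 * (b + 1) = (2 * b + 1) + 1 := by ring
      have e2 : 2 * (b + 1) - 1 = 2 * b + 1 := by omega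
      rw [e2, e1, Nat.choose_succ_succ, Nat.choose_symm_half b]
      ring
    rw [e]
    push_cast
    ring
  rw [h1]
  generalize Hs p (2 * a - 1) = X at *
  generalize Hs p (a - 1) = Y at *
  generalize ((2 * a : ℕ) : ZMod (p ^ 2))⁻¹ = w1 at *
  generalize (a : ZMod (p ^ 2))⁻¹ = w2 at *
  linear_combination (1 + (p : ZMod (p ^ 2)) * (X - Y)) * h5 +
    ((2 * a).choose a : ZMod (p ^ 2)) * (h2 - v1 + v2)

theorem j_sq {a : ℕ} (h : p = 4 * a + 1) : (jj p a) ^ 2 = (u (half p) a) ^ 2 := by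
  have hp1 := hp.out.one_lt
  have hj := jj_eq h
  have hc := choose6a h
  have e5 := p_sq (p := p)
  have h1 := eta_sq (p := p) (n := 2 * a) (by omega)
  have h2 := p_eta (p := p) (n := 2 * a) (by omega)
  have hs : ((-1 : ZMod (p ^ 2)) ^ a) ^ 2 = 1 := by
    rw [← pow_mul, mul_comm, pow_mul]
    simp
  have hh := two_half (p := p) (by omega)
  have hC : ((2 * a).choose a : ZMod (p ^ 2)) = 2 ^ (2 * a) * u (half p) a := by
    unfold u
    rw [Nat.centralBinom_eq_two_mul_choose]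
    have : (2 : ZMod (p ^ 2)) ^ (2 * a) * half p ^ (2 * a) = 1 := by
      rw [← mul_pow, hh, one_pow]
    linear_combination (-((2 * a).choose a : ZMod (p ^ 2))) * this
  have hE : ((2 : ZMod (p ^ 2)) ^ (2 * a)) ^ 2 = 1 + eta p := by
    unfold eta
    rw [← pow_mul, h]
    have : 4 * a + 1 - 1 = 2 * a * 2 := by omega
    rw [this]
    ring
  have u2 : IsUnit (2 : ZMod (p ^ 2)) := by
    have h2 : p ≠ 2 := by omega
    have : ¬ p ∣ 2 := fun h => h2 ((Nat.prime_dvd_prime_iff_eq hp.out Nat.prime_two).1 h)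
    have := unit_nat this
    exact_mod_cast this
  have k1 : 2 * jj p a = (-1) ^ a * (((p : ZMod (p ^ 2)) - 1) *
      (2 ^ (2 * a) * u (half p) a) * (2 - eta p + 2 * p)) := by
    rw [← hC]
    linear_combination hj - (-1) ^ a * ((p : ZMod (p ^ 2)) - 1) * hc
  have k2 : 2 ^ 2 * (jj p a) ^ 2 = 2 ^ 2 * (u (half p) a) ^ 2 := by
    have e : 2 ^ 2 * (jj p a) ^ 2 = (2 * jj p a) ^ 2 := by ring
    rw [e, k1]
    generalize ((-1 : ZMod (p ^ 2)) ^ a) = ε at *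
    generalize (2 : ZMod (p ^ 2)) ^ (2 * a) = q at *
    generalize eta p = η at *
    generalize (p : ZMod (p ^ 2)) = P at *
    generalize u (half p) a = v at *
    have a1 : (P - 1) ^ 2 * (2 - η + 2 * P) ^ 2 = 4 - 4 * η := by
      linear_combination (-12 + 8 * η - 8 * P + (2 - η + 2 * P) ^ 2) * e5 +
        (4 - 2 * η) * h2 + h1
    have a2 : (ε * ((P - 1) * (q * v) * (2 - η + 2 * P))) ^ 2 =
        ε ^ 2 * q ^ 2 * v ^ 2 * ((P - 1) ^ 2 * (2 - η + 2 * P) ^ 2) := by ring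
    rw [a2, a1, hs, hE]
    linear_combination (-4 * v ^ 2) * h1
  exact cancel_unit (u2.pow 2) k2

end MPf96
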