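import Pool.Agent.H.MP_f96d9d_nt.TeleA
import Pool.Agent.H.MP_f96d9d_nt.Rev

/-!
# The vanishing coefficients of `Y` modulo `p^2`

`p = 2n+1` prime, `Y_m = (YY (half p) p).coeff m` in `ZMod (p^2)`. The recurrence (`Y_rec`):
`(2(m+1)+1-2p)^3 Y_{m+1} + 8 (m+1-p)^3 Y_m = 0`, and (`Y_rec0`) `(1-2p)^3 Y_0 = 0`. The integer
`2(m+1)+1-2p` is prime to `p` unless `m+1 = n, n+p, n+2p, ...`; `m+1-p` is prime to `p` unless
`p ∣ m+1` (then the term vanishes, since `p^2 = 0`). Use `unit_int` with integer casts.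
* `Y_low`: `Y_0 = 0` (if `0 < n`), then upwards for `m+1 < n`.
* `Y_mid`: at `m+1 = p` the second term is 0 and the first factor is `(2p+1-2p)^3 = 1`, so
  `Y_p = 0`; then upwards while `m+1 < p + n`.
* `Y_high`: `Y_m = 0` for `m ≥ 3p-1` (degree: `T_k` has degree `≤ k`, so `T_k^3 X^(p-1-k)` has
  degree `≤ p-1+2k ≤ 3p-3`, `Y` has degree `≤ 3p-2`). Then downwards: for `2p ≤ m ≤ 3p-2` the
  factor `8 (m+1-p)^3` is a unit (`p+1 ≤ m+1-p ≤ 2p-1`) and `Y_{m+1} = 0`, so `Y_m = 0`.
-/

namespace MPf96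

open Polynomial Finset

variable {p n : ℕ} [hp : Fact p.Prime]

omit hp in
theorem blocka_ne (hn : p = 2 * n + 1) : p ≠ 2 := by omega

/-- one step upwards -/
theorem blocka_up (hn : p = 2 * n + 1) {m : ℕ} (hd : ¬ (p : ℤ) ∣ 2 * ((m : ℤ) + 1) + 1 - 2 * p)
    (h0 : 8 * ((m : ZMod (p ^ 2)) + 1 - p) ^ 3 * (YY (half p) p).coeff m = 0) :
    (YY (half p) p).coeff (m + 1) = 0 := by
  have h1 := Y_rec (two_half (blocka_ne hn)) hp.out.pos (p_sq (p := p)) m
  rw [h0, add_zero] at h1
  have h2 := unit_int hd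
  push_cast at h2
  exact eq_zero_of_unit_mul (h2.pow 3) h1

theorem Y_low (hn : p = 2 * n + 1) {m : ℕ} (hm : m < n) : (YY (half p) p).coeff m = 0 := by
  induction m with
  | zero =>
    have h1 := Y_rec0 (two_half (blocka_ne hn)) hp.out.pos (p_sq (p := p))
    have h2 : ¬ (p : ℤ) ∣ 1 - 2 * (p : ℤ) := by
      intro h
      have h3 : (p : ℤ) ∣ 1 := by
        have h4 := dvd_add h (Dvd.intro_left 2 rfl : (p : ℤ) ∣ 2 * p)
        rwa [sub_add_cancel] at h4
      have h5 := Int.le_of_dvd one_pos h3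
      omega
    have h3 := unit_int h2
    push_cast at h3
    exact eq_zero_of_unit_mul (h3.pow 3) h1
  | succ m ih =>
    refine blocka_up hn (fun h => ?_) (by rw [ih (by omega), mul_zero])
    have h4 := dvd_add h (Dvd.intro_left 2 rfl : (p : ℤ) ∣ 2 * p)
    rw [sub_add_cancel] at h4
    have h5 := Int.le_of_dvd (by positivity) h4
    omega

theorem Y_mid (hn : p = 2 * n + 1) {m : ℕ} (h1 : p ≤ m) (h2 : m < p + n) :
    (YY (half p) p).coeff m = 0 := by
  obtain ⟨i, rfl⟩ := Nat.exists_eq_add_of_le h1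
  clear h1
  induction i with
  | zero =>
    have hpos := hp.out.pos
    obtain ⟨q, hq⟩ : ∃ q, p = q + 1 := ⟨p - 1, by omega⟩
    have h3 : (YY (half p) p).coeff (q + 1) = 0 := by
      refine blocka_up hn (fun h => ?_) ?_
      · have h5 : 2 * ((q : ℤ) + 1) + 1 - 2 * p = 1 := by
          rw [hq]
          push_cast
          ring
        rw [h5] at h
        have h6 := Int.le_of_dvd one_pos h
        omega
      · have h5 : (q : ZMod (p ^ 2)) + 1 - p = 0 := by
          have h6 : ((p : ℕ) : ZMod (p ^ 2)) = ((q + 1 : ℕ) : ZMod (p ^ 2)) := congrArg _ hq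
          rw [h6]
          push_cast
          ring
        rw [h5]
        ring
    rw [add_zero]
    rwa [← hq] at h3
  | succ i ih =>
    have h3 := ih (by omega)
    rw [← add_assoc]
    refine blocka_up hn (fun h => ?_) (by rw [h3, mul_zero])
    have h5 : 2 * (((p + i : ℕ) : ℤ) + 1) + 1 - 2 * p = 2 * (i : ℤ) + 3 := by
      push_cast
      ring
    rw [h5] at h
    have h6 := Int.le_of_dvd (by positivity) h
    omega

/-- degree bound -/
theorem Y_deg (hn : p = 2 * n + 1) {m : ℕ} (h1 : 3 * p ≤ m + 1) :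
    (YY (half p) p).coeff m = 0 := by
  have hpos := hp.out.pos
  have hT : ∀ k, (Tp (half p) k).natDegree ≤ k := by
    intro k
    unfold Tp
    refine natDegree_sum_le_of_forall_le _ _ fun j hj => ?_
    exact (natDegree_C_mul_X_pow_le _ _).trans (by have := mem_range.1 hj; omega)
  have hP : (PP (half p) p).natDegree ≤ 3 * p - 3 := by
    unfold PP
    refine natDegree_sum_le_of_forall_le _ _ fun k hk => ?_
    have hk' := mem_range.1 hk
    refine natDegree_mul_le.trans ?_
    have h3 := natDegree_pow_le_of_le 3 (hT k)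
    have h4 := natDegree_X_pow_le (R := ZMod (p ^ 2)) (p - 1 - k)
    omega
  refine coeff_eq_zero_of_natDegree_lt ?_
  unfold YY
  refine (natDegree_mul_le.trans (Nat.add_le_add (b := 1) ?_ hP)).trans_lt (by omega)
  exact (natDegree_sub_le _ _).trans (by
    rw [natDegree_one]
    exact max_le (Nat.zero_le _) natDegree_X_le)

theorem Y_high (hn : p = 2 * n + 1) {m : ℕ} (h1 : 2 * p ≤ m) :
    (YY (half p) p).coeff m = 0 := by
  rcases le_or_gt (3 * p) (m + 1) with h2 | h2
  · exact Y_deg hn h2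
  have key : ∀ d m : ℕ, m + d + 1 = 3 * p → 2 * p ≤ m → (YY (half p) p).coeff m = 0 := by
    intro d
    induction d with
    | zero =>
      intro m hm _
      exact Y_deg hn (by omega)
    | succ d ih =>
      intro m hm hm2
      have h3 := ih (m + 1) (by omega) (by omega)
      have h4 := Y_rec (two_half (blocka_ne hn)) hp.out.pos (p_sq (p := p)) m
      rw [h3, mul_zero, zero_add] at h4
      have h5 : IsUnit (((m + 1 - p : ℕ) : ZMod (p ^ 2))) := by
        refine unit_nat fun h => ?_
        obtain ⟨c, hc⟩ := h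
        have h6 : c < 2 := by
          by_contra h7
          have h8 : p * 2 ≤ p * c := Nat.mul_le_mul_left p (by omega)
          omega
        have h9 : 1 < c := by
          by_contra h7
          have h8 : p * c ≤ p * 1 := Nat.mul_le_mul_left p (by omega)
          omega
        omega
      rw [Nat.cast_sub (by omega)] at h5
      push_cast at h5
      have h6 : IsUnit (8 : ZMod (p ^ 2)) := by
        have h7 : IsUnit (2 : ZMod (p ^ 2)) :=
          IsUnit.of_mul_eq_one (half p) (two_half (blocka_ne hn))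
        have h8 : (8 : ZMod (p ^ 2)) = 2 ^ 3 := by norm_num
        rw [h8]
        exact h7.pow 3
      exact eq_zero_of_unit_mul (h6.mul (h5.pow 3)) h4
  exact key (3 * p - 1 - m) m (by omega) h1

end MPf96
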