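import Pool.Agent.H.MP_f96d9d_nt.TeleA
import Pool.Agent.H.MP_f96d9d_nt.Rev

/-!
# The two chains of coefficients of `Y` modulo `p^2`

`p = 2n+1` prime, `Y_m = (YY (half p) p).coeff m` in `ZMod (p^2)`. The recurrence (`Y_rec`):
`(2(m+1)+1-2p)^3 Y_{m+1} + 8 (m+1-p)^3 Y_m = 0`.
* `Y_chain1`, induction on `j`: for `j < n` take `m + 1 = p-1-j`: the recurrence is
  `(-(2j+1))^3 Y_{p-1-j} + 8 (-(j+1))^3 Y_{p-1-(j+1)} = 0` [`2(p-1-j)+1-2p = -(2j+1)`], so
  `8 (j+1)^3 Y_{p-1-(j+1)} = -(2j+1)^3 Y_{p-1-j}`, and `(2(j+1))^3 u_{j+1}^3 = (2j+1)^3 u_j^3`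
  (`u_succ`); `2(j+1) < p` is a unit.
* `Y_chain2`: first prove `Y_{2p-1-j} = Y_{2p-1} (-1)^j u_j^3 (1 - 6 p E_j)` for `j ≤ n` by
  induction: with `m+1 = 2p-1-j`, `s = 2j+1`, `r = 2j+2`: `2(m+1)+1-2p = 2p - s`,
  `2(m+1-p) = 2p - r`: `(2p-s)^3 Y_{2p-1-j} + (2p-r)^3 Y_{2p-1-(j+1)} = 0`, and since `p^2 = 0`
  `(2p-s)^3 = -s^3 + 6 p s^2`, `(2p-r)^3 = -r^3 + 6 p r^2`. So (units `r`, `s`)
  `Y_{2p-1-(j+1)} (1 - 6p/r) = -(s/r)^3 (1 - 6p/s) Y_{2p-1-j}`, and multiply by `1 + 6p/r`; note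
  `(s/r)^3 u_j^3 = u_{j+1}^3` and `E_{j+1} = E_j + 1/s - 1/r`. Then with `u_rev`:
  `u_{n-j}^3 = U^3 u_j^3 (1 - 3pE_j)`, so `2 u_{n-j}^3 - U^3 u_j^3 = U^3 u_j^3 (1 - 6pE_j)`.
-/

namespace MPf96

open Polynomial Finset

variable {p n : ℕ} [hp : Fact p.Prime]

private theorem blockb_two (hn : p = 2 * n + 1) : p ≠ 2 := by
  intro h
  omega

private theorem blockb_pos (hn : p = 2 * n + 1) : 0 < p := by
  omega

theorem Y_chain1 (hn : p = 2 * n + 1) {j : ℕ} (hj : j ≤ n) :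
    (YY (half p) p).coeff (p - 1 - j) =
      (YY (half p) p).coeff (p - 1) * (-1) ^ j * (u (half p) j) ^ 3 := by
  induction j with
  | zero => simp [u_zero]
  | succ j ih =>
    have ih' := ih (by omega)
    have hh : 2 * half p = 1 := two_half (blockb_two hn)
    obtain ⟨m, hm⟩ : ∃ m, m + j + 2 = p := ⟨p - (j + 2), by omega⟩
    have e1 : p - 1 - (j + 1) = m := by omega
    have e2 : p - 1 - j = m + 1 := by omega
    have hc : (m : ZMod (p ^ 2)) = (p : ZMod (p ^ 2)) - j - 2 := by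
      have h : ((m + j + 2 : ℕ) : ZMod (p ^ 2)) = ((p : ℕ) : ZMod (p ^ 2)) := by rw [hm]
      push_cast at h
      linear_combination h
    have hrec := Y_rec hh (blockb_pos hn) (p_sq (p := p)) m
    have hu := u_succ hh j
    rw [e2] at ih'
    rw [e1]
    have hunit : IsUnit (((2 * j + 2 : ℕ) : ZMod (p ^ 2)) ^ 3) :=
      (unit_nat (not_dvd_of_lt (by omega) (by omega))).pow 3
    apply hunit.mul_left_cancel
    rw [hc] at hrec
    have hu3 : (2 * ((j : ZMod (p ^ 2)) + 1) * u (half p) (j + 1)) ^ 3 =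
        ((2 * (j : ZMod (p ^ 2)) + 1) * u (half p) j) ^ 3 := by rw [hu]
    push_cast
    rw [ih'] at hrec
    rw [pow_succ (-1 : ZMod (p ^ 2)) j]
    linear_combination (-1) * hrec +
      (YY (half p) p).coeff (p - 1) * (-1) ^ j * hu3

private theorem blockb_aux (hn : p = 2 * n + 1) {j : ℕ} (hj : j ≤ n) :
    (YY (half p) p).coeff (2 * p - 1 - j) =
      (YY (half p) p).coeff (2 * p - 1) * (-1) ^ j * (u (half p) j) ^ 3 *
        (1 - 6 * p * EE p j) := by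
  induction j with
  | zero => simp [u_zero, EE]
  | succ j ih =>
    have ih' := ih (by omega)
    have hh : 2 * half p = 1 := two_half (blockb_two hn)
    obtain ⟨m, hm⟩ : ∃ m, m + j + 2 = 2 * p := ⟨2 * p - (j + 2), by omega⟩
    have e1 : 2 * p - 1 - (j + 1) = m := by omega
    have e2 : 2 * p - 1 - j = m + 1 := by omega
    have hc : (m : ZMod (p ^ 2)) = 2 * (p : ZMod (p ^ 2)) - j - 2 := by
      have h : ((m + j + 2 : ℕ) : ZMod (p ^ 2)) = ((2 * p : ℕ) : ZMod (p ^ 2)) := by rw [hm]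
      push_cast at h
      linear_combination h
    have hrec := Y_rec hh (blockb_pos hn) (p_sq (p := p)) m
    have hu := u_succ hh j
    rw [e2] at ih'
    rw [e1]
    have hE : EE p (j + 1) = EE p j + (((2 * j + 1 : ℕ) : ZMod (p ^ 2))⁻¹ -
        ((2 * j + 2 : ℕ) : ZMod (p ^ 2))⁻¹) := by
      unfold EE
      rw [Finset.sum_range_succ]
    have hs := mul_inv_nat (p := p) (m := 2 * j + 1) (not_dvd_of_lt (by omega) (by omega))
    have hr := mul_inv_nat (p := p) (m := 2 * j + 2) (not_dvd_of_lt (by omega) (by omega))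
    have hunit : IsUnit (((2 * j + 2 : ℕ) : ZMod (p ^ 2)) ^ 3) :=
      (unit_nat (not_dvd_of_lt (by omega) (by omega))).pow 3
    apply hunit.mul_left_cancel
    rw [hE]
    have hp2 := p_sq (p := p)
    have hu3 : (2 * ((j : ZMod (p ^ 2)) + 1) * u (half p) (j + 1)) ^ 3 =
        ((2 * (j : ZMod (p ^ 2)) + 1) * u (half p) j) ^ 3 := by rw [hu]
    rw [hc, ih'] at hrec
    generalize ((2 * j + 1 : ℕ) : ZMod (p ^ 2))⁻¹ = s' at *
    generalize ((2 * j + 2 : ℕ) : ZMod (p ^ 2))⁻¹ = r' at *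
    generalize (YY (half p) p).coeff m = Y at *
    generalize (YY (half p) p).coeff (2 * p - 1) = Z at *
    generalize u (half p) (j + 1) = w at *
    generalize u (half p) j = v at *
    generalize EE p j = E at *
    generalize hq : (p : ZMod (p ^ 2)) = q at *
    push_cast at hs hr ⊢
    rw [pow_succ (-1 : ZMod (p ^ 2)) j]
    generalize (-1 : ZMod (p ^ 2)) ^ j = σ at *
    generalize hx : (j : ZMod (p ^ 2)) = x at *
    -- the recurrence, simplified
    have h1 : (2 * x + 1) ^ 3 * (1 - 6 * q * s') * (Z * σ * v ^ 3 * (1 - 6 * q * E)) +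
        (2 * x + 2) ^ 3 * (1 - 6 * q * r') * Y = 0 := by
      have a1 : (2 * (2 * q - x - 2 + 1) + 1 - 2 * q) ^ 3 =
          -((2 * x + 1) ^ 3 * (1 - 6 * q * s')) := by
        linear_combination (8 * q - 12 * (2 * x + 1)) * hp2 + (-6 * q * (2 * x + 1) ^ 2) * hs
      have a2 : 8 * (2 * q - x - 2 + 1 - q) ^ 3 = -((2 * x + 2) ^ 3 * (1 - 6 * q * r')) := by
        linear_combination (8 * q - 12 * (2 * x + 2)) * hp2 + (-6 * q * (2 * x + 2) ^ 2) * hr
      rw [a1, a2] at hrec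
      linear_combination (-1) * hrec
    have h2 : (2 * x + 2) ^ 3 * Y = -((2 * x + 1) ^ 3 * (1 - 6 * q * s') * (1 + 6 * q * r') *
        (Z * σ * v ^ 3 * (1 - 6 * q * E))) := by
      linear_combination (1 + 6 * q * r') * h1 + (36 * r' ^ 2 * (2 * x + 2) ^ 3 * Y) * hp2
    rw [h2]
    have h3 : (1 - 6 * q * s') * (1 + 6 * q * r') * (1 - 6 * q * E) =
        1 - 6 * q * (E + (s' - r')) := by
      linear_combination ((-6 * s') * (6 * r') + (-6 * s') * (-6 * E) + (6 * r') * (-6 * E) +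
        q * (-6 * s') * (6 * r') * (-6 * E)) * hp2
    linear_combination (-(2 * x + 1) ^ 3 * Z * σ * v ^ 3) * h3 +
      (Z * σ * (1 - 6 * q * (E + (s' - r')))) * hu3

theorem Y_chain2 (hn : p = 2 * n + 1) {j : ℕ} (hj : j ≤ n) :
    (u (half p) n) ^ 3 * (YY (half p) p).coeff (2 * p - 1 - j) =
      (YY (half p) p).coeff (2 * p - 1) * (-1) ^ j *
        (2 * (u (half p) (n - j)) ^ 3 - (u (half p) n) ^ 3 * (u (half p) j) ^ 3) := by
  rw [blockb_aux hn hj, u_rev hn hj]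
  have hp2 := p_sq (p := p)
  generalize (YY (half p) p).coeff (2 * p - 1) = Z
  generalize u (half p) n = U
  generalize u (half p) j = v
  generalize EE p j = E
  generalize (p : ZMod (p ^ 2)) = q at *
  generalize (-1 : ZMod (p ^ 2)) ^ j = σ
  linear_combination (-(Z * σ) * 2 * (U ^ 3 * v ^ 3) * (3 * E ^ 2 - q * E ^ 3)) * hp2

end MPf96
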