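import Pool.Agent.H.MP_f96d9d_nt.Base

/-!
# The telescoping certificate
-/

namespace MPf96

open Polynomial Finset

variable {R : Type*} [CommRing R]

/-- the operator `a θ - b` -/
noncomputable def Op (a b f : R[X]) : R[X] := a * (X * derivative f) - b * f

/-- `(2θ - (2k+1))^3 + 8 X (θ - k)^3` -/
noncomputable def Lop (k : ℕ) (f : R[X]) : R[X] :=
  Op 2 (2 * (k : R[X]) + 1) (Op 2 (2 * (k : R[X]) + 1) (Op 2 (2 * (k : R[X]) + 1) f)) +
    8 * X * Op 1 (k : R[X]) (Op 1 (k : R[X]) (Op 1 (k : R[X]) f))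

/-- the certificate -/
noncomputable def Gh (k : ℕ) (A B : R[X]) : R[X] :=
  -8 * (k : R[X]) ^ 3 * X ^ 3 * (5 + X) * B ^ 3 +
    ((k : R[X]) * X ^ 2 * (-12 - 36 * X) + (k : R[X]) ^ 2 * X ^ 2 * (-24 + 72 * X)) *
      ((k : R[X]) * A) * B ^ 2 +
    (X ^ 2 * (36 + 12 * X) + (k : R[X]) * X ^ 2 * (72 - 24 * X)) * ((k : R[X]) * A) ^ 2 * B -
    8 * X * (1 + 5 * X) * ((k : R[X]) * A) ^ 3

/-- `θ = X d/dX` -/
noncomputable def cert_th (f : R[X]) : R[X] := X * derivative f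

theorem cert_th_add (f g : R[X]) : cert_th (f + g) = cert_th f + cert_th g := by
  unfold cert_th; rw [derivative_add]; ring

theorem cert_th_sub (f g : R[X]) : cert_th (f - g) = cert_th f - cert_th g := by
  unfold cert_th; rw [derivative_sub]; ring

theorem cert_th_mul (f g : R[X]) : cert_th (f * g) = cert_th f * g + f * cert_th g := by
  unfold cert_th; rw [derivative_mul]; ring

theorem cert_th_nat (k : ℕ) : cert_th ((k : R[X])) = 0 := by
  unfold cert_th; rw [derivative_natCast]; ring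

theorem cert_th_one : cert_th (1 : R[X]) = 0 := by
  unfold cert_th; rw [derivative_one]; ring

theorem cert_th_two : cert_th (2 : R[X]) = 0 := by
  have := cert_th_nat (R := R) 2
  exact_mod_cast this

theorem cert_th_zero : cert_th (0 : R[X]) = 0 := by
  unfold cert_th; rw [derivative_zero]; ring

theorem cert_th_X : cert_th (X : R[X]) = X := by
  unfold cert_th; rw [derivative_X]; ring

theorem cert_Lop (k : ℕ) (f : R[X]) : Lop k f =
    8 * cert_th (cert_th (cert_th f)) - 12 * (2 * (k : R[X]) + 1) * cert_th (cert_th f) +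
      6 * (2 * (k : R[X]) + 1) ^ 2 * cert_th f - (2 * (k : R[X]) + 1) ^ 3 * f +
      8 * X * (cert_th (cert_th (cert_th f)) - 3 * (k : R[X]) * cert_th (cert_th f) +
        3 * (k : R[X]) ^ 2 * cert_th f - (k : R[X]) ^ 3 * f) := by
  have e : ∀ a b f : R[X], Op a b f = a * cert_th f - b * f := fun a b f => rfl
  unfold Lop
  simp only [e, cert_th_add, cert_th_sub, cert_th_mul, cert_th_nat, cert_th_one, cert_th_two,
    cert_th_zero]
  ring

theorem cert_regular {f : R[X]} (hf : (1 - X) * f = 0) : f = 0 := by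
  have h1 : (X - C 1) * f = 0 := by
    rw [C_1]
    linear_combination -hf
  have hm : (X - C (1 : R)).Monic := monic_X_sub_C 1
  have h2 : f * (X - C 1) = 0 := by rw [mul_comm]; exact h1
  exact (Monic.mul_left_eq_zero_iff hm).1 h2

/-- the algebra of the certificate: `A1 = θA` etc., `L` in terms of them -/
theorem cert_alg {K : Type*} [CommRing K] (A B D A1 A2 A3 x k : K)
    (E0 : (1 - x) * A1 = k * x * (B - A))
    (E2 : 2 * (1 - x) ^ 2 * A2 = 2 * x * (k * x * (B - A)) + 2 * k * x * (1 - x) * (B - A) +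
      k * x * (((2 * k - 1 + x) * B - 2 * k * A) - 2 * (k * x * (B - A))))
    (E3 : 4 * (1 - x) ^ 3 * A3 = 4 * x * (1 - x) * (k * x * (B - A)) +
      4 * x * (2 * x * (k * x * (B - A)) + 2 * k * x * (1 - x) * (B - A) +
        k * x * (((2 * k - 1 + x) * B - 2 * k * A) - 2 * (k * x * (B - A)))) +
      4 * k * x * (1 - x) ^ 2 * (B - A) +
      4 * k * x * (1 - x) * (((2 * k - 1 + x) * B - 2 * k * A) - 2 * (k * x * (B - A))) +
      k * x * ((2 * x * ((2 * k - 1 + x) * B - 2 * k * A) + 2 * (1 - x) * x * B +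
          (2 * k - 1 + x) * ((2 * k - 1 + x) * B - 2 * k * A) - 4 * k * (k * x * (B - A))) -
        2 * (2 * x * (k * x * (B - A)) + 2 * k * x * (1 - x) * (B - A) +
        k * x * (((2 * k - 1 + x) * B - 2 * k * A) - 2 * (k * x * (B - A))))))
    (H0 : 2 * (k + 1) * D = (2 * k + 1) * (1 + x) * A - 2 * k * x * B)
    (f0 f1 f2 f3 : K) (hf0 : f0 = (1 - x) * A ^ 3)
    (hf1 : f1 = -x * A ^ 3 + 3 * (1 - x) * A ^ 2 * A1)
    (hf2 : f2 = -x * A ^ 3 - 6 * x * A ^ 2 * A1 + 6 * (1 - x) * A * A1 ^ 2 +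
      3 * (1 - x) * A ^ 2 * A2)
    (hf3 : f3 = -x * A ^ 3 - 9 * x * A ^ 2 * A1 - 18 * x * A * A1 ^ 2 - 9 * x * A ^ 2 * A2 +
      6 * (1 - x) * A1 ^ 3 + 18 * (1 - x) * A * A1 * A2 + 3 * (1 - x) * A ^ 2 * A3) :
    8 * (1 - x) ^ 3 * (x * (1 - x) ^ 2 *
      (8 * f3 - 12 * (2 * k + 1) * f2 + 6 * (2 * k + 1) ^ 2 * f1 - (2 * k + 1) ^ 3 * f0 +
        8 * x * (f3 - 3 * k * f2 + 3 * k ^ 2 * f1 - k ^ 3 * f0))) =
    8 * (1 - x) ^ 3 *
      ((-8 * (k + 1) ^ 3 * x ^ 3 * (5 + x) * A ^ 3 +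
        ((k + 1) * x ^ 2 * (-12 - 36 * x) + (k + 1) ^ 2 * x ^ 2 * (-24 + 72 * x)) *
          ((k + 1) * D) * A ^ 2 +
        (x ^ 2 * (36 + 12 * x) + (k + 1) * x ^ 2 * (72 - 24 * x)) * ((k + 1) * D) ^ 2 * A -
        8 * x * (1 + 5 * x) * ((k + 1) * D) ^ 3) -
      x * (-8 * k ^ 3 * x ^ 3 * (5 + x) * B ^ 3 +
        (k * x ^ 2 * (-12 - 36 * x) + k ^ 2 * x ^ 2 * (-24 + 72 * x)) * (k * A) * B ^ 2 +
        (x ^ 2 * (36 + 12 * x) + k * x ^ 2 * (72 - 24 * x)) * (k * A) ^ 2 * B -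
        8 * x * (1 + 5 * x) * (k * A) ^ 3)) := by
  have G1 : 4 * (1 - x) ^ 3 * f1 = -4 * x * (1 - x) ^ 3 * A ^ 3 +
      12 * (1 - x) ^ 3 * A ^ 2 * (k * x * (B - A)) := by
    rw [← E0, hf1]; ring
  have G2 : 4 * (1 - x) ^ 3 * f2 = -4 * x * (1 - x) ^ 3 * A ^ 3 -
      24 * x * (1 - x) ^ 2 * A ^ 2 * (k * x * (B - A)) +
      24 * (1 - x) ^ 2 * A * (k * x * (B - A)) ^ 2 +
      6 * (1 - x) ^ 2 * A ^ 2 * (2 * x * (k * x * (B - A)) + 2 * k * x * (1 - x) * (B - A) +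
      k * x * (((2 * k - 1 + x) * B - 2 * k * A) - 2 * (k * x * (B - A)))) := by
    rw [← E2, ← E0, hf2]; ring
  have G3 : 4 * (1 - x) ^ 3 * f3 = -4 * x * (1 - x) ^ 3 * A ^ 3 -
      36 * x * (1 - x) ^ 2 * A ^ 2 * (k * x * (B - A)) -
      72 * x * (1 - x) * A * (k * x * (B - A)) ^ 2 -
      18 * x * (1 - x) * A ^ 2 * (2 * x * (k * x * (B - A)) + 2 * k * x * (1 - x) * (B - A) +
        k * x * (((2 * k - 1 + x) * B - 2 * k * A) - 2 * (k * x * (B - A)))) +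
      24 * (1 - x) * (k * x * (B - A)) ^ 3 +
      36 * (1 - x) * A * (k * x * (B - A)) *
        (2 * x * (k * x * (B - A)) + 2 * k * x * (1 - x) * (B - A) +
        k * x * (((2 * k - 1 + x) * B - 2 * k * A) - 2 * (k * x * (B - A)))) +
      3 * (1 - x) * A ^ 2 * (4 * x * (1 - x) * (k * x * (B - A)) +
      4 * x * (2 * x * (k * x * (B - A)) + 2 * k * x * (1 - x) * (B - A) +
        k * x * (((2 * k - 1 + x) * B - 2 * k * A) - 2 * (k * x * (B - A)))) +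
      4 * k * x * (1 - x) ^ 2 * (B - A) +
      4 * k * x * (1 - x) * (((2 * k - 1 + x) * B - 2 * k * A) - 2 * (k * x * (B - A))) +
      k * x * ((2 * x * ((2 * k - 1 + x) * B - 2 * k * A) + 2 * (1 - x) * x * B +
          (2 * k - 1 + x) * ((2 * k - 1 + x) * B - 2 * k * A) - 4 * k * (k * x * (B - A))) -
        2 * (2 * x * (k * x * (B - A)) + 2 * k * x * (1 - x) * (B - A) +
        k * x * (((2 * k - 1 + x) * B - 2 * k * A) - 2 * (k * x * (B - A)))))) := by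
    rw [← E3, ← E2, ← E0, hf3]; ring
  have L0 : 8 * (1 - x) ^ 3 * (x * (1 - x) ^ 2 *
      (8 * f3 - 12 * (2 * k + 1) * f2 + 6 * (2 * k + 1) ^ 2 * f1 - (2 * k + 1) ^ 3 * f0 +
        8 * x * (f3 - 3 * k * f2 + 3 * k ^ 2 * f1 - k ^ 3 * f0))) =
      2 * (x * (1 - x) ^ 2 *
      (8 * (4 * (1 - x) ^ 3 * f3) - 12 * (2 * k + 1) * (4 * (1 - x) ^ 3 * f2) +
        6 * (2 * k + 1) ^ 2 * (4 * (1 - x) ^ 3 * f1) -
        (2 * k + 1) ^ 3 * (4 * (1 - x) ^ 3 * ((1 - x) * A ^ 3)) +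
        8 * x * (4 * (1 - x) ^ 3 * f3 - 3 * k * (4 * (1 - x) ^ 3 * f2) +
        3 * k ^ 2 * (4 * (1 - x) ^ 3 * f1) - k ^ 3 * (4 * (1 - x) ^ 3 * ((1 - x) * A ^ 3))))) := by
    rw [hf0]; ring
  have R0 : 8 * (1 - x) ^ 3 *
      ((-8 * (k + 1) ^ 3 * x ^ 3 * (5 + x) * A ^ 3 +
        ((k + 1) * x ^ 2 * (-12 - 36 * x) + (k + 1) ^ 2 * x ^ 2 * (-24 + 72 * x)) *
          ((k + 1) * D) * A ^ 2 +
        (x ^ 2 * (36 + 12 * x) + (k + 1) * x ^ 2 * (72 - 24 * x)) * ((k + 1) * D) ^ 2 * A -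
        8 * x * (1 + 5 * x) * ((k + 1) * D) ^ 3)) =
      (1 - x) ^ 3 *
      (8 * (-8 * (k + 1) ^ 3 * x ^ 3 * (5 + x) * A ^ 3) +
        4 * ((k + 1) * x ^ 2 * (-12 - 36 * x) + (k + 1) ^ 2 * x ^ 2 * (-24 + 72 * x)) *
          (2 * (k + 1) * D) * A ^ 2 +
        2 * (x ^ 2 * (36 + 12 * x) + (k + 1) * x ^ 2 * (72 - 24 * x)) *
          (2 * (k + 1) * D) ^ 2 * A -
        8 * x * (1 + 5 * x) * (2 * (k + 1) * D) ^ 3) := by ring
  rw [L0, G1, G2, G3, mul_sub (8 * (1 - x) ^ 3), R0, H0]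
  ring

theorem cert {h : R} (hh : 2 * h = 1) (k : ℕ) (A B D : R[X])
    (H1 : (1 - X) * (X * derivative A) = (k : R[X]) * X * (B - A))
    (H2 : 2 * (1 - X) * (X * derivative B) = (2 * (k : R[X]) - 1 + X) * B - 2 * (k : R[X]) * A)
    (H0 : 2 * ((k : R[X]) + 1) * D = (2 * (k : R[X]) + 1) * (1 + X) * A - 2 * (k : R[X]) * X * B) :
    X * (1 - X) ^ 2 * Lop k ((1 - X) * A ^ 3) = Gh (k + 1) D A - X * Gh k A B := by
  have H1a : (1 - X) * cert_th A = (k : R[X]) * X * (B - A) := H1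
  have H2a : 2 * (1 - X) * cert_th B = (2 * (k : R[X]) - 1 + X) * B - 2 * (k : R[X]) * A := H2
  have H1b := congrArg cert_th H1a
  have H2b := congrArg cert_th H2a
  have H1c := congrArg cert_th H1b
  simp only [cert_th_add, cert_th_sub, cert_th_mul, cert_th_nat, cert_th_one, cert_th_two,
    cert_th_X, cert_th_zero] at H1b H2b H1c
  have E2 : 2 * (1 - X) ^ 2 * cert_th (cert_th A) = 2 * X * ((k : R[X]) * X * (B - A)) +
      2 * (k : R[X]) * X * (1 - X) * (B - A) +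
      (k : R[X]) * X * (((2 * (k : R[X]) - 1 + X) * B - 2 * (k : R[X]) * A) -
        2 * ((k : R[X]) * X * (B - A))) := by
    linear_combination (2 * (1 - X)) * H1b + (2 * X - 2 * (k : R[X]) * X) * H1a +
      ((k : R[X]) * X) * H2a
  have E2b : 4 * (1 - X) ^ 2 * cert_th (cert_th B) =
      2 * X * ((2 * (k : R[X]) - 1 + X) * B - 2 * (k : R[X]) * A) + 2 * (1 - X) * X * B +
      (2 * (k : R[X]) - 1 + X) * ((2 * (k : R[X]) - 1 + X) * B - 2 * (k : R[X]) * A) -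
      4 * (k : R[X]) * ((k : R[X]) * X * (B - A)) := by
    linear_combination (2 * (1 - X)) * H2b + (2 * X + (2 * (k : R[X]) - 1 + X)) * H2a -
      (4 * (k : R[X])) * H1a
  have E3 : 4 * (1 - X) ^ 3 * cert_th (cert_th (cert_th A)) =
      4 * X * (1 - X) * ((k : R[X]) * X * (B - A)) +
      4 * X * (2 * X * ((k : R[X]) * X * (B - A)) + 2 * (k : R[X]) * X * (1 - X) * (B - A) +
        (k : R[X]) * X * (((2 * (k : R[X]) - 1 + X) * B - 2 * (k : R[X]) * A) -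
          2 * ((k : R[X]) * X * (B - A)))) +
      4 * (k : R[X]) * X * (1 - X) ^ 2 * (B - A) +
      4 * (k : R[X]) * X * (1 - X) * (((2 * (k : R[X]) - 1 + X) * B - 2 * (k : R[X]) * A) -
        2 * ((k : R[X]) * X * (B - A))) +
      (k : R[X]) * X * ((2 * X * ((2 * (k : R[X]) - 1 + X) * B - 2 * (k : R[X]) * A) +
          2 * (1 - X) * X * B +
          (2 * (k : R[X]) - 1 + X) * ((2 * (k : R[X]) - 1 + X) * B - 2 * (k : R[X]) * A) -
          4 * (k : R[X]) * ((k : R[X]) * X * (B - A))) -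
        2 * (2 * X * ((k : R[X]) * X * (B - A)) + 2 * (k : R[X]) * X * (1 - X) * (B - A) +
        (k : R[X]) * X * (((2 * (k : R[X]) - 1 + X) * B - 2 * (k : R[X]) * A) -
          2 * ((k : R[X]) * X * (B - A))))) := by
    linear_combination (4 * (1 - X) ^ 2) * H1c +
      (4 * X * (1 - X) - 8 * (k : R[X]) * X * (1 - X)) * H1a +
      (4 * X - 2 * (k : R[X]) * X) * E2 + (4 * (k : R[X]) * X * (1 - X)) * H2a +
      ((k : R[X]) * X) * E2b
  have F1 : cert_th ((1 - X) * A ^ 3) = -X * A ^ 3 + 3 * (1 - X) * A ^ 2 * cert_th A := by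
    have : A ^ 3 = A * (A * A) := by ring
    rw [this]
    simp only [cert_th_sub, cert_th_mul, cert_th_one, cert_th_X]
    ring
  have F2 : cert_th (cert_th ((1 - X) * A ^ 3)) = -X * A ^ 3 - 6 * X * A ^ 2 * cert_th A +
      6 * (1 - X) * A * cert_th A ^ 2 + 3 * (1 - X) * A ^ 2 * cert_th (cert_th A) := by
    have : A ^ 3 = A * (A * A) := by ring
    rw [this]
    simp only [cert_th_sub, cert_th_mul, cert_th_add, cert_th_zero, cert_th_one, cert_th_X]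
    ring
  have F3 : cert_th (cert_th (cert_th ((1 - X) * A ^ 3))) = -X * A ^ 3 -
      9 * X * A ^ 2 * cert_th A - 18 * X * A * cert_th A ^ 2 -
      9 * X * A ^ 2 * cert_th (cert_th A) +
      6 * (1 - X) * cert_th A ^ 3 + 18 * (1 - X) * A * cert_th A * cert_th (cert_th A) +
      3 * (1 - X) * A ^ 2 * cert_th (cert_th (cert_th A)) := by
    have : A ^ 3 = A * (A * A) := by ring
    rw [this]
    simp only [cert_th_sub, cert_th_mul, cert_th_add, cert_th_zero, cert_th_one, cert_th_X]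
    ring
  have key := cert_alg A B D (cert_th A) (cert_th (cert_th A)) (cert_th (cert_th (cert_th A)))
    X (k : R[X]) H1a E2 E3 H0 _ _ _ _ rfl F1 F2 F3
  rw [← cert_Lop] at key
  have e1 : Gh (k + 1) D A = (-8 * ((k : R[X]) + 1) ^ 3 * X ^ 3 * (5 + X) * A ^ 3 +
        (((k : R[X]) + 1) * X ^ 2 * (-12 - 36 * X) +
          ((k : R[X]) + 1) ^ 2 * X ^ 2 * (-24 + 72 * X)) *
          (((k : R[X]) + 1) * D) * A ^ 2 +
        (X ^ 2 * (36 + 12 * X) + ((k : R[X]) + 1) * X ^ 2 * (72 - 24 * X)) *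
          (((k : R[X]) + 1) * D) ^ 2 * A -
        8 * X * (1 + 5 * X) * (((k : R[X]) + 1) * D) ^ 3) := by
    unfold Gh
    push_cast
    ring
  have e3 : Gh k A B = -8 * (k : R[X]) ^ 3 * X ^ 3 * (5 + X) * B ^ 3 +
    ((k : R[X]) * X ^ 2 * (-12 - 36 * X) + (k : R[X]) ^ 2 * X ^ 2 * (-24 + 72 * X)) *
      ((k : R[X]) * A) * B ^ 2 +
    (X ^ 2 * (36 + 12 * X) + (k : R[X]) * X ^ 2 * (72 - 24 * X)) * ((k : R[X]) * A) ^ 2 * B -
    8 * X * (1 + 5 * X) * ((k : R[X]) * A) ^ 3 := rfl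
  rw [← e1, ← e3] at key
  have e2 : (8 : R[X]) * C (h ^ 3) = 1 := by
    have : (8 : R) * h ^ 3 = 1 := by
      have : (2 * h) ^ 3 = 1 := by rw [hh]; ring
      linear_combination this
    have h8 : (8 : R[X]) = C (8 : R) := (map_ofNat C 8).symm
    rw [h8, ← C_mul, this, C_1]
  have key2 : (1 - X) * ((1 - X) * ((1 - X) * (X * (1 - X) ^ 2 * Lop k ((1 - X) * A ^ 3) -
      (Gh (k + 1) D A - X * Gh k A B)))) = 0 := by
    linear_combination C (h ^ 3) * key - ((1 - X) * ((1 - X) * ((1 - X) * (X * (1 - X) ^ 2 *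
      Lop k ((1 - X) * A ^ 3) - (Gh (k + 1) D A - X * Gh k A B))))) * e2
  have := cert_regular (cert_regular (cert_regular key2))
  linear_combination this

end MPf96
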