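import Pool.Agent.H.MP_f96d9d_nt.CharSum

/-!
# The Gaussian integer behind the Jacobi sum

`p = 4a+1` prime. Let `g` be a generator of `(ZMod p)ˣ`. Let `i = ⟨0,1⟩` in `GaussianInt`
(`= Zsqrtd (-1)`), a unit with `i^4 = 1`, and `χ = MulChar.ofRootOfUnity` with `χ g = i`
(`4 ∣ p - 1`, so `i ∈ rootsOfUnity (p-1)`). Let `ρ` be `quadraticChar` with values in
`GaussianInt` (`(quadraticChar (ZMod p)).ringHomComp (Int.castRingHom _)`), and
`J = jacobiSum χ ρ = A + B i`.
* Norm: `A^2 + B^2 = p`. Map everything to `ℂ` by `GaussianInt.toComplex` (an injective ring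
  hom) and use `jacobiSum_mul_jacobiSum_inv` (`χ`, `ρ`, `χρ` nontrivial: `χ g = i`, `ρ g = -1`,
  `χρ(g) = -i`) together with `jacobiSum_ringHomComp`: `J(χ⁻¹,ρ⁻¹)` is the image of `J`
  under conjugation (`star`), because `χ⁻¹ x = star (χ x)` (values are units of norm 1) and
  `ρ⁻¹ = ρ` has integer values. So `J * star J = p`, i.e. `A^2 + B^2 = p`.
* Parity: `exists_jacobiSum_eq_neg_one_add` with `n = 4`, `μ = i`:
  `J = -1 + z (i-1)^2 = -1 - 2 i z`, so `A = -1 + 2 (im z)` is odd and `B = -2 re z` is even.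
* Reduction: let `ι = om(g)^(3a)` in `ZMod (p^2)`. `ι^2 = om(g^(6a)) = om(g^(2a)) = om(-1) = -1`
  (`g^(4a) = 1`, `g^(2a) = -1` as `g` is a generator). `φ = Zsqrtd.lift ⟨ι, _⟩ : GaussianInt →+*
  ZMod (p^2)`, `φ i = ι`. For every `x : ZMod p`, `φ (χ x) = om(x)^(3a)` (for `x = g^k` both are
  `ι^k`; for `x = 0` both are 0, `a > 0`), so `φ J = ∑_x om(x)^(3a) rho(1-x) = jj p a`
  (`jacobiSum` is by definition this sum). With `J = A + B i`:
  `jj = A + B ι`.
* Conclusion `jj_unit_sq`: if `jj` is a unit then `jj^2 = 4A^2 - 2p`: put `j' = A - B ι`; then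
  `jj + j' = 2A`, `jj * j' = A^2 + B^2 = p` (`ι^2 = -1`), so `j' = p jj⁻¹`, `j'^2 = 0` and
  `jj^2 = jj^2 + j'^2 = (jj+j')^2 - 2 jj j' = 4A^2 - 2p`.
-/

namespace MPf96

open Finset

variable {p : ℕ} [hp : Fact p.Prime]

theorem gaussj_norm (χ ρ : MulChar (ZMod p) GaussianInt) (hχ : χ ≠ 1) (hρ : ρ ≠ 1)
    (hχρ : χ * ρ ≠ 1) :
    (p : ℤ) = (jacobiSum χ ρ).re ^ 2 + (jacobiSum χ ρ).im ^ 2 := by
  obtain ⟨f, hf⟩ : ∃ f : GaussianInt →+* ℂ, f = GaussianInt.toComplex := ⟨_, rfl⟩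
  have hinj : Function.Injective f := by
    rw [hf]
    exact GaussianInt.toComplex_injective
  have hne : ∀ ψ : MulChar (ZMod p) GaussianInt, ψ ≠ 1 → ψ.ringHomComp f ≠ 1 := by
    intro ψ hψ h
    apply hψ
    refine MulChar.ext fun x => ?_
    have h1 := congrArg (fun c : MulChar (ZMod p) ℂ => c x) h
    apply hinj
    have h2 : ψ.ringHomComp f (x : ZMod p) = (1 : MulChar (ZMod p) ℂ) x := h1
    rw [MulChar.ringHomComp_apply, MulChar.one_apply_coe] at h2
    rw [h2, MulChar.one_apply_coe, map_one]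
  have hchar : ringChar ℂ ≠ ringChar (ZMod p) := by
    rw [ringChar.eq_zero, ZMod.ringChar_zmod_n]
    exact hp.out.ne_zero.symm
  have hmul : (χ.ringHomComp f) * (ρ.ringHomComp f) = (χ * ρ).ringHomComp f :=
    (MulChar.ringHomComp_mul _ _ _).symm
  have h1 := jacobiSum_mul_jacobiSum_inv hchar (hne χ hχ) (hne ρ hρ) (by
    rw [hmul]
    exact hne _ hχρ)
  have h2 : jacobiSum (χ.ringHomComp f)⁻¹ (ρ.ringHomComp f)⁻¹ =
      star (jacobiSum (χ.ringHomComp f) (ρ.ringHomComp f)) := by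
    unfold jacobiSum
    rw [star_sum]
    refine Finset.sum_congr rfl fun x _ => ?_
    rw [star_mul', MulChar.star_apply', MulChar.star_apply']
  rw [h2, jacobiSum_ringHomComp, ZMod.card, hf] at h1
  rw [GaussianInt.toComplex_def₂] at h1
  have h3 := congrArg Complex.re h1
  rw [Complex.mul_re] at h3
  have h4 : ((jacobiSum χ ρ).re : ℝ) * (jacobiSum χ ρ).re +
      (jacobiSum χ ρ).im * (jacobiSum χ ρ).im = p := by
    have e1 : ∀ z : ℂ, (star z).re = z.re := fun z => rfl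
    have e2 : ∀ z : ℂ, (star z).im = -z.im := fun z => rfl
    rw [e1, e2, Complex.natCast_re] at h3
    linarith
  have h5 : ((p : ℤ) : ℝ) = (((jacobiSum χ ρ).re ^ 2 + (jacobiSum χ ρ).im ^ 2 : ℤ) : ℝ) := by
    push_cast
    rw [← h4]
    ring
  exact_mod_cast h5

theorem gaussj_prim : IsPrimitiveRoot (⟨0, 1⟩ : GaussianInt) 4 := by
  have h2 : (⟨0, 1⟩ : GaussianInt) ^ 2 = -1 := by
    rw [pow_two]
    rfl
  refine IsPrimitiveRoot.of_map_of_injective (f := GaussianInt.toComplex) ?_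
    GaussianInt.toComplex_injective
  have h3 : GaussianInt.toComplex (⟨0, 1⟩ : GaussianInt) = Complex.I := by
    rw [GaussianInt.toComplex_def']
    simp
  rw [h3]
  exact Complex.isPrimitiveRoot_I

theorem gaussj_om {a : ℕ} (h : p = 4 * a + 1) {g : (ZMod p)ˣ}
    (hg : ∀ x, x ∈ Subgroup.zpowers g) : (om p (g : ZMod p) ^ (3 * a)) ^ 2 = -1 := by
  have hp2 : p ≠ 2 := by omega
  have ha : 0 < a := by
    rcases Nat.eq_zero_or_pos a with h0 | h0
    · exfalso
      have h1 := hp.out.one_lt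
      omega
    · exact h0
  have hord : orderOf g = 4 * a := by
    rw [orderOf_eq_card_of_forall_mem_zpowers hg, Nat.card_eq_fintype_card, ZMod.card_units, h]
    rfl
  have h4 : (g : ZMod p) ^ (4 * a) = 1 := by
    rw [← Units.val_pow_eq_pow_val, ← hord, pow_orderOf_eq_one, Units.val_one]
  have h2 : (g : ZMod p) ^ (2 * a) = -1 := by
    have h5 : ((g : ZMod p) ^ (2 * a)) ^ 2 = 1 := by
      rw [← pow_mul, show 2 * a * 2 = 4 * a by ring, h4]
    rw [pow_two] at h5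
    rcases mul_self_eq_one_iff.1 h5 with h6 | h6
    · exfalso
      have h7 : g ^ (2 * a) = 1 := by
        apply Units.ext
        rw [Units.val_pow_eq_pow_val, h6, Units.val_one]
      have h8 := orderOf_dvd_of_pow_eq_one h7
      rw [hord] at h8
      have := Nat.le_of_dvd (by omega) h8
      omega
    · exact h6
  rw [← pow_mul, ← om_pow, show 3 * a * 2 = 4 * a + 2 * a by ring, pow_add, h4, one_mul, h2,
    om_neg_one hp2]

theorem jj_gauss {a : ℕ} (h : p = 4 * a + 1) :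
    ∃ A B : ℤ, Odd A ∧ Even B ∧ (p : ℤ) = A ^ 2 + B ^ 2 ∧
      ∃ i : ZMod (p ^ 2), i ^ 2 = -1 ∧
        jj p a = (A : ZMod (p ^ 2)) + (B : ZMod (p ^ 2)) * i := by
  classical
  have ha : 0 < a := by
    rcases Nat.eq_zero_or_pos a with h0 | h0
    · exfalso
      have h1 := hp.out.one_lt
      omega
    · exact h0
  obtain ⟨g, hg⟩ := (inferInstance : IsCyclic (ZMod p)ˣ).exists_generator
  have hord : orderOf g = 4 * a := by
    rw [orderOf_eq_card_of_forall_mem_zpowers hg, Nat.card_eq_fintype_card, ZMod.card_units, h]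
    rfl
  obtain ⟨I, hI⟩ : ∃ I : GaussianIntˣ, (I : GaussianInt) = ⟨0, 1⟩ :=
    ⟨⟨⟨0, 1⟩, ⟨0, -1⟩, by rfl, by rfl⟩, rfl⟩
  have hprim : IsPrimitiveRoot (I : GaussianInt) 4 := hI ▸ gaussj_prim
  have hI4 : I ^ 4 = 1 := by
    apply Units.ext
    rw [Units.val_pow_eq_pow_val, hprim.pow_eq_one, Units.val_one]
  have hIr : I ∈ rootsOfUnity (Fintype.card (ZMod p)ˣ) GaussianInt := by
    rw [mem_rootsOfUnity, ZMod.card_units, h, show 4 * a + 1 - 1 = 4 * a by omega, pow_mul, hI4,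
      one_pow]
  obtain ⟨χ, hχg⟩ : ∃ χ : MulChar (ZMod p) GaussianInt, χ (g : ZMod p) = (I : GaussianInt) :=
    ⟨MulChar.ofRootOfUnity hIr hg, MulChar.ofRootOfUnity_spec hIr hg⟩
  obtain ⟨ρ, hρ⟩ : ∃ ρ : MulChar (ZMod p) GaussianInt,
      ρ = (quadraticChar (ZMod p)).ringHomComp (Int.castRingHom GaussianInt) := ⟨_, rfl⟩
  have hρx : ∀ x, ρ x = ((quadraticChar (ZMod p) x : ℤ) : GaussianInt) := by
    intro x
    rw [hρ, MulChar.ringHomComp_apply]
    rfl
  have hρg : ρ (g : ZMod p) = -1 := by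
    rw [hρx]
    have h1 : quadraticChar (ZMod p) (g : ZMod p) = -1 := by
      rw [quadraticChar_neg_one_iff_not_isSquare]
      rintro ⟨y, hy⟩
      have hy0 : y ≠ 0 := by
        rintro rfl
        rw [mul_zero] at hy
        exact g.ne_zero hy
      have h2 : g ^ (2 * a) = 1 := by
        apply Units.ext
        rw [Units.val_pow_eq_pow_val, hy, ← pow_two, ← pow_mul, Units.val_one,
          show 2 * (2 * a) = p - 1 by omega]
        exact ZMod.pow_card_sub_one_eq_one hy0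
      have h3 := orderOf_dvd_of_pow_eq_one h2
      rw [hord] at h3
      have := Nat.le_of_dvd (by omega) h3
      omega
    rw [h1]
    simp
  have hχ1 : χ ≠ 1 := by
    rintro h1
    rw [h1, MulChar.one_apply_coe] at hχg
    rw [hI] at hχg
    have := congrArg Zsqrtd.im hχg
    simp at this
  have hρ1 : ρ ≠ 1 := by
    rintro h1
    rw [h1, MulChar.one_apply_coe] at hρg
    have := congrArg Zsqrtd.re hρg
    simp at this
  have hχρ : χ * ρ ≠ 1 := by
    intro h1
    have h2 := congrArg (fun c : MulChar (ZMod p) GaussianInt => c (g : ZMod p)) h1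
    have h3 : χ (g : ZMod p) * ρ (g : ZMod p) = (1 : MulChar (ZMod p) GaussianInt) g := h2
    rw [hχg, hρg, MulChar.one_apply_coe, hI] at h3
    have := congrArg Zsqrtd.im h3
    simp at this
  have hnorm := gaussj_norm χ ρ hχ1 hρ1 hχρ
  obtain ⟨z, -, hz⟩ := exists_jacobiSum_eq_neg_one_add (n := 4) (χ := χ) (ψ := ρ)
    (μ := (I : GaussianInt)) (by norm_num) (by
      refine MulChar.ext fun x => ?_
      obtain ⟨k, hk⟩ := (isOfFinOrder_of_finite g).mem_powers_iff_mem_zpowers.2 (hg x)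
      have hk' : g ^ k = x := hk
      rw [MulChar.pow_apply_coe, MulChar.one_apply_coe, ← hk', Units.val_pow_eq_pow_val, map_pow,
        hχg, ← pow_mul, mul_comm, pow_mul, hprim.pow_eq_one, one_pow]) (by
      refine MulChar.ext fun x => ?_
      obtain ⟨k, hk⟩ := (isOfFinOrder_of_finite g).mem_powers_iff_mem_zpowers.2 (hg x)
      have hk' : g ^ k = x := hk
      rw [MulChar.pow_apply_coe, MulChar.one_apply_coe, ← hk', Units.val_pow_eq_pow_val, map_pow,
        hρg, ← pow_mul, mul_comm, pow_mul]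
      norm_num) (by
      rw [ZMod.card, h]
      exact ⟨a, by omega⟩) hprim
  have hre : (jacobiSum χ ρ).re = -1 + 2 * z.im := by
    rw [hz, hI]
    simp [pow_two]
    ring
  have him : (jacobiSum χ ρ).im = -(2 * z.re) := by
    rw [hz, hI]
    simp [pow_two]
    ring
  refine ⟨(jacobiSum χ ρ).re, (jacobiSum χ ρ).im, ?_, ?_, hnorm, om p (g : ZMod p) ^ (3 * a),
    gaussj_om h hg, ?_⟩
  · rw [hre]
    exact ⟨z.im - 1, by ring⟩
  · rw [him]
    exact ⟨-z.re, by ring⟩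
  · obtain ⟨ι, hι⟩ : ∃ ι, ι = om p (g : ZMod p) ^ (3 * a) := ⟨_, rfl⟩
    have hι2 : ι * ι = ((-1 : ℤ) : ZMod (p ^ 2)) := by
      rw [← pow_two, hι, gaussj_om h hg]
      simp
    obtain ⟨φ, hφ⟩ : ∃ φ : GaussianInt →+* ZMod (p ^ 2), ∀ w : GaussianInt,
        φ w = (w.re : ZMod (p ^ 2)) + (w.im : ZMod (p ^ 2)) * ι :=
      ⟨Zsqrtd.lift ⟨ι, hι2⟩, fun w => Zsqrtd.lift_apply_apply _ _⟩
    rw [← hι, ← hφ]
    unfold jj jacobiSum
    rw [map_sum]
    refine Finset.sum_congr rfl fun x _ => ?_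
    rw [map_mul]
    congr 1
    · rcases eq_or_ne x 0 with rfl | hx
      · rw [om_zero, zero_pow (by omega), MulChar.map_nonunit χ (by simp), map_zero]
      · obtain ⟨k, hk⟩ := (isOfFinOrder_of_finite g).mem_powers_iff_mem_zpowers.2
          (hg (Units.mk0 x hx))
        have hk' : g ^ k = Units.mk0 x hx := hk
        have hx' : x = (g : ZMod p) ^ k := by
          rw [← Units.val_pow_eq_pow_val, hk', Units.val_mk0]
        rw [hx', om_pow, map_pow, map_pow, hχg, ← pow_mul, mul_comm k, pow_mul, ← hι, hφ, hI]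
        simp
    · rw [hρx]
      unfold rho
      rw [map_intCast]

theorem jj_unit_sq {a : ℕ} (h : p = 4 * a + 1) (hu : IsUnit (jj p a)) :
    ∃ A B : ℤ, Odd A ∧ Even B ∧ (p : ℤ) = A ^ 2 + B ^ 2 ∧
      (jj p a) ^ 2 = 4 * (A : ZMod (p ^ 2)) ^ 2 - 2 * p := by
  obtain ⟨A, B, hA, hB, hp2, i, hi, hj⟩ := jj_gauss h
  refine ⟨A, B, hA, hB, hp2, ?_⟩
  obtain ⟨w, hw⟩ := hu.exists_right_inv
  obtain ⟨j', hj'⟩ : ∃ j' : ZMod (p ^ 2), j' = (A : ZMod (p ^ 2)) - (B : ZMod (p ^ 2)) * i :=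
    ⟨_, rfl⟩
  have hpp : ((p : ZMod (p ^ 2))) ^ 2 = 0 := by
    have := ZMod.natCast_self (p ^ 2)
    push_cast at this
    exact this
  have h1 : jj p a * j' = p := by
    rw [hj, hj']
    have h2 : ((p : ℤ) : ZMod (p ^ 2)) = ((A ^ 2 + B ^ 2 : ℤ) : ZMod (p ^ 2)) := by rw [hp2]
    push_cast at h2
    rw [h2]
    linear_combination (-(B : ZMod (p ^ 2)) ^ 2) * hi
  have h3 : j' = p * w := by
    have h4 : w * (jj p a * j') = w * p := by rw [h1]
    linear_combination h4 - j' * hw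
  have h5 : j' ^ 2 = 0 := by
    rw [h3]
    linear_combination w ^ 2 * hpp
  have h6 : jj p a + j' = 2 * A := by
    rw [hj, hj']
    ring
  linear_combination (jj p a + j' + 2 * A) * h6 - 2 * h1 - h5

end MPf96
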