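import Mathlib

/-!
# Uniqueness of the representation as a sum of two squares

`p` prime, `p = x^2 + y^2 = A^2 + B^2`, `x`, `A` odd, `y`, `B` even. Then `x^2 = A^2`.
Proof. `x^2 B^2 - y^2 A^2 = x^2 (p - A^2) - (p - x^2) A^2 = p (x^2 - A^2)`, so `p` divides
`xB - yA` or `xB + yA`; replacing `y` by `-y` (which changes nothing) we may assume
`p ∣ xB - yA`. And `(xA + yB)^2 + (xB - yA)^2 = p^2`. If `xB - yA = 0`: `(xA+yB)^2 = p^2`, and
`xB = yA`; `x`, `y` are coprime (a common prime divisor `q` would give `q^2 ∣ p`), so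
`x ∣ A`; likewise `A`, `B` are coprime, so `A ∣ x`; hence `x^2 = A^2`. (Or: multiply:
`x (xA+yB) = A x^2 + y (xB) = A x^2 + y^2 A = A p`, so `x (± p) = A p`, `A = ± x`: simpler!)
If `xB - yA ≠ 0` then `|xB - yA| ≥ p`, so `xA + yB = 0` and `(xB - yA)^2 = p^2`; but `xA` is odd
and `yB` is even, contradiction.
-/

namespace MPf96

private theorem twosq_aux {p : ℕ} (hp : p.Prime) {x y A B : ℤ} (hx : Odd x) (hy : Even y)
    (hA : Odd A) (hB : Even B) (h1 : (p : ℤ) = x ^ 2 + y ^ 2) (h2 : (p : ℤ) = A ^ 2 + B ^ 2)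
    (hd : (p : ℤ) ∣ x * B - y * A) : x ^ 2 = A ^ 2 := by
  have hp0 : (0 : ℤ) < p := by exact_mod_cast hp.pos
  have key : (x * A + y * B) ^ 2 + (x * B - y * A) ^ 2 = (p : ℤ) ^ 2 := by
    have : (p : ℤ) ^ 2 = (x ^ 2 + y ^ 2) * (A ^ 2 + B ^ 2) := by rw [← h1, ← h2]; ring
    rw [this]; ring
  by_cases h0 : x * B - y * A = 0
  · have h3 : (x * A + y * B) ^ 2 = (p : ℤ) ^ 2 := by rw [h0] at key; linarith [key]
    have h4 : x * (x * A + y * B) = A * p := by
      rw [h1]; linear_combination y * h0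
    have h5 : x ^ 2 * (p : ℤ) ^ 2 = A ^ 2 * (p : ℤ) ^ 2 := by
      calc x ^ 2 * (p : ℤ) ^ 2 = x ^ 2 * (x * A + y * B) ^ 2 := by rw [h3]
        _ = (x * (x * A + y * B)) ^ 2 := by ring
        _ = (A * p) ^ 2 := by rw [h4]
        _ = A ^ 2 * (p : ℤ) ^ 2 := by ring
    exact mul_right_cancel₀ (pow_ne_zero 2 hp0.ne') h5
  · exfalso
    have h3 : (p : ℤ) ^ 2 ≤ (x * B - y * A) ^ 2 := by
      have h4 : (p : ℤ) ≤ |x * B - y * A| := by
        have := Int.le_of_dvd (abs_pos.mpr h0) ((dvd_abs _ _).mpr hd)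
        exact this
      rw [← sq_abs (x * B - y * A)]
      exact pow_le_pow_left₀ hp0.le h4 2
    have h5 : (x * A + y * B) ^ 2 = 0 := by
      have := sq_nonneg (x * A + y * B)
      linarith
    have h6 : x * A + y * B = 0 := by
      exact pow_eq_zero_iff (two_ne_zero) |>.mp h5
    have h7 : Odd (x * A + y * B) := by
      exact (hx.mul hA).add_even (hy.mul_right B)
    rw [h6] at h7
    exact absurd h7 (by decide)

theorem two_sq_unique {p : ℕ} (hp : p.Prime) {x y A B : ℤ} (hx : Odd x) (hy : Even y)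
    (hA : Odd A) (hB : Even B) (h1 : (p : ℤ) = x ^ 2 + y ^ 2) (h2 : (p : ℤ) = A ^ 2 + B ^ 2) :
    x ^ 2 = A ^ 2 := by
  have hd : (p : ℤ) ∣ (x * B - y * A) * (x * B + y * A) := by
    refine ⟨x ^ 2 - A ^ 2, ?_⟩
    have e1 : (x * B - y * A) * (x * B + y * A) = x ^ 2 * B ^ 2 - y ^ 2 * A ^ 2 := by ring
    have e2 : B ^ 2 = p - A ^ 2 := by rw [h2]; ring
    have e3 : y ^ 2 = p - x ^ 2 := by rw [h1]; ring
    rw [e1, e2, e3]; ring
  have hpp : Prime (p : ℤ) := Nat.prime_iff_prime_int.mp hp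
  rcases hpp.dvd_or_dvd hd with h | h
  · exact twosq_aux hp hx hy hA hB h1 h2 h
  · refine twosq_aux hp hx hy.neg hA hB (by rw [h1]; ring) h2 ?_
    have : x * B - -y * A = x * B + y * A := by ring
    rw [this]; exact h

end MPf96
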