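import Pool.Agent.H.MP_f96d9d_nt.BinomJ
import Pool.Agent.H.MP_f96d9d_nt.GaussJ
import Pool.Agent.H.MP_f96d9d_nt.TwoSq
import Pool.Agent.H.MP_f96d9d_nt.Rev

/-!
# `u_a^2 = 4x^2 - 2p` for `p = 4a+1 = x^2+y^2`

`jj^2 = u_a^2` (`j_sq`) is a unit (`unit_u`, `a ≤ n = 2a`), so `jj` is a unit; `jj_unit_sq` gives
`A`, `B`, and `two_sq_unique` gives `A^2 = x^2`.
-/

namespace MPf96

open Finset

variable {p : ℕ} [hp : Fact p.Prime]

theorem u_sq_eq {a : ℕ} (h : p = 4 * a + 1) {x y : ℤ} (hx : Odd x) (hy : Even y)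
    (hxy : (p : ℤ) = x ^ 2 + y ^ 2) :
    (u (half p) a) ^ 2 = 4 * (x : ZMod (p ^ 2)) ^ 2 - 2 * p := by
  have hn : p = 2 * (2 * a) + 1 := by omega
  have hu : IsUnit (u (half p) a) := unit_u hn (by omega)
  have hj : IsUnit (jj p a) := by
    have h1 : IsUnit ((jj p a) ^ 2) := by
      rw [j_sq h]
      exact hu.pow 2
    exact (isUnit_pow_iff two_ne_zero).1 h1
  obtain ⟨A, B, hA, hB, hAB, hJ⟩ := jj_unit_sq h hj
  have hx2 : x ^ 2 = A ^ 2 := two_sq_unique hp.out hx hy hA hB hxy hAB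
  have hx3 : (x : ZMod (p ^ 2)) ^ 2 = (A : ZMod (p ^ 2)) ^ 2 := by exact_mod_cast congrArg (Int.cast : ℤ → ZMod (p ^ 2)) hx2
  rw [← j_sq h, hJ, hx3]

end MPf96
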