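import Mathlib

/-!
# A finite Clausen identity

In `ℚ[X]`: `(∑_j C(n,j) C(n+j,j) X^j)^2 = ∑_i C(n+i,2i) C(2i,i)^2 (X(1+X))^i`.

Proof. Let `w = X + X^2`, `N = n(n+1)`, `D = d/dX` (`D w = 1 + 2X`, `(D w)^2 = 1 + 4w`).
* `P = ∑ a_j X^j` with `a_j = C(n,j) C(n+j,j)` satisfies `(j+1)^2 a_{j+1} = (n-j)(n+j+1) a_j
  = (N - j(j+1)) a_j` (all `j`), which says `D(w DP) = N P` (compare coefficients:
  `[X^j] D(w DP) = (j+1) [X^(j+1)] (w DP) = (j+1)((j+1) a_{j+1} + j a_j)`).
* `Q = P^2`: `w DQ = 2 P (w DP)`; `D(w DQ) = 2 DP (w DP) + 2 N P^2`; so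
  `w (D(w DQ) - 2 N Q) = 2 (w DP)^2`, whose derivative is `4 (w DP) N P = 2 N w DQ`. Hence
  `(ODE)  D(w D(w DQ)) = 4 N w DQ + 2 N (Dw) Q`   [`D(w (D(w DQ) - 2NQ)) = 2 N w DQ`].
* `Z = ∑ c_i w^i` with `c_i = C(n+i,2i) C(2i,i)^2`; `(i+1)^3 c_{i+1} = 2(2i+1)(N - i(i+1)) c_i`.
  For `Z = ∑ c_i w^i`: `w D(w^i) = i w^i Dw`; `D(w D (w^i)) = i^2 w^(i-1) (1+4w) + 2 i w^i`,
  `w D(w D(w^i)) = i^2 w^i + (4 i^2 + 2 i) w^(i+1)`, so
  `D(w D(w D(w^i))) = (i^3 w^(i-1) + (i+1)(4i^2+2i) w^i) Dw`, while the right side of the ODE for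
  `w^i` is `(4 N i + 2 N) w^i Dw`. Summing with the coefficients `c_i` the coefficient of
  `w^i Dw` in left - right is `(i+1)^3 c_{i+1} + 2i(i+1)(2i+1) c_i - 2N(2i+1) c_i = 0`, so `Z`
  satisfies (ODE) (`c_{n+1} = 0`).
* Uniqueness: if `Δ` satisfies (ODE) and has constant coefficient 0 then `Δ = 0`: with
  `w = X + X^2`, by strong induction on `m`, the coefficient of `X^m` in `Δ` vanishes: compare the
  coefficients of `X^(m-1)`: the left side gives `m^3 Δ_m +` (combination of lower `Δ`), the
  right side involves only `Δ_k`, `k < m`. [Equivalently: `X^m ∣ Δ → X^(m+1) ∣ Δ`, `m ≥ 1`.]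
* Both sides have constant coefficient 1.
-/

namespace MPf96

open Polynomial Finset

/-- `w = X (1 + X)` -/
noncomputable def clausen_w : ℚ[X] := X * (1 + X)

/-- the operator of the differential equation -/
noncomputable def clausen_L (N : ℚ) (P : ℚ[X]) : ℚ[X] :=
  derivative (clausen_w * derivative (clausen_w * derivative P)) -
    4 * C N * (clausen_w * derivative P) - 2 * C N * derivative clausen_w * P

theorem clausen_coeffT (P : ℚ[X]) (k : ℕ) :
    (clausen_w * derivative P).coeff (k + 1) = (k + 1) * P.coeff (k + 1) + k * P.coeff k := by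
  have h1 : (clausen_w * derivative P : ℚ[X]) = X * (derivative P + X * derivative P) := by
    unfold clausen_w
    ring
  rw [h1, coeff_X_mul, coeff_add, coeff_derivative]
  cases k with
  | zero =>
    rw [coeff_X_mul_zero]
    push_cast
    ring
  | succ k =>
    rw [coeff_X_mul, coeff_derivative]
    push_cast
    ring

theorem clausen_coeffT0 (P : ℚ[X]) : (clausen_w * derivative P).coeff 0 = 0 := by
  unfold clausen_w
  rw [mul_assoc, coeff_X_mul_zero]

theorem clausen_dw : derivative clausen_w = 1 + 2 * X := by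
  unfold clausen_w
  rw [derivative_mul, derivative_X, derivative_add, derivative_one, derivative_X]
  ring

theorem clausen_L_sub (N : ℚ) (P Q : ℚ[X]) :
    clausen_L N (P - Q) = clausen_L N P - clausen_L N Q := by
  unfold clausen_L
  simp only [derivative_sub, mul_sub]
  ring

theorem clausen_L_add (N : ℚ) (P Q : ℚ[X]) :
    clausen_L N (P + Q) = clausen_L N P + clausen_L N Q := by
  unfold clausen_L
  simp only [derivative_add, mul_add]
  ring

theorem clausen_L_C (N a : ℚ) (P : ℚ[X]) :
    clausen_L N (C a * P) = C a * clausen_L N P := by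
  unfold clausen_L
  have h1 : ∀ Q : ℚ[X], clausen_w * derivative (C a * Q) = C a * (clausen_w * derivative Q) := by
    intro Q
    rw [derivative_C_mul]
    ring
  rw [h1, h1, derivative_C_mul]
  ring

/-- Uniqueness -/
theorem clausen_uniq {N : ℚ} {P : ℚ[X]} (h : clausen_L N P = 0) (h0 : P.coeff 0 = 0) : P = 0 := by
  have key : ∀ m : ℕ, ∀ k ≤ m, P.coeff k = 0 := by
    intro m
    induction m with
    | zero =>
      intro k hk
      rw [Nat.le_zero.1 hk]
      exact h0
    | succ m ih =>
      intro k hk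
      rcases Nat.lt_or_ge k (m + 1) with h1 | h1
      · exact ih k (by omega)
      · have hk' : k = m + 1 := by omega
        subst hk'
        have hT : ∀ k ≤ m, (clausen_w * derivative P).coeff k = 0 := by
          intro k hk
          rcases Nat.eq_zero_or_pos k with h2 | h2
          · rw [h2]
            exact clausen_coeffT0 P
          · obtain ⟨j, rfl⟩ : ∃ j, k = j + 1 := ⟨k - 1, by omega⟩
            rw [clausen_coeffT, ih _ hk, ih j (by omega)]
            ring
        have hT1 : (clausen_w * derivative P).coeff (m + 1) = (m + 1) * P.coeff (m + 1) := by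
          rw [clausen_coeffT, ih m le_rfl]
          ring
        have hL := congrArg (fun Q : ℚ[X] => Q.coeff m) h
        simp only [clausen_L, coeff_sub, coeff_zero, coeff_derivative, clausen_coeffT, hT1] at hL
        have h3 : (2 * C N * derivative clausen_w * P : ℚ[X]).coeff m = 0 := by
          have h4 : (2 * C N * derivative clausen_w * P : ℚ[X]) =
              C (2 * N) * (P + C 2 * (X * P)) := by
            rw [clausen_dw, C_mul]
            have : (C 2 : ℚ[X]) = 2 := rfl
            rw [this]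
            ring
          rw [h4, coeff_C_mul, coeff_add, coeff_C_mul, ih m le_rfl]
          cases m with
          | zero => simp
          | succ m => rw [coeff_X_mul, ih m (by omega)]; ring
        have h5 : (4 * C N * (clausen_w * derivative P) : ℚ[X]).coeff m = 0 := by
          have h4 : (4 * C N * (clausen_w * derivative P) : ℚ[X]) =
              C (4 * N) * (clausen_w * derivative P) := by
            rw [C_mul]
            rfl
          rw [h4, coeff_C_mul, hT m le_rfl, mul_zero]
        rw [h3, h5, hT m le_rfl] at hL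
        have h6 : ((m : ℚ) + 1) ^ 3 * P.coeff (m + 1) = 0 := by
          linear_combination hL
        have h7 : ((m : ℚ) + 1) ^ 3 ≠ 0 := by positivity
        exact (mul_eq_zero.1 h6).resolve_left h7
  ext k
  rw [coeff_zero]
  exact key k k le_rfl

theorem clausen_sq {N : ℚ} {P : ℚ[X]} (h : derivative (clausen_w * derivative P) = C N * P) :
    clausen_L N (P ^ 2) = 0 := by
  unfold clausen_L
  have h1 : clausen_w * derivative (P ^ 2) = 2 * P * (clausen_w * derivative P) := by
    rw [pow_two, derivative_mul]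
    ring
  have h2 : derivative (2 * P * (clausen_w * derivative P)) =
      2 * derivative P * (clausen_w * derivative P) + 2 * C N * (P * P) := by
    rw [derivative_mul, h, derivative_mul]
    have : derivative (2 : ℚ[X]) = 0 := derivative_ofNat 2
    rw [this]
    ring
  have h3 : clausen_w * (2 * derivative P * (clausen_w * derivative P) + 2 * C N * (P * P)) =
      2 * ((clausen_w * derivative P) * (clausen_w * derivative P)) +
        2 * (C N * (clausen_w * (P * P))) := by ring
  rw [h1, h2, h3, derivative_add, derivative_mul, derivative_mul (f := clausen_w * derivative P),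
    h, derivative_mul (f := (2 : ℚ[X])) (g := C N * _), derivative_C_mul, derivative_mul,
    derivative_mul (f := P)]
  have h4 : derivative (2 : ℚ[X]) = 0 := derivative_ofNat 2
  rw [h4]
  ring

theorem clausen_a (n j : ℕ) :
    ((j : ℚ) + 1) ^ 2 * ((n.choose (j + 1) * (n + (j + 1)).choose (j + 1) : ℕ) : ℚ) =
      ((n : ℚ) * (n + 1) - j * (j + 1)) * ((n.choose j * (n + j).choose j : ℕ) : ℚ) := by
  have h1 : (n.choose (j + 1) : ℚ) * (j + 1) = n.choose j * (n - j) := by
    rcases Nat.lt_or_ge n j with h | h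
    · rw [Nat.choose_eq_zero_of_lt h, Nat.choose_eq_zero_of_lt (by omega)]
      simp
    · have h2 := Nat.choose_succ_right_eq n j
      have h3 : ((n - j : ℕ) : ℚ) = n - j := Nat.cast_sub h
      rw [← h3]
      exact_mod_cast h2
  have h2 : ((n + (j + 1)).choose (j + 1) : ℚ) * (j + 1) = (n + j + 1) * (n + j).choose j := by
    have h3 := Nat.add_one_mul_choose_eq (n + j) j
    rw [← Nat.add_assoc]
    exact_mod_cast h3.symm
  push_cast
  have h3 : ((j : ℚ) + 1) ^ 2 * ((n.choose (j + 1) : ℚ) * ((n + (j + 1)).choose (j + 1) : ℚ)) =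
      ((n.choose (j + 1) : ℚ) * (j + 1)) * (((n + (j + 1)).choose (j + 1) : ℚ) * (j + 1)) := by ring
  rw [h3, h1, h2]
  ring

theorem clausen_P (n : ℕ) : derivative (clausen_w * derivative
    (∑ j ∈ range (n + 1), C ((n.choose j * (n + j).choose j : ℕ) : ℚ) * X ^ j)) =
      C ((n : ℚ) * (n + 1)) *
        (∑ j ∈ range (n + 1), C ((n.choose j * (n + j).choose j : ℕ) : ℚ) * X ^ j) := by
  set P : ℚ[X] := ∑ j ∈ range (n + 1), C ((n.choose j * (n + j).choose j : ℕ) : ℚ) * X ^ j with hP
  have hc : ∀ k, P.coeff k = ((n.choose k * (n + k).choose k : ℕ) : ℚ) := by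
    intro k
    rw [hP, finset_sum_coeff]
    simp only [coeff_C_mul, coeff_X_pow]
    rcases Nat.lt_or_ge n k with h | h
    · rw [Nat.choose_eq_zero_of_lt h, Finset.sum_eq_zero]
      · simp
      · intro j hj
        have : k ≠ j := by
          have := Finset.mem_range.1 hj
          omega
        rw [if_neg this, mul_zero]
    · rw [Finset.sum_eq_single k]
      · rw [if_pos rfl, mul_one]
      · intro j _ hj
        rw [if_neg hj.symm, mul_zero]
      · intro hk
        exact absurd (Finset.mem_range.2 (by omega)) hk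
  ext k
  rw [coeff_derivative, clausen_coeffT, coeff_C_mul, hc, hc]
  have h1 := clausen_a n k
  linear_combination h1

theorem clausen_pow (N : ℚ) (i : ℕ) : clausen_L N (clausen_w ^ i) =
    (C ((i : ℚ) ^ 3) * clausen_w ^ (i - 1) +
      C (2 * (2 * i + 1) * (i * (i + 1) - N)) * clausen_w ^ i) * derivative clausen_w := by
  have hv2 : derivative clausen_w * derivative clausen_w = 1 + 4 * clausen_w := by
    rw [clausen_dw]
    unfold clausen_w
    ring
  have hdv : derivative (derivative clausen_w) = 2 := by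
    rw [clausen_dw, derivative_add, derivative_one, derivative_mul, derivative_X]
    have h4 : derivative (2 : ℚ[X]) = 0 := derivative_ofNat 2
    rw [h4]
    ring
  cases i with
  | zero =>
    unfold clausen_L
    rw [pow_zero, derivative_one, mul_zero, derivative_zero, mul_zero, derivative_zero]
    simp only [C_mul, C_sub, C_add, C_pow, Nat.cast_zero, C_0, C_1]
    have : (C 2 : ℚ[X]) = 2 := rfl
    rw [this]
    ring
  | succ j =>
    have hd : ∀ m : ℕ, derivative (clausen_w ^ (m + 1)) =
        C ((m : ℚ) + 1) * clausen_w ^ m * derivative clausen_w := by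
      intro m
      rw [derivative_pow_succ]
    unfold clausen_L
    have e1 : clausen_w * derivative (clausen_w ^ (j + 1)) =
        C ((j : ℚ) + 1) * (clausen_w ^ (j + 1) * derivative clausen_w) := by
      rw [hd, pow_succ]
      ring
    have e2 : clausen_w * derivative (C ((j : ℚ) + 1) * (clausen_w ^ (j + 1) * derivative clausen_w)) =
        C ((j : ℚ) + 1) * (C ((j : ℚ) + 1) * clausen_w ^ (j + 1) +
          C (4 * ((j : ℚ) + 1) + 2) * clausen_w ^ (j + 1 + 1)) := by
      rw [derivative_C_mul, derivative_mul, hd, hdv]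
      have h1 : (C (4 * ((j : ℚ) + 1) + 2) : ℚ[X]) = 4 * C ((j : ℚ) + 1) + 2 := by
        rw [C_add, C_mul]
        rfl
      rw [h1, pow_succ clausen_w (j + 1), pow_succ clausen_w j]
      linear_combination (C ((j : ℚ) + 1) * C ((j : ℚ) + 1) * clausen_w ^ j * clausen_w) * hv2
    rw [e1, e2, derivative_C_mul, derivative_add, derivative_C_mul, derivative_C_mul, hd, hd,
      Nat.add_sub_cancel]
    have h1 : (C (4 * ((j : ℚ) + 1) + 2) : ℚ[X]) = 4 * C ((j : ℚ) + 1) + 2 := by
      rw [C_add, C_mul]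
      rfl
    have h2 : (C (((j + 1 : ℕ) : ℚ) + 1) : ℚ[X]) = C ((j : ℚ) + 1) + 1 := by
      rw [← C_1, ← C_add]
      push_cast
      rfl
    have h3 : (C (((j + 1 : ℕ) : ℚ) ^ 3) : ℚ[X]) = C ((j : ℚ) + 1) ^ 3 := by
      rw [← C_pow]
      push_cast
      rfl
    have h4 : (C (2 * (2 * ((j + 1 : ℕ) : ℚ) + 1) * (((j + 1 : ℕ) : ℚ) * (((j + 1 : ℕ) : ℚ) + 1) - N)) :
        ℚ[X]) = 2 * (2 * C ((j : ℚ) + 1) + 1) * (C ((j : ℚ) + 1) * (C ((j : ℚ) + 1) + 1) - C N) := by
      push_cast
      simp only [C_mul, C_sub, C_add, C_1]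
      rfl
    rw [h1, h2, h3, h4]
    ring

theorem clausen_c (n i : ℕ) : ((i : ℚ) + 1) ^ 3 *
    (((n + (i + 1)).choose (2 * (i + 1)) * (Nat.centralBinom (i + 1)) ^ 2 : ℕ) : ℚ) =
      2 * (2 * i + 1) * ((n : ℚ) * (n + 1) - i * (i + 1)) *
        (((n + i).choose (2 * i) * (Nat.centralBinom i) ^ 2 : ℕ) : ℚ) := by
  have h1 : ((n + (i + 1)).choose (2 * (i + 1)) : ℚ) * ((2 * i + 2) * (2 * i + 1)) =
      (n + i + 1) * (n - i) * (n + i).choose (2 * i) := by
    have e1 := Nat.add_one_mul_choose_eq (n + i) (2 * i + 1)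
    have e1' : ((n : ℚ) + i + 1) * ((n + i).choose (2 * i + 1) : ℚ) =
        ((n + (i + 1)).choose (2 * (i + 1)) : ℚ) * (2 * i + 2) := by
      have e2 : n + (i + 1) = n + i + 1 := by ring
      have e3 : 2 * (i + 1) = 2 * i + 1 + 1 := by ring
      rw [e2, e3]
      have e4 : (((n + i + 1) * (n + i).choose (2 * i + 1) : ℕ) : ℚ) =
          (((n + i + 1).choose (2 * i + 1 + 1) * (2 * i + 1 + 1) : ℕ) : ℚ) := by rw [e1]
      push_cast at e4
      linear_combination e4
    have e5 : ((n + i).choose (2 * i + 1) : ℚ) * (2 * i + 1) = (n + i).choose (2 * i) * (n - i) := by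
      rcases Nat.lt_or_ge n i with h | h
      · rw [Nat.choose_eq_zero_of_lt (by omega : n + i < 2 * i),
          Nat.choose_eq_zero_of_lt (by omega : n + i < 2 * i + 1)]
        simp
      · have e6 := Nat.choose_succ_right_eq (n + i) (2 * i)
        have e7 : ((n + i - 2 * i : ℕ) : ℚ) = n - i := by
          rw [Nat.cast_sub (by omega)]
          push_cast
          ring
        have e8 : (((n + i).choose (2 * i + 1) * (2 * i + 1) : ℕ) : ℚ) =
            (((n + i).choose (2 * i) * (n + i - 2 * i) : ℕ) : ℚ) := by rw [e6]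
        rw [Nat.cast_mul, Nat.cast_mul, e7] at e8
        push_cast at e8
        exact e8
    linear_combination (-(2 * (i : ℚ) + 1)) * e1' + ((n : ℚ) + i + 1) * e5
  have h2 : ((i : ℚ) + 1) * (Nat.centralBinom (i + 1) : ℚ) = 2 * (2 * i + 1) * Nat.centralBinom i := by
    have e1 := Nat.succ_mul_centralBinom_succ i
    exact_mod_cast e1
  push_cast
  have h3 : ((i : ℚ) + 1) ^ 3 * (((n + (i + 1)).choose (2 * (i + 1)) : ℚ) *
      (Nat.centralBinom (i + 1) : ℚ) ^ 2) = ((i : ℚ) + 1) *
      ((n + (i + 1)).choose (2 * (i + 1)) : ℚ) *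
      (((i : ℚ) + 1) * (Nat.centralBinom (i + 1) : ℚ)) ^ 2 := by ring
  rw [h3, h2]
  linear_combination (2 * (2 * (i : ℚ) + 1) * (Nat.centralBinom i : ℚ) ^ 2) * h1

theorem clausen_Z (n m : ℕ) : clausen_L ((n : ℚ) * (n + 1)) (∑ i ∈ range m,
    C (((n + i).choose (2 * i) * (Nat.centralBinom i) ^ 2 : ℕ) : ℚ) * clausen_w ^ i) =
      -(C ((m : ℚ) ^ 3 * (((n + m).choose (2 * m) * (Nat.centralBinom m) ^ 2 : ℕ) : ℚ)) *
        clausen_w ^ (m - 1) * derivative clausen_w) := by
  induction m with
  | zero =>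
    simp [clausen_L]
  | succ m ih =>
    rw [Finset.sum_range_succ, clausen_L_add, ih, clausen_L_C, clausen_pow, Nat.add_sub_cancel]
    have h1 := clausen_c n m
    have h2 : (C ((((m + 1 : ℕ) : ℚ)) ^ 3 * (((n + (m + 1)).choose (2 * (m + 1)) *
        (Nat.centralBinom (m + 1)) ^ 2 : ℕ) : ℚ)) : ℚ[X]) =
        -(C (2 * (2 * m + 1) * (m * (m + 1) - (n : ℚ) * (n + 1))) *
        C ((((n + m).choose (2 * m) * (Nat.centralBinom m) ^ 2 : ℕ) : ℚ))) := by
      rw [← C_mul, ← C_neg]
      congr 1
      rw [Nat.cast_add, Nat.cast_one, h1]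
      ring
    rw [h2, C_mul (a := (m : ℚ) ^ 3)]
    ring

theorem clausen (n : ℕ) :
    (∑ j ∈ range (n + 1), C ((n.choose j * (n + j).choose j : ℕ) : ℚ) * X ^ j) ^ 2 =
      ∑ i ∈ range (n + 1),
        C (((n + i).choose (2 * i) * (Nat.centralBinom i) ^ 2 : ℕ) : ℚ) * (X * (1 + X)) ^ i := by
  have hw : (X * (1 + X) : ℚ[X]) = clausen_w := rfl
  rw [hw, ← sub_eq_zero]
  refine clausen_uniq (N := (n : ℚ) * (n + 1)) ?_ ?_
  · rw [clausen_L_sub, clausen_sq (clausen_P n), clausen_Z]
    have h1 : (n + (n + 1)).choose (2 * (n + 1)) = 0 := Nat.choose_eq_zero_of_lt (by omega)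
    rw [h1]
    simp
  · rw [coeff_sub, coeff_zero_eq_eval_zero, coeff_zero_eq_eval_zero, eval_pow, eval_finset_sum,
      eval_finset_sum, Finset.sum_eq_single 0, Finset.sum_eq_single 0]
    · simp [clausen_w]
    · intro j _ hj
      simp [clausen_w, hj]
    · intro h
      exact absurd (Finset.mem_range.2 (Nat.succ_pos n)) h
    · intro j _ hj
      simp [hj]
    · intro h
      exact absurd (Finset.mem_range.2 (Nat.succ_pos n)) h

end MPf96
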