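import Pool.Agent.H.MP_f96d9d_nt.Clausen

/-!
# Two integer specialisations of the Clausen identity

* For a field `K` of characteristic 0 and `y : K` (`clausen_field`):
  `(∑_j C(n,j)C(n+j,j) y^j)^2 = ∑_i C(n+i,2i) C(2i,i)^2 (y(1+y))^i` (map `clausen` to `K` and
  evaluate).
* `CLa`: `y = 1` (in `ℚ`).
* `trin`: for `y s v λ` in a commutative ring `K` with `λ (1+2y) = v + 2 s` and
  `λ^2 y (1+y) = s^2`:
  `λ^n ∑_j C(n,j)C(n+j,j) y^j = ∑_j C(n,j) C(2j,j) s^j v^(n-j)`.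
  Proof: both sides are the coefficient of `X^n` in a polynomial:
  `∑_j C(n,j) C(n+j,j) y^j = [X^n] ((X+y)^n (X+y+1)^n)` since with `Z = X + y`
  `Z^n (Z+1)^n = ∑_j C(n,j) Z^(n+j)` and `[X^n] (X+y)^(n+j) = C(n+j,n) y^j`
  (`Polynomial.coeff_X_add_C_pow`). And
  `∑_j C(n,j) C(2j,j) s^j v^(n-j) = [X^n] ((X+s)^2 + v X)^n` since
  `((X+s)^2 + v X)^n = ∑_j C(n,j) (X+s)^(2j) v^(n-j) X^(n-j)` and
  `[X^j] (X+s)^(2j) = C(2j,j) s^j`. Finally `(X+y)(X+y+1) = X^2 + (1+2y) X + y(1+y)` and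
  `(X+s)^2 + vX = X^2 + (v+2s) X + s^2 = X^2 + λ(1+2y) X + λ^2 y(1+y)`; for
  `q(X) = X^2 + bX + c`, `[X^n] (X^2 + λ b X + λ^2 c)^n = λ^n [X^n] q^n`: for instance because
  `(λX)^2 + λ b (λX) + λ^2 c = λ^2 q(X)`, i.e. substituting `λ X` (Polynomial.comp / scaleRoots /
  `coeff` of `comp (C λ * X)`: `[X^n] f(λX) = λ^n [X^n] f`) gives
  `λ^n [X^n] (X^2 + λbX + λ^2c)^n = λ^(2n) [X^n] q^n`; cancel `λ^n` (assume `λ ≠ 0` in a field).
* `CLb`: in `ℝ` take `λ = √2`, `s = 1/4`, `v = 1`, `y = (3/(2√2) - 1)/2`, so that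
  `λ(1+2y) = 3/2 = v + 2s`, `y(1+y) = ((1+2y)^2-1)/4 = (9/8-1)/4 = 1/32`, `λ^2 y(1+y) = 1/16`.
  Then `(∑_j C(n,j) C(2j,j) 4^(-j))^2 = 2^n ∑_i C(n+i,2i) C(2i,i)^2 32^(-i)`; multiply by `16^n`
  (`2^n 16^n = 32^n`) and cast to `ℤ`.
-/

namespace MPf96

open Polynomial Finset

theorem clausen_field {K : Type*} [Field K] [CharZero K] (n : ℕ) (y : K) :
    (∑ j ∈ range (n + 1), ((n.choose j * (n + j).choose j : ℕ) : K) * y ^ j) ^ 2 =
      ∑ i ∈ range (n + 1),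
        (((n + i).choose (2 * i) * (Nat.centralBinom i) ^ 2 : ℕ) : K) * (y * (1 + y)) ^ i := by
  have h := congrArg (Polynomial.aeval y) (clausen n)
  simp only [map_sum, map_pow, map_mul, aeval_X, map_add, map_one, map_natCast] at h
  exact h

theorem clausenint_A {K : Type*} [Field K] (n : ℕ) (y : K) :
    (((X + C y) * (X + C y + 1)) ^ n : K[X]).coeff n =
      ∑ j ∈ range (n + 1), ((n.choose j * (n + j).choose j : ℕ) : K) * y ^ j := by
  rw [mul_pow, add_pow (X + C y) 1 n, mul_sum, finsetSum_coeff]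
  refine sum_congr rfl fun j _ => ?_
  have h1 : (X + C y) ^ n * ((X + C y) ^ j * 1 ^ (n - j) * (n.choose j : K[X])) =
      C ((n.choose j : ℕ) : K) * (X + C y) ^ (n + j) := by
    rw [pow_add, one_pow, map_natCast]
    ring
  rw [h1, coeff_C_mul, coeff_X_add_C_pow, Nat.add_sub_cancel_left, Nat.choose_symm_add]
  push_cast
  ring

theorem clausenint_B {K : Type*} [Field K] (n : ℕ) (s v : K) :
    (((X + C s) ^ 2 + C v * X) ^ n : K[X]).coeff n =
      ∑ j ∈ range (n + 1), ((n.choose j * Nat.centralBinom j : ℕ) : K) * s ^ j * v ^ (n - j) := by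
  rw [add_pow, finsetSum_coeff]
  refine sum_congr rfl fun j hj => ?_
  have hj' : j ≤ n := Nat.lt_succ_iff.1 (mem_range.1 hj)
  have h1 : ((X + C s) ^ 2) ^ j * (C v * X) ^ (n - j) * (n.choose j : K[X]) =
      C ((n.choose j : ℕ) * v ^ (n - j) : K) * (X + C s) ^ (2 * j) * X ^ (n - j) := by
    rw [← pow_mul, mul_pow, map_mul, map_pow, map_natCast]
    ring
  have h2 : n = j + (n - j) := (Nat.add_sub_cancel' hj').symm
  have h3 : (C ((n.choose j : ℕ) * v ^ (n - j) : K) * (X + C s) ^ (2 * j) * X ^ (n - j)).coeff n =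
      (C ((n.choose j : ℕ) * v ^ (n - j) : K) * (X + C s) ^ (2 * j)).coeff j := by
    conv_lhs => rw [show (coeff (C ((n.choose j : ℕ) * v ^ (n - j) : K) * (X + C s) ^ (2 * j) *
      X ^ (n - j)) n) = coeff (C ((n.choose j : ℕ) * v ^ (n - j) : K) * (X + C s) ^ (2 * j) *
      X ^ (n - j)) (j + (n - j)) from congrArg _ h2]
    exact coeff_mul_X_pow _ _ _
  rw [h1, h3, coeff_C_mul, coeff_X_add_C_pow]
  have h4 : 2 * j - j = j := by omega
  rw [h4, ← Nat.centralBinom_eq_two_mul_choose]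
  push_cast
  ring

theorem trin {K : Type*} [Field K] (n : ℕ) (y s v l : K) (hl : l ≠ 0)
    (e1 : l * (1 + 2 * y) = v + 2 * s) (e2 : l ^ 2 * (y * (1 + y)) = s ^ 2) :
    l ^ n * ∑ j ∈ range (n + 1), ((n.choose j * (n + j).choose j : ℕ) : K) * y ^ j =
      ∑ j ∈ range (n + 1), ((n.choose j * Nat.centralBinom j : ℕ) : K) * s ^ j * v ^ (n - j) := by
  rw [← clausenint_A, ← clausenint_B]
  have c1 : C l * (1 + 2 * C y) = (C v + 2 * C s : K[X]) := by
    have := congrArg (C : K → K[X]) e1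
    simpa only [map_mul, map_add, map_one, map_ofNat] using this
  have c2 : C l ^ 2 * (C y * (1 + C y)) = (C s ^ 2 : K[X]) := by
    have := congrArg (C : K → K[X]) e2
    simpa only [map_mul, map_add, map_one, map_pow] using this
  have h1 : ((X + C s) ^ 2 + C v * X : K[X]).comp (C l * X) =
      C (l ^ 2) * ((X + C y) * (X + C y + 1)) := by
    simp only [add_comp, mul_comp, pow_comp, X_comp, C_comp, map_pow]
    linear_combination (-(C l * X)) * c1 - c2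
  have h2 : (((X + C s) ^ 2 + C v * X) ^ n : K[X]).comp (C l * X) =
      C (l ^ (2 * n)) * ((X + C y) * (X + C y + 1)) ^ n := by
    rw [pow_comp, h1, mul_pow, ← map_pow, ← pow_mul]
  have h3 := congrArg (fun f => coeff f n) h2
  simp only [comp_C_mul_X_coeff, coeff_C_mul] at h3
  have h4 : l ^ n ≠ 0 := pow_ne_zero _ hl
  have h5 : l ^ (2 * n) = l ^ n * l ^ n := by rw [two_mul, pow_add]
  rw [h5] at h3
  apply mul_right_cancel₀ h4
  rw [h3]
  ring

theorem CLa (n : ℕ) :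
    (∑ j ∈ range (n + 1), ((n.choose j : ℤ) * ((n + j).choose j : ℤ))) ^ 2 =
      ∑ i ∈ range (n + 1),
        ((n + i).choose (2 * i) : ℤ) * (Nat.centralBinom i : ℤ) ^ 2 * 2 ^ i := by
  have h := clausen_field (K := ℚ) n 1
  have e : (1 : ℚ) * (1 + 1) = 2 := by norm_num
  simp only [one_pow, mul_one, e] at h
  have h' : ((∑ j ∈ range (n + 1), ((n.choose j : ℤ) * ((n + j).choose j : ℤ)) : ℤ) : ℚ) ^ 2 =
      ((∑ i ∈ range (n + 1),
        ((n + i).choose (2 * i) : ℤ) * (Nat.centralBinom i : ℤ) ^ 2 * 2 ^ i : ℤ) : ℚ) := by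
    push_cast at h ⊢
    exact h
  exact_mod_cast h'

theorem CLb (n : ℕ) :
    (∑ j ∈ range (n + 1), (n.choose j : ℤ) * (Nat.centralBinom j : ℤ) * 4 ^ (n - j)) ^ 2 =
      ∑ i ∈ range (n + 1),
        ((n + i).choose (2 * i) : ℤ) * (Nat.centralBinom i : ℤ) ^ 2 * 32 ^ (n - i) := by
  obtain ⟨l, hl⟩ : ∃ l : ℝ, l = Real.sqrt 2 := ⟨_, rfl⟩
  have hl2 : l ^ 2 = 2 := by
    rw [hl]
    exact Real.sq_sqrt (by norm_num)
  have hl0 : l ≠ 0 := by
    intro h
    rw [h] at hl2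
    norm_num at hl2
  obtain ⟨z, hz⟩ : ∃ z : ℝ, z = 3 / (2 * l) := ⟨_, rfl⟩
  have hlz : l * z = 3 / 2 := by
    rw [hz]
    field_simp
  have hz2 : z ^ 2 = 9 / 8 := by
    have h1 : (l * z) ^ 2 = (3 / 2) ^ 2 := by rw [hlz]
    rw [mul_pow, hl2] at h1
    linarith
  have hyy : (z - 1) / 2 * (1 + (z - 1) / 2) = 1 / 32 := by
    have : (z - 1) / 2 * (1 + (z - 1) / 2) = (z ^ 2 - 1) / 4 := by ring
    rw [this, hz2]
    norm_num
  have h1 := clausen_field (K := ℝ) n ((z - 1) / 2)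
  rw [hyy] at h1
  have h2 := trin n ((z - 1) / 2) (1 / 4) 1 l hl0
    (by
      have : l * (1 + 2 * ((z - 1) / 2)) = l * z := by ring
      rw [this, hlz]
      norm_num)
    (by
      rw [hyy, hl2]
      norm_num)
  have h3 : (4 : ℝ) ^ n * ∑ j ∈ range (n + 1),
      ((n.choose j * Nat.centralBinom j : ℕ) : ℝ) * (1 / 4) ^ j * 1 ^ (n - j) =
      ∑ j ∈ range (n + 1), (n.choose j : ℝ) * (Nat.centralBinom j : ℝ) * 4 ^ (n - j) := by
    rw [mul_sum]
    refine sum_congr rfl fun j hj => ?_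
    have hj' : j ≤ n := Nat.lt_succ_iff.1 (mem_range.1 hj)
    have e4 : (4 : ℝ) ^ n = 4 ^ (n - j) * 4 ^ j := by
      rw [← pow_add, Nat.sub_add_cancel hj']
    have e5 : (4 : ℝ) ^ j * (1 / 4) ^ j = 1 := by
      rw [← mul_pow]
      norm_num
    rw [e4, one_pow]
    push_cast
    linear_combination ((n.choose j : ℝ) * (Nat.centralBinom j : ℝ) * 4 ^ (n - j)) * e5
  have h4 : (32 : ℝ) ^ n * ∑ i ∈ range (n + 1),
      (((n + i).choose (2 * i) * (Nat.centralBinom i) ^ 2 : ℕ) : ℝ) * (1 / 32) ^ i =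
      ∑ i ∈ range (n + 1),
        ((n + i).choose (2 * i) : ℝ) * (Nat.centralBinom i : ℝ) ^ 2 * 32 ^ (n - i) := by
    rw [mul_sum]
    refine sum_congr rfl fun j hj => ?_
    have hj' : j ≤ n := Nat.lt_succ_iff.1 (mem_range.1 hj)
    have e4 : (32 : ℝ) ^ n = 32 ^ (n - j) * 32 ^ j := by
      rw [← pow_add, Nat.sub_add_cancel hj']
    have e5 : (32 : ℝ) ^ j * (1 / 32) ^ j = 1 := by
      rw [← mul_pow]
      norm_num
    rw [e4]
    push_cast
    linear_combination (((n + j).choose (2 * j) : ℝ) * (Nat.centralBinom j : ℝ) ^ 2 *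
      32 ^ (n - j)) * e5
  have h5 : ((∑ j ∈ range (n + 1), (n.choose j : ℝ) * (Nat.centralBinom j : ℝ) * 4 ^ (n - j))) ^ 2 =
      ∑ i ∈ range (n + 1),
        ((n + i).choose (2 * i) : ℝ) * (Nat.centralBinom i : ℝ) ^ 2 * 32 ^ (n - i) := by
    rw [← h3, ← h2, ← h4, ← h1]
    have e6 : (32 : ℝ) ^ n = (4 ^ n) ^ 2 * (l ^ n) ^ 2 := by
      rw [← pow_mul, ← pow_mul, mul_comm n 2, pow_mul, pow_mul, hl2, ← mul_pow]
      norm_num
    rw [e6]
    ring
  exact_mod_cast h5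

end MPf96
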