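import Pool.Agent.H.MP_f96d9d_nt.BlockA
import Pool.Agent.H.MP_f96d9d_nt.BlockB

/-!
# The bottom coefficient `Y_n`

`p = 2n+1`. `P = PP (half p) p = ∑_{k<p} T_k^3 X^(p-1-k)`, `Y = (1-X) P`, so `Y_m = P_m - P_{m-1}`;
since `Y_m = 0` for `m < n` (`Y_low`), `P_m = 0` for `m < n` and `Y_n = P_n`.
`P_n = ∑_{k<p} [X^n](T_k^3 X^(p-1-k))`; the terms with `p-1-k > n`, i.e. `k < n`, vanish; the
term `k = n` is `[X^0] T_n^3 = u_n^3`; for `k = n + i`, `1 ≤ i ≤ n`, the term is `[X^i] T_{n+i}^3`.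
This is 0: in `T_{n+i} = ∑_j u_j u_{n+i-j} X^j` the coefficients with `j < i` are multiples of
`p` (`u_big`, `n < n+i-j < p`), so `T_{n+i} = X^i Q + p S` with polynomials `Q`, `S`, and
`T_{n+i}^3 = X^(2i) (X^i Q^3 + 3 p Q^2 S)` since `p^2 = 0`; the coefficient of `X^i` with `i < 2i`
vanishes. Hence `Y_n = u_n^3`.
`Y_{p-1}`: by `Y_chain1` with `j = n` (`p - 1 - n = n`): `Y_n = Y_{p-1} (-1)^n u_n^3`, and `u_n` is
a unit (`unit_u`), so `Y_{p-1} = (-1)^n`.
-/

namespace MPf96

open Polynomial Finset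

variable {p n : ℕ} [hp : Fact p.Prime]

/-- for `1 ≤ i ≤ n`, `X^(2i)` divides `T_{n+i}^3` -/
theorem T_cube_low (hn : p = 2 * n + 1) {i : ℕ} (h1 : 1 ≤ i) (hi : i ≤ n) :
    ∃ W : (ZMod (p ^ 2))[X], (Tp (half p) (n + i)) ^ 3 = X ^ (2 * i) * W := by
  have hz : ∀ j : ℕ, ∃ z : ZMod (p ^ 2), j < i → u (half p) (n + i - j) = (p : ZMod (p ^ 2)) * z := by
    intro j
    by_cases hj : j < i
    · obtain ⟨z, hz⟩ := u_big (p := p) (n := n) hn (j := n + i - j) (by omega) (by omega)
      exact ⟨z, fun _ => hz⟩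
    · exact ⟨0, fun h => absurd h hj⟩
  choose z hz using hz
  have hsplit : Tp (half p) (n + i) =
      C (p : ZMod (p ^ 2)) * (∑ j ∈ range i, C (u (half p) j * z j) * X ^ j) +
        X ^ i * (∑ j ∈ range (n + 1),
          C (u (half p) (i + j) * u (half p) (n + i - (i + j))) * X ^ j) := by
    unfold Tp
    have e : n + i + 1 = i + (n + 1) := by omega
    rw [e, Finset.sum_range_add, Finset.mul_sum, Finset.mul_sum]
    congr 1
    · apply Finset.sum_congr rfl
      intro j hj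
      rw [hz j (Finset.mem_range.1 hj)]
      simp only [C_mul]
      ring
    · apply Finset.sum_congr rfl
      intro j _
      rw [pow_add]
      ring
  have hpp : (C (p : ZMod (p ^ 2)) : (ZMod (p ^ 2))[X]) ^ 2 = 0 := by
    rw [← C_pow, p_sq, C_0]
  rw [hsplit]
  generalize (∑ j ∈ range i, C (u (half p) j * z j) * X ^ j) = S
  generalize (∑ j ∈ range (n + 1),
          C (u (half p) (i + j) * u (half p) (n + i - (i + j))) * X ^ j) = Q
  generalize (C (p : ZMod (p ^ 2)) : (ZMod (p ^ 2))[X]) = c at hpp ⊢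
  refine ⟨3 * c * S * Q ^ 2 + X ^ i * Q ^ 3, ?_⟩
  have e2 : (X : (ZMod (p ^ 2))[X]) ^ (2 * i) = X ^ i * X ^ i := by
    rw [two_mul, pow_add]
  rw [e2]
  linear_combination (c * S ^ 3 + 3 * S ^ 2 * X ^ i * Q) * hpp

theorem coeflow_YY_zero (h : ZMod (p ^ 2)) : (YY h p).coeff 0 = (PP h p).coeff 0 := by
  unfold YY
  rw [sub_mul, one_mul, coeff_sub]
  simp

theorem coeflow_YY_succ (h : ZMod (p ^ 2)) (m : ℕ) :
    (YY h p).coeff (m + 1) = (PP h p).coeff (m + 1) - (PP h p).coeff m := by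
  unfold YY
  rw [sub_mul, one_mul, coeff_sub, coeff_X_mul]

theorem coeflow_PP_low (hn : p = 2 * n + 1) {m : ℕ} (hm : m < n) :
    (PP (half p) p).coeff m = 0 := by
  induction m with
  | zero =>
    rw [← coeflow_YY_zero]
    exact Y_low hn hm
  | succ m ih =>
    have h1 := ih (by omega)
    have h2 := Y_low hn hm
    rw [coeflow_YY_succ, h1, sub_zero] at h2
    exact h2

theorem Y_n (hn : p = 2 * n + 1) : (YY (half p) p).coeff n = (u (half p) n) ^ 3 := by
  have hpos : 0 < n := by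
    rcases Nat.eq_zero_or_pos n with h | h
    · subst h
      exact absurd hn hp.out.one_lt.ne'
    · exact h
  have h1 : (YY (half p) p).coeff n = (PP (half p) p).coeff n := by
    obtain ⟨m, rfl⟩ : ∃ m, n = m + 1 := ⟨n - 1, by omega⟩
    rw [coeflow_YY_succ, coeflow_PP_low (m := m) hn (by omega), sub_zero]
  rw [h1]
  unfold PP
  rw [finsetSum_coeff, Finset.sum_eq_single n]
  · rw [coeff_mul_X_pow', if_pos (by omega)]
    have e : n - (p - 1 - n) = 0 := by omega
    rw [e, coeff_zero_eq_eval_zero, eval_pow, ← coeff_zero_eq_eval_zero, coeff_Tp]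
    simp [u_zero]
  · intro k hk hkn
    have hk' := Finset.mem_range.1 hk
    rw [coeff_mul_X_pow']
    by_cases hlt : k < n
    · rw [if_neg (by omega)]
    · rw [if_pos (by omega)]
      obtain ⟨W, hW⟩ := T_cube_low (p := p) (n := n) hn (i := k - n) (by omega) (by omega)
      have e : n + (k - n) = k := by omega
      rw [e] at hW
      rw [hW, coeff_X_pow_mul', if_neg (by omega)]
  · intro h
    exact absurd (Finset.mem_range.2 (by omega)) h

theorem Y_top1 (hn : p = 2 * n + 1) : (YY (half p) p).coeff (p - 1) = (-1) ^ n := by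
  have h1 := Y_chain1 (p := p) (n := n) hn (j := n) le_rfl
  have e : p - 1 - n = n := by omega
  rw [e, Y_n hn] at h1
  have hu : IsUnit ((u (half p) n) ^ 3) := (unit_u hn le_rfl).pow 3
  have h2 : (YY (half p) p).coeff (p - 1) * (-1) ^ n = 1 := by
    apply cancel_unit hu
    rw [mul_one]
    linear_combination -h1
  have h3 : ((-1 : ZMod (p ^ 2)) ^ n) * (-1) ^ n = 1 := by
    rw [← mul_pow]
    simp
  linear_combination (-1) ^ n * h2 - (YY (half p) p).coeff (p - 1) * h3

end MPf96
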