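import Pool.Agent.H.MP_f96d9d_nt.BlockA

/-!
# The top coefficient `Y_{2p-1}`

`p = 2n+1`. `P = PP (half p) p = ∑_{k<p} T_k^3 X^(p-1-k)`, `Y = (1-X) P`, so `Y_m = P_m - P_{m-1}`;
since `Y_m = 0` for `m ≥ 2p` (`Y_high`) and `P_m = 0` for large `m`, `P_m = 0` for `m ≥ 2p-1`
and `Y_{2p-1} = - P_{2p-2}`.
`P_{2p-2} = ∑_{k<p} [X^(p-1+k)] T_k^3`. `T_k^3` has degree `≤ 3k`, so the terms with `p-1+k > 3k`,
i.e. `k < n`, vanish (`p - 1 = 2n`). The term `k = n` is `[X^(3n)] T_n^3 = u_n^3` (top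
coefficient; `Polynomial.coeff_mul_of_natDegree_le` or `coeff_pow_of_natDegree_le`).
For `k = n + i`, `1 ≤ i ≤ n`, the term is `[X^(3n+i)] T_{n+i}^3`. The coefficients
`u_j u_{n+i-j}` of `T_{n+i}` with `n < j ≤ n+i` are multiples of `p` (`u_big`), so
`T_{n+i} = Q + p S` with `deg Q ≤ n` (`Q = ∑_{j ≤ n}`), `deg S ≤ n+i`, and
`T_{n+i}^3 = Q^3 + 3 Q^2 (p S)`. `deg Q^3 ≤ 3n < 3n+i`, and the coefficient of `X^(3n+i)` in
`3 Q^2 (p S)` is `3 Q_n^2 (pS)_{n+i} = 3 (u_n u_i)^2 u_{n+i}`.
-/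

namespace MPf96

open Polynomial Finset

variable {p n : ℕ} [hp : Fact p.Prime]

theorem coefup_natDegree_T (h : ZMod (p ^ 2)) (k : ℕ) : (Tp h k).natDegree ≤ k := by
  rw [natDegree_le_iff_coeff_eq_zero]
  intro m hm
  rw [coeff_Tp, if_neg (by omega)]

theorem coefup_YY_succ (h : ZMod (p ^ 2)) (m : ℕ) :
    (YY h p).coeff (m + 1) = (PP h p).coeff (m + 1) - (PP h p).coeff m := by
  unfold YY
  rw [sub_mul, one_mul, coeff_sub, coeff_X_mul]

theorem T_cube_up (hn : p = 2 * n + 1) {i : ℕ} (h1 : 1 ≤ i) (hi : i ≤ n) :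
    ((Tp (half p) (n + i)) ^ 3).coeff (3 * n + i) =
      3 * (u (half p) n * u (half p) i) ^ 2 * u (half p) (n + i) := by
  have hz : ∀ j : ℕ, ∃ z : ZMod (p ^ 2), j < i →
      u (half p) (n + 1 + j) = (p : ZMod (p ^ 2)) * z := by
    intro j
    by_cases hj : j < i
    · obtain ⟨z, hz⟩ := u_big (p := p) (n := n) hn (j := n + 1 + j) (by omega) (by omega)
      exact ⟨z, fun _ => hz⟩
    · exact ⟨0, fun h => absurd h hj⟩
  choose z hz using hz
  have hsplit : Tp (half p) (n + i) =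
      (∑ j ∈ range (n + 1), C (u (half p) j * u (half p) (n + i - j)) * X ^ j) +
      C (p : ZMod (p ^ 2)) * (∑ j ∈ range i,
          C (z j * u (half p) (n + i - (n + 1 + j))) * X ^ (n + 1 + j)) := by
    unfold Tp
    have e : n + i + 1 = n + 1 + i := by omega
    rw [e, Finset.sum_range_add, Finset.mul_sum]
    congr 1
    apply Finset.sum_congr rfl
    intro j hj
    rw [hz j (Finset.mem_range.1 hj)]
    simp only [C_mul]
    ring
  have hpp : (C (p : ZMod (p ^ 2)) : (ZMod (p ^ 2))[X]) ^ 2 = 0 := by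
    rw [← C_pow, p_sq, C_0]
  have hQd : (∑ j ∈ range (n + 1),
      C (u (half p) j * u (half p) (n + i - j)) * X ^ j).natDegree ≤ n := by
    apply natDegree_sum_le_of_forall_le
    intro j hj
    have hj' := Finset.mem_range.1 hj
    exact (natDegree_C_mul_X_pow_le _ _).trans (by omega)
  have hTd := coefup_natDegree_T (p := p) (half p) (n + i)
  have hTn : (Tp (half p) (n + i)).coeff (n + i) = u (half p) (n + i) := by
    rw [coeff_Tp, if_pos le_rfl, Nat.sub_self, u_zero, mul_one]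
  have hQn : (∑ j ∈ range (n + 1),
      C (u (half p) j * u (half p) (n + i - j)) * X ^ j).coeff n =
        u (half p) n * u (half p) i := by
    rw [finsetSum_coeff, Finset.sum_eq_single n]
    · rw [coeff_C_mul, coeff_X_pow, if_pos rfl, mul_one]
      congr 2
      omega
    · intro b _ hb
      rw [coeff_C_mul, coeff_X_pow, if_neg (Ne.symm hb), mul_zero]
    · intro h
      exact absurd (Finset.mem_range.2 (by omega)) h
  generalize (∑ j ∈ range (n + 1),
      C (u (half p) j * u (half p) (n + i - j)) * X ^ j) = Q at hsplit hQd hQn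
  generalize (∑ j ∈ range i,
      C (z j * u (half p) (n + i - (n + 1 + j))) * X ^ (n + 1 + j)) = S at hsplit
  have hS : C (p : ZMod (p ^ 2)) * S = Tp (half p) (n + i) - Q := by
    rw [hsplit]
    ring
  have hSd : (C (p : ZMod (p ^ 2)) * S).natDegree ≤ n + i := by
    rw [hS]
    exact (natDegree_sub_le _ _).trans (max_le hTd (by omega))
  have hSn : (C (p : ZMod (p ^ 2)) * S).coeff (n + i) = u (half p) (n + i) := by
    rw [hS, coeff_sub, hTn, coeff_eq_zero_of_natDegree_lt (by omega), sub_zero]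
  have hcube : (Tp (half p) (n + i)) ^ 3 =
      Q ^ 3 + C 3 * (Q ^ 2 * (C (p : ZMod (p ^ 2)) * S)) := by
    have e3 : (C (3 : ZMod (p ^ 2)) : (ZMod (p ^ 2))[X]) = 3 := by
      rw [map_ofNat]
    rw [hsplit, e3]
    generalize (C (p : ZMod (p ^ 2)) : (ZMod (p ^ 2))[X]) = c at hpp ⊢
    linear_combination (c * S ^ 3 + 3 * Q * S ^ 2) * hpp
  have hQ3 : (Q ^ 3).natDegree ≤ 3 * n := natDegree_pow_le_of_le 3 hQd
  have hQ2 : (Q ^ 2).natDegree ≤ 2 * n := natDegree_pow_le_of_le 2 hQd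
  rw [hcube, coeff_add, coeff_eq_zero_of_natDegree_lt (by omega), zero_add, coeff_C_mul]
  have e : 3 * n + i = 2 * n + (n + i) := by omega
  rw [e, coeff_mul_add_eq_of_natDegree_le hQ2 hSd, hSn, coeff_pow_of_natDegree_le hQd, hQn]
  ring

theorem coefup_PP_high (hn : p = 2 * n + 1) {m : ℕ} (hm : 2 * p ≤ m + 1) :
    (PP (half p) p).coeff m = 0 := by
  have h : ∀ k : ℕ, (PP (half p) p).coeff (m + k) = (PP (half p) p).coeff m := by
    intro k
    induction k with
    | zero => rfl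
    | succ k ih =>
      have h2 := Y_high (p := p) (n := n) hn (m := m + k + 1) (by omega)
      rw [coefup_YY_succ, ih] at h2
      exact sub_eq_zero.1 h2
  rw [← h ((PP (half p) p).natDegree + 1)]
  exact coeff_eq_zero_of_natDegree_lt (by omega)

theorem Y_2p1 (hn : p = 2 * n + 1) :
    (YY (half p) p).coeff (2 * p - 1) =
      -((u (half p) n) ^ 3 + 3 * (u (half p) n) ^ 2 *
        ∑ i ∈ range n, (u (half p) (i + 1)) ^ 2 * u (half p) (n + (i + 1))) := by
  have hp1 : 1 < p := hp.out.one_lt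
  have e1 : 2 * p - 1 = (4 * n) + 1 := by omega
  rw [e1, coefup_YY_succ, coefup_PP_high (m := 4 * n + 1) hn (by omega), zero_sub]
  congr 1
  unfold PP
  rw [finsetSum_coeff]
  have hterm : ∀ k ∈ range p, ((Tp (half p) k) ^ 3 * X ^ (p - 1 - k)).coeff (4 * n) =
      ((Tp (half p) k) ^ 3).coeff (2 * n + k) := by
    intro k hk
    have hk' := Finset.mem_range.1 hk
    rw [coeff_mul_X_pow', if_pos (by omega)]
    congr 1
    omega
  rw [Finset.sum_congr rfl hterm]
  have e2 : p = n + (1 + n) := by omega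
  have hsum : ∀ f : ℕ → ZMod (p ^ 2), ∑ k ∈ range p, f k =
      ∑ k ∈ range n, f k + (f n + ∑ i ∈ range n, f (n + (i + 1))) := by
    intro f
    have e3 : range p = range (n + (1 + n)) := by
      congr 1
    rw [e3, Finset.sum_range_add, Finset.sum_range_add]
    congr 1
    congr 1
    · simp
    · apply Finset.sum_congr rfl
      intro i _
      rw [Nat.add_comm 1 i]
  rw [hsum]
  have hlow : ∑ k ∈ range n, ((Tp (half p) k) ^ 3).coeff (2 * n + k) = 0 := by
    apply Finset.sum_eq_zero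
    intro k hk
    have hk' := Finset.mem_range.1 hk
    have hd := natDegree_pow_le_of_le 3 (coefup_natDegree_T (p := p) (half p) k)
    exact coeff_eq_zero_of_natDegree_lt (by omega)
  have hmid : ((Tp (half p) n) ^ 3).coeff (2 * n + n) = (u (half p) n) ^ 3 := by
    have e4 : 2 * n + n = 3 * n := by omega
    rw [e4, coeff_pow_of_natDegree_le (coefup_natDegree_T (p := p) (half p) n), coeff_Tp,
      if_pos le_rfl, Nat.sub_self, u_zero, mul_one]
  have hup : ∀ i ∈ range n, ((Tp (half p) (n + (i + 1))) ^ 3).coeff (2 * n + (n + (i + 1))) =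
      3 * (u (half p) n) ^ 2 * ((u (half p) (i + 1)) ^ 2 * u (half p) (n + (i + 1))) := by
    intro i hi
    have hi' := Finset.mem_range.1 hi
    have e5 : 2 * n + (n + (i + 1)) = 3 * n + (i + 1) := by omega
    rw [e5, T_cube_up (p := p) (n := n) hn (i := i + 1) (by omega) (by omega)]
    ring
  rw [hlow, zero_add, hmid, Finset.sum_congr rfl hup, ← Finset.mul_sum]

end MPf96
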