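import Pool.Agent.H.MP_f96d9d_nt.RecA
import Pool.Agent.H.MP_f96d9d_nt.Rev
import Pool.Agent.H.MP_f96d9d_nt.SumU

/-!
# `n = 2a` even: values of `f_0` and `h_0`

`p = 2n+1`, `n = 2a`, `κ = (-1)^a 2^n`.
* `Tv_neg_one`: `T_{2a}(-1) = u_a` for `2a < p`: `r0v` at `t = -1` reads
  `2(k+2) T_{k+2} = 2(k+1) T_k`; with `k = 2b`: `2(2b+2) T_{2b+2} = 2 (2b+1) T_{2b}`, and
  `2(b+1) u_{b+1} = (2b+1) u_b`; `T_0 = 1 = u_0`; `2(2b+2)` is a unit as `2b+2 < p`.
* `f0_even`: `p (u_j - u_{n-j}) = 0` (by `p_u_rev`, `U = 1 + eta` for `n` even by `H4`,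
  `p eta = 0`), hence `(u_j - u_{n-j})^2 = 0` (`sq_zero`: `p x = 0` in `ZMod (p^2)` gives `x = p z`).
  Multiply by `(-1)^j` and sum: `∑ (-1)^j u_j^2 + ∑ (-1)^j u_{n-j}^2 = 2 ∑ (-1)^j u_j u_{n-j}`;
  the second sum equals the first (reflect, `n` even), so `2 f0 = 2 T_n(-1)`.
* `h0_even`: by `p_u`, `p (u_j - (-1)^j C(n,j)) = 0`, so `(u_j - (-1)^j C(n,j))^2 = 0`; multiply by
  `(-1)^j` and sum: `f0 - 2 h0 + ∑ (-1)^j C(n,j)^2 = 0`. The last sum is the coefficient of `X^n`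
  in `(1-X)^n (1+X)^n = (1-X^2)^n`, i.e. `(-1)^a C(n,a)` (`alt_sq`), and `C(2a,a) = 4^a u_a
  = 2^n u_a = 2^n f0`. So `2 h0 = f0 + κ f0`.
* `kap`: `(κ-1)^2 = 0`: in `ZMod p` we have `2^n = legendreSym p 2 = χ₈ p = (-1)^a` for
  `p = 4a+1` (`legendreSym.eq_pow`, `ZMod.exists_sq_eq_two_iff` or `legendreSym.at_two`,
  `ZMod.χ₈_nat_eq_if_mod_eight`), so `κ = 1` in `ZMod p`, `κ - 1 = p z`.
-/

namespace MPf96

open Finset

variable {p n : ℕ} [hp : Fact p.Prime]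

theorem Tv_neg_one (hn : p = 2 * n + 1) {a : ℕ} (ha : 2 * a < p) :
    Tv (half p) (-1) (2 * a) = u (half p) a := by
  have hp2 : p ≠ 2 := by omega
  have hh : 2 * half p = 1 := two_half hp2
  have h2u : IsUnit ((2 : ℕ) : ZMod (p ^ 2)) :=
    unit_nat (not_dvd_of_lt (by norm_num) (lt_of_le_of_ne hp.out.two_le (Ne.symm hp2)))
  induction a with
  | zero => rw [Nat.mul_zero, Tv_zero, u_zero]
  | succ a ih =>
    have h1 := ih (by omega)
    have h2 := r0v hh (-1 : ZMod (p ^ 2)) (2 * a)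
    have h3 := u_succ hh a
    have h4 : IsUnit ((2 * a + 2 : ℕ) : ZMod (p ^ 2)) :=
      unit_nat (not_dvd_of_lt (by omega) (by omega))
    rw [h1] at h2
    refine cancel_unit (h2u.mul h4) ?_
    rw [show 2 * (a + 1) = 2 * a + 2 by ring]
    push_cast at h2 ⊢
    linear_combination h2 - 2 * h3

/-- If `p x = 0` in `ZMod (p^2)`, then `x ^ 2 = 0`. -/
theorem fevena_sq_zero {x : ZMod (p ^ 2)} (hx : (p : ZMod (p ^ 2)) * x = 0) : x ^ 2 = 0 := by
  have : NeZero (p ^ 2) := ⟨pow_ne_zero 2 hp.out.ne_zero⟩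
  obtain ⟨m, rfl⟩ : ∃ m : ℕ, (m : ZMod (p ^ 2)) = x := ⟨x.val, ZMod.natCast_zmod_val x⟩
  have h1 : ((p * m : ℕ) : ZMod (p ^ 2)) = 0 := by
    rw [Nat.cast_mul]
    exact hx
  rw [ZMod.natCast_eq_zero_iff, pow_two] at h1
  obtain ⟨z, rfl⟩ := Nat.dvd_of_mul_dvd_mul_left hp.out.pos h1
  rw [Nat.cast_mul, mul_pow, p_sq, zero_mul]

open Polynomial in
theorem alt_sq (a : ℕ) :
    ∑ j ∈ range (2 * a + 1), (-1 : ℤ) ^ j * ((2 * a).choose j : ℤ) ^ 2 =
      (-1) ^ a * ((2 * a).choose a : ℤ) := by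
  have h1 : ((1 - X : ℤ[X]) ^ (2 * a) * (1 + X) ^ (2 * a)) =
      expand ℤ 2 ((1 - X) ^ (2 * a)) := by
    rw [← mul_pow, map_pow, map_sub, map_one, expand_X]
    congr 1
    ring
  have h2 : ∀ i, ((1 - X : ℤ[X]) ^ (2 * a)).coeff i = (-1) ^ i * ((2 * a).choose i : ℤ) := by
    intro i
    have h3 : (1 - X : ℤ[X]) ^ (2 * a) = ((1 + X) ^ (2 * a)).comp (C (-1) * X) := by
      simp only [pow_comp, add_comp, one_comp, X_comp, C_neg, C_1, neg_mul, one_mul]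
      rw [← sub_eq_add_neg]
    rw [h3, comp_C_mul_X_coeff, coeff_one_add_X_pow, mul_comm]
  have h3 : ((1 - X : ℤ[X]) ^ (2 * a) * (1 + X) ^ (2 * a)).coeff (2 * a) =
      (expand ℤ 2 ((1 - X) ^ (2 * a))).coeff (2 * a) := by rw [h1]
  rw [coeff_mul, Finset.Nat.sum_antidiagonal_eq_sum_range_succ_mk, mul_comm 2 a,
    coeff_expand_mul (by norm_num), mul_comm a 2, h2] at h3
  rw [← h3]
  refine Finset.sum_congr rfl fun j hj => ?_
  have hj' : j ≤ 2 * a := by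
    have := Finset.mem_range.1 hj
    omega
  rw [h2, coeff_one_add_X_pow, Nat.choose_symm hj']
  push_cast
  ring

theorem f0_even (hn : p = 2 * n + 1) {a : ℕ} (ha : n = 2 * a) : f0 p n = u (half p) a := by
  have hp2 : p ≠ 2 := by omega
  have h2u : IsUnit ((2 : ℕ) : ZMod (p ^ 2)) :=
    unit_nat (not_dvd_of_lt (by norm_num) (lt_of_le_of_ne hp.out.two_le (Ne.symm hp2)))
  have hU : (p : ZMod (p ^ 2)) * u (half p) n = p := by
    have h1 := H4 hn
    have h2 : (-1 : ZMod (p ^ 2)) ^ n = 1 := by rw [ha, pow_mul]; simp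
    have h3 : (2 : ZMod (p ^ 2)) ^ (p - 1) = 1 + eta p := by unfold eta; ring
    rw [h1, h2, h3]
    have h4 := p_eta hn
    linear_combination h4
  have hsq : ∀ j ∈ range (n + 1), (-1 : ZMod (p ^ 2)) ^ j *
      (u (half p) j - u (half p) (n - j)) ^ 2 = 0 := by
    intro j hj
    have hj' : j ≤ n := by
      have := Finset.mem_range.1 hj
      omega
    have h1 : (p : ZMod (p ^ 2)) * (u (half p) j - u (half p) (n - j)) = 0 := by
      have h2 := p_u_rev hn hj'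
      linear_combination -h2 - u (half p) j * hU
    rw [fevena_sq_zero h1, mul_zero]
  have hsum := Finset.sum_eq_zero hsq
  have hrefl : ∑ j ∈ range (n + 1), (-1 : ZMod (p ^ 2)) ^ j * (u (half p) (n - j)) ^ 2 =
      f0 p n := by
    unfold f0
    rw [← Finset.sum_range_reflect]
    refine Finset.sum_congr rfl fun j hj => ?_
    have hj' : j ≤ n := by
      have := Finset.mem_range.1 hj
      omega
    rw [Nat.add_sub_cancel, Nat.sub_sub_self hj']
    congr 1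
    have h1 : (-1 : ZMod (p ^ 2)) ^ (n - j) * (-1) ^ j = 1 := by
      rw [← pow_add, Nat.sub_add_cancel hj', ha, pow_mul]
      simp
    have h2 : (-1 : ZMod (p ^ 2)) ^ j * (-1) ^ j = 1 := by
      rw [← mul_pow]
      simp
    calc (-1 : ZMod (p ^ 2)) ^ (n - j) = (-1) ^ (n - j) * ((-1) ^ j * (-1) ^ j) := by
          rw [h2, mul_one]
      _ = (-1) ^ j := by rw [← mul_assoc, h1, one_mul]
  have hT := Tv_neg_one hn (a := a) (by omega)
  rw [← ha] at hT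
  have hexp : ∑ j ∈ range (n + 1), (-1 : ZMod (p ^ 2)) ^ j *
      (u (half p) j - u (half p) (n - j)) ^ 2 =
      f0 p n + ∑ j ∈ range (n + 1), (-1 : ZMod (p ^ 2)) ^ j * (u (half p) (n - j)) ^ 2 -
        2 * Tv (half p) (-1) n := by
    unfold f0 Tv
    rw [Finset.mul_sum, ← Finset.sum_add_distrib, ← Finset.sum_sub_distrib]
    refine Finset.sum_congr rfl fun j _ => ?_
    ring
  rw [hexp, hrefl, hT] at hsum
  refine cancel_unit h2u ?_
  push_cast
  linear_combination hsum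

end MPf96
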