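import Mathlib

/-!
# The recurrence of the generalized central trinomial coefficients

`T b c n = ∑_j C(n,2j) C(2j,j) c^j b^(n-2j)`. Put
`W n = ∑_j C(n,2j+1) C(2j+1,j) c^(j+1) b^(n-1-2j)` (natural subtraction; where `2j+1 > n` the
binomial vanishes; sum over `j < N` for any `N ≥ n+1`, the extra terms vanish).
* `T (n+1) = b T n + 2 W n`: `C(n+1,2j) = C(n,2j) + C(n,2j-1)`, `C(2j,j) = 2 C(2j-1,j-1)`
  for `j ≥ 1`. (`b^(n+1-2j) = b b^(n-2j)` whenever `2j ≤ n`.)
* `(m+2) W (m+1) = (m+1) (2c T m + b W m)`: termwise,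
  `(m+2) C(m+1,2j+1) C(2j+1,j) = (m+1) (2 C(m,2j) C(2j,j) + C(m,2j+1) C(2j+1,j))`, by
  `(m+1) C(m,2j) = (2j+1) C(m+1,2j+1)`, `(j+1) C(2j+1,j) = (2j+1) C(2j,j)`,
  `(m+1) C(m,2j+1) = (m-2j) C(m+1,2j+1)`.
* Hence `(n+2) T (n+2) = (n+2) b T (n+1) + 2 (n+2) W (n+1) = (n+2) b T(n+1) + 2 (n+1)(2c T n + b W n)`
  and `2 W n = T (n+1) - b T n`:
  `(n+2) T (n+2) = (2n+3) b T (n+1) - (n+1)(b^2-4c) T n`.
-/

namespace MPf96

open Finset

/-- The generalized central trinomial coefficient (same formula as in the hand-in). -/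
def Texp (b c : ℤ) (n : ℕ) : ℤ :=
  ∑ j ∈ Finset.range (n / 2 + 1),
    (n.choose (2 * j) : ℤ) * ((2 * j).choose j : ℤ) * c ^ j * b ^ (n - 2 * j)

/-- The terms of the two sums. -/
private def texpl_t (b c : ℤ) (n j : ℕ) : ℤ :=
  (n.choose (2 * j) : ℤ) * ((2 * j).choose j : ℤ) * c ^ j * b ^ (n - 2 * j)

private def texpl_w (b c : ℤ) (n j : ℕ) : ℤ :=
  (n.choose (2 * j + 1) : ℤ) * ((2 * j + 1).choose j : ℤ) * c ^ (j + 1) * b ^ (n - 1 - 2 * j)

private theorem texpl_eq (b c : ℤ) (n N : ℕ) (h : n / 2 + 1 ≤ N) :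
    Texp b c n = ∑ j ∈ Finset.range N, texpl_t b c n j := by
  unfold Texp
  refine Finset.sum_subset (Finset.range_mono h) ?_
  intro j _ hj
  have h1 : n < 2 * j := by
    rw [Finset.mem_range] at hj
    omega
  rw [Nat.choose_eq_zero_of_lt h1]
  simp

private theorem texpl_central (i : ℕ) :
    (((2 * (i + 1)).choose (i + 1) : ℕ) : ℤ) = 2 * ((2 * i + 1).choose i : ℤ) := by
  have h : (2 * (i + 1)).choose (i + 1) = 2 * (2 * i + 1).choose i := by
    have h1 : 2 * (i + 1) = (2 * i + 1) + 1 := by ring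
    rw [h1, Nat.choose_succ_succ, Nat.choose_symm_half]
    ring
  rw [h]
  push_cast
  ring

private theorem texpl_A_term (b c : ℤ) (n i : ℕ) :
    texpl_t b c (n + 1) (i + 1) = b * texpl_t b c n (i + 1) + 2 * texpl_w b c n i := by
  unfold texpl_t texpl_w
  rw [texpl_central]
  have h1 : (n + 1).choose (2 * (i + 1)) = n.choose (2 * i + 1) + n.choose (2 * (i + 1)) := by
    have h2 : 2 * (i + 1) = (2 * i + 1) + 1 := by ring
    rw [h2, Nat.choose_succ_succ]
  rw [h1]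
  push_cast
  have h3 : n + 1 - 2 * (i + 1) = n - 1 - 2 * i := by omega
  rw [h3]
  by_cases h4 : 2 * (i + 1) ≤ n
  · have h5 : n - 1 - 2 * i = (n - 2 * (i + 1)) + 1 := by omega
    rw [h5, pow_succ]
    ring
  · rw [Nat.choose_eq_zero_of_lt (by omega : n < 2 * (i + 1))]
    push_cast
    ring

private theorem texpl_A (b c : ℤ) (n N : ℕ) :
    ∑ j ∈ Finset.range (N + 1), texpl_t b c (n + 1) j =
      b * ∑ j ∈ Finset.range (N + 1), texpl_t b c n j +
        2 * ∑ j ∈ Finset.range N, texpl_w b c n j := by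
  rw [Finset.sum_range_succ', Finset.sum_range_succ' (fun j => texpl_t b c n j), mul_add,
    Finset.mul_sum, Finset.mul_sum]
  have h0 : texpl_t b c (n + 1) 0 = b * texpl_t b c n 0 := by
    unfold texpl_t
    simp [pow_succ]
    ring
  rw [h0, Finset.sum_congr rfl fun i _ => texpl_A_term b c n i, Finset.sum_add_distrib]
  ring

private theorem texpl_B_term (b c : ℤ) (m j : ℕ) :
    ((m : ℤ) + 2) * texpl_w b c (m + 1) j =
      ((m : ℤ) + 1) * (2 * c * texpl_t b c m j + b * texpl_w b c m j) := by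
  have h1 : ((m : ℤ) + 1) * (m.choose (2 * j) : ℤ) =
      ((m + 1).choose (2 * j + 1) : ℤ) * (2 * (j : ℤ) + 1) := by
    have h := Nat.add_one_mul_choose_eq m (2 * j)
    have h' : ((m + 1) * m.choose (2 * j) : ℕ) = (m + 1).choose (2 * j + 1) * (2 * j + 1) := h
    exact_mod_cast h'
  have h2 : ((j : ℤ) + 1) * ((2 * j + 1).choose j : ℤ) =
      (2 * (j : ℤ) + 1) * ((2 * j).choose j : ℤ) := by
    have h := Nat.add_one_mul_choose_eq (2 * j) j
    have h' : ((2 * j + 1) * (2 * j).choose j : ℕ) = (2 * j + 1).choose (j + 1) * (j + 1) := h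
    rw [Nat.choose_symm_half] at h'
    have h'' : ((j + 1) * (2 * j + 1).choose j : ℕ) = (2 * j + 1) * (2 * j).choose j := by
      rw [h']
      ring
    exact_mod_cast h''
  have h3 : ((m : ℤ) + 1) * (m.choose (2 * j + 1) : ℤ) =
      ((m + 1).choose (2 * j + 1) : ℤ) * ((m : ℤ) - 2 * (j : ℤ)) := by
    by_cases hj : 2 * j ≤ m
    · have h := Nat.choose_mul_succ_eq m (2 * j + 1)
      have h' : m + 1 - (2 * j + 1) = m - 2 * j := by omega
      rw [h'] at h
      have h'' : ((m.choose (2 * j + 1) * (m + 1) : ℕ) : ℤ) =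
          (((m + 1).choose (2 * j + 1) * (m - 2 * j) : ℕ) : ℤ) := by rw [h]
      rw [Nat.cast_mul, Nat.cast_mul, Nat.cast_sub hj] at h''
      push_cast at h''
      linarith
    · rw [Nat.choose_eq_zero_of_lt (by omega : m < 2 * j + 1),
        Nat.choose_eq_zero_of_lt (by omega : m + 1 < 2 * j + 1)]
      simp
  have hb : b * texpl_w b c m j = (m.choose (2 * j + 1) : ℤ) * ((2 * j + 1).choose j : ℤ) *
      c ^ (j + 1) * b ^ (m - 2 * j) := by
    unfold texpl_w
    by_cases hj : 2 * j + 1 ≤ m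
    · have h5 : m - 2 * j = (m - 1 - 2 * j) + 1 := by omega
      rw [h5, pow_succ]
      ring
    · rw [Nat.choose_eq_zero_of_lt (by omega : m < 2 * j + 1)]
      simp
  rw [hb]
  unfold texpl_w texpl_t
  have h6 : m + 1 - 1 - 2 * j = m - 2 * j := by omega
  rw [h6, pow_succ]
  have key : ((m : ℤ) + 2) * (((m + 1).choose (2 * j + 1) : ℤ) * ((2 * j + 1).choose j : ℤ)) =
      2 * ((((m : ℤ) + 1) * (m.choose (2 * j) : ℤ)) * ((2 * j).choose j : ℤ)) +
        (((m : ℤ) + 1) * (m.choose (2 * j + 1) : ℤ)) * ((2 * j + 1).choose j : ℤ) := by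
    rw [h1, h3]
    linear_combination (2 * ((m + 1).choose (2 * j + 1) : ℤ)) * h2
  linear_combination (c ^ j * c * b ^ (m - 2 * j)) * key

private theorem texpl_B (b c : ℤ) (m N : ℕ) :
    ((m : ℤ) + 2) * ∑ j ∈ Finset.range N, texpl_w b c (m + 1) j =
      ((m : ℤ) + 1) * (2 * c * ∑ j ∈ Finset.range N, texpl_t b c m j +
        b * ∑ j ∈ Finset.range N, texpl_w b c m j) := by
  rw [Finset.mul_sum, Finset.sum_congr rfl fun j _ => texpl_B_term b c m j, ← Finset.mul_sum,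
    Finset.sum_add_distrib, ← Finset.mul_sum, ← Finset.mul_sum]

theorem Texp_rec (b c : ℤ) (n : ℕ) :
    ((n : ℤ) + 2) * Texp b c (n + 2) =
      (2 * (n : ℤ) + 3) * b * Texp b c (n + 1) - ((n : ℤ) + 1) * (b ^ 2 - 4 * c) * Texp b c n := by
  have e2 := texpl_eq b c (n + 2) (n + 3 + 1) (by omega)
  have e1 := texpl_eq b c (n + 1) (n + 3 + 1) (by omega)
  have e0 := texpl_eq b c n (n + 3 + 1) (by omega)
  have e0' := texpl_eq b c n (n + 3) (by omega)
  have a1 := texpl_A b c (n + 1) (n + 3)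
  have a0 := texpl_A b c n (n + 3)
  have b0 := texpl_B b c n (n + 3)
  rw [← e0'] at b0
  rw [← e1, ← e0] at a0
  rw [show n + 1 + 1 = n + 2 from rfl, ← e2, ← e1] at a1
  generalize (∑ j ∈ Finset.range (n + 3), texpl_w b c (n + 1) j) = W1 at a1 b0
  generalize (∑ j ∈ Finset.range (n + 3), texpl_w b c n j) = W0 at a0 b0
  rw [a1]
  linear_combination 2 * b0 - ((n : ℤ) + 1) * b * a0

theorem Texp_zero (b c : ℤ) : Texp b c 0 = 1 := by
  simp [Texp]

theorem Texp_one (b c : ℤ) : Texp b c 1 = b := by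
  simp [Texp]

end MPf96
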