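import Pool.Agent.H.MP_f96d9d_nt.RecA
import Pool.Agent.H.MP_f96d9d_nt.TExpl

/-!
# Question 1: translation to rational numbers

* `T_link`: for `k < p`, `T_k(18,49) = 32^k T_k(s)` in `ZMod (p^2)`, `8 s = 1`. Induction with the
  two recurrences (`Texp_rec` with `b = 18`, `b^2 - 4c = 128`; `r0v`):
  `(k+2) T_{k+2} = 18 (2k+3) T_{k+1} - 128 (k+1) T_k`, and for `V_k = 32^k T_k(s)`:
  `2(k+2) V_{k+2} = 32 (2k+3)(1+s) V_{k+1} - 2 (k+1) s 32^2 V_k`, `32(1+s) = 36`,
  `32^2 s = 128`. `k+2 < p` is a unit.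
* `A2`: `T_k(18,49)^3 / 4096^k = 32768^k T_k(s)^3 / 4096^k = T_k(s)^3 8^k`. `A1`:
  `T_k(18,49)^3/512^k = 64^k T_k(s)^3`, and `T_k(8) = 8^k T_k(s)` (reverse the sum), so
  `T_k(8)^3 s^k = 8^(3k) s^k T_k(s)^3 = 64^k T_k(s)^3`.
* From rationals to `ZMod (p^2)`: for a finite sum of `N_k / D^k` with `D` prime to `p`, multiply
  by `D^(p-1)`: `Cong p a b` holds iff `D' a`, `D' b` (integers) are congruent mod `p^2` for some
  integer `D'` prime to `p`.
-/

namespace MPf96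

open Finset

theorem T_link {p n : ℕ} [hp : Fact p.Prime] (hn : p = 2 * n + 1) {s : ZMod (p ^ 2)}
    (hs : 8 * s = 1) {k : ℕ} (hk : k < p) :
    ((Texp 18 49 k : ℤ) : ZMod (p ^ 2)) = 32 ^ k * Tv (half p) s k := by
  have hh : 2 * half p = 1 := two_half (by omega)
  have key : ∀ k, (k < p → ((Texp 18 49 k : ℤ) : ZMod (p ^ 2)) = 32 ^ k * Tv (half p) s k) ∧
      (k + 1 < p → ((Texp 18 49 (k + 1) : ℤ) : ZMod (p ^ 2)) =
        32 ^ (k + 1) * Tv (half p) s (k + 1)) := by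
    intro k
    induction k with
    | zero =>
      refine ⟨fun _ => ?_, fun _ => ?_⟩
      · rw [Texp_zero, Tv_zero]
        norm_num
      · have h1 := Tv_one (h := half p) hh s
        rw [zero_add, Texp_one]
        push_cast
        linear_combination -16 * h1 - 2 * hs
    | succ k ih =>
      refine ⟨ih.2, fun hk2 => ?_⟩
      have hk2' : k + 2 < p := hk2
      have h1 := ih.1 (by omega)
      have h2 := ih.2 (by omega)
      have h3 : (((k : ℤ) + 2) * Texp 18 49 (k + 2) : ℤ) =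
          (2 * (k : ℤ) + 3) * 18 * Texp 18 49 (k + 1) -
            ((k : ℤ) + 1) * (18 ^ 2 - 4 * 49) * Texp 18 49 k := Texp_rec 18 49 k
      have h4 := congrArg (Int.cast : ℤ → ZMod (p ^ 2)) h3
      push_cast at h4
      have h5 := r0v (h := half p) hh s k
      have hu2 : IsUnit (2 : ZMod (p ^ 2)) := IsUnit.of_mul_eq_one _ hh
      have huk : IsUnit (((k + 2 : ℕ) : ZMod (p ^ 2))) :=
        unit_nat (not_dvd_of_lt (by omega) hk2')
      push_cast at huk
      have hu : IsUnit ((2 : ZMod (p ^ 2)) * ((k : ZMod (p ^ 2)) + 2)) := hu2.mul huk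
      refine cancel_unit hu ?_
      show (2 : ZMod (p ^ 2)) * ((k : ZMod (p ^ 2)) + 2) * ((Texp 18 49 (k + 2) : ℤ) : ZMod (p ^ 2)) =
        2 * ((k : ZMod (p ^ 2)) + 2) * (32 ^ (k + 2) * Tv (half p) s (k + 2))
      have e1 : (32 : ZMod (p ^ 2)) ^ (k + 2) = 1024 * 32 ^ k := by ring
      have e2 : (32 : ZMod (p ^ 2)) ^ (k + 1) = 32 * 32 ^ k := by ring
      rw [e2] at h2
      rw [e1]
      linear_combination 2 * h4 + 36 * (2 * (k : ZMod (p ^ 2)) + 3) * h2 -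
        256 * ((k : ZMod (p ^ 2)) + 1) * h1 - 1024 * 32 ^ k * h5 -
        (128 * 32 ^ k * (2 * (k : ZMod (p ^ 2)) + 3) * Tv (half p) s (k + 1) -
          256 * 32 ^ k * ((k : ZMod (p ^ 2)) + 1) * Tv (half p) s k) * hs
  exact (key k).1 hk

theorem Tv_eight {p n : ℕ} [hp : Fact p.Prime] (hn : p = 2 * n + 1) {s : ZMod (p ^ 2)}
    (hs : 8 * s = 1) (k : ℕ) :
    Tv (half p) 8 k = 8 ^ k * Tv (half p) s k := by
  unfold Tv
  rw [← Finset.sum_range_reflect, Finset.mul_sum]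
  refine Finset.sum_congr rfl fun j hj => ?_
  have hj' : j ≤ k := Nat.lt_succ_iff.1 (Finset.mem_range.1 hj)
  have e1 : k + 1 - 1 - j = k - j := by omega
  have e2 : k - (k - j) = j := by omega
  have e3 : (8 : ZMod (p ^ 2)) ^ k = 8 ^ (k - j) * 8 ^ j := by
    rw [← pow_add]
    congr 1
    omega
  have e4 : (8 : ZMod (p ^ 2)) ^ j * s ^ j = 1 := by
    rw [← mul_pow, hs, one_pow]
  rw [e1, e2, e3]
  linear_combination -(u (half p) (k - j) * u (half p) j * 8 ^ (k - j)) * e4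

end MPf96
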