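import Pool.Agent.H.MP_f96d9d_nt.AVal
import Pool.Agent.H.MP_f96d9d_nt.ChowlaSq
import Pool.Agent.H.MP_f96d9d_nt.FinalA

/-!
# Question 1: translation to rational numbers

* `T_link`: for `k < p`, `T_k(18,49) = 32^k T_k(s)` in `ZMod (p^2)`, `8 s = 1`. Induction with the
  two recurrences (`Texp_rec` with `b = 18`, `b^2 - 4c = 128`; `r0v`):
  `(k+2) T_{k+2} = 18 (2k+3) T_{k+1} - 128 (k+1) T_k`, and for `V_k = 32^k T_k(s)`:
  `2(k+2) V_{k+2} = 32 (2k+3)(1+s) V_{k+1} - 2 (k+1) s 32^2 V_k`, `32(1+s) = 36`,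
  `32^2 s = 128`. `k+2 < p` is a unit.
* `A2`: `T_k(18,49)^3 / 4096^k = 32768^k T_k(s)^3 / 4096^k = T_k(s)^3 8^k`. `A1`:
  `T_k(18,49)^3/512^k = 64^k T_k(s)^3`, and `T_k(8) = 8^k T_k(s)` (reverse the sum), so
  `T_k(8)^3 s^k = 8^(3k) s^k T_k(s)^3 = 64^k T_k(s)^3`.
* From rationals to `ZMod (p^2)`: for a finite sum of `N_k / D^k` with `D` prime to `p`, multiply
  by `D^(p-1)`: `Cong p a b` holds iff `D' a`, `D' b` (integers) are congruent mod `p^2` for some
  integer `D'` prime to `p`.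
-/

namespace MPf96

open Finset

/-- `A_1(p) = ∑_{k<p} T_k(18,49)^3 / 512^k`. -/
def A1 (p : ℕ) : ℚ := ∑ k ∈ Finset.range p, ((Texp 18 49 k : ℤ) : ℚ) ^ 3 / 512 ^ k

/-- `A_2(p) = ∑_{k<p} T_k(18,49)^3 / 4096^k`. -/
def A2 (p : ℕ) : ℚ := ∑ k ∈ Finset.range p, ((Texp 18 49 k : ℤ) : ℚ) ^ 3 / 4096 ^ k

/-- Congruence modulo `p^2` of rational numbers: the difference lies in `p^2 ℤ_(p)`. -/
def Cong (p : ℕ) (a b : ℚ) : Prop := ∃ z : ℚ, ¬ (p ∣ z.den) ∧ a - b = (p : ℚ) ^ 2 * z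

/-- The congruences of Q1 at the prime `p`. -/
def Holds1 (p : ℕ) [Fact p.Prime] : Prop :=
  Cong p ((legendreSym p 2 : ℤ) * A1 p) (A2 p) ∧
    (p % 4 = 1 → ∀ x y : ℤ, Odd x → Even y → (p : ℤ) = x ^ 2 + y ^ 2 →
      Cong p (A2 p) (4 * (x : ℚ) ^ 2 - 2 * p)) ∧
    (p % 4 = 3 → Cong p (A2 p) 0)

/-- `x` is the reduction of the rational number `q` modulo `p ^ 2`. -/
def final_R (p : ℕ) (q : ℚ) (x : ZMod (p ^ 2)) : Prop :=
  ∃ N D : ℤ, ¬ (p : ℤ) ∣ D ∧ q * D = N ∧ (D : ZMod (p ^ 2)) * x = N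

section

variable {p : ℕ} [hp : Fact p.Prime]

theorem final_R_int (m : ℤ) : final_R p (m : ℚ) (m : ZMod (p ^ 2)) := by
  refine ⟨m, 1, ?_, ?_, ?_⟩
  · intro h
    have h1 : p ∣ 1 := by exact_mod_cast h
    exact hp.out.one_lt.ne' (Nat.dvd_one.1 h1)
  · push_cast
    ring
  · push_cast
    ring

theorem final_prime : Prime (p : ℤ) := Nat.prime_iff_prime_int.1 hp.out

theorem final_R_mul {q q' : ℚ} {x x' : ZMod (p ^ 2)} (h : final_R p q x) (h' : final_R p q' x') :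
    final_R p (q * q') (x * x') := by
  obtain ⟨N, D, h1, h2, h3⟩ := h
  obtain ⟨N', D', h1', h2', h3'⟩ := h'
  refine ⟨N * N', D * D', fun h => ?_, ?_, ?_⟩
  · rcases final_prime.dvd_or_dvd h with h | h
    · exact h1 h
    · exact h1' h
  · push_cast
    rw [← h2, ← h2']
    ring
  · push_cast
    rw [← h3, ← h3']
    ring

theorem final_R_add {q q' : ℚ} {x x' : ZMod (p ^ 2)} (h : final_R p q x) (h' : final_R p q' x') :
    final_R p (q + q') (x + x') := by
  obtain ⟨N, D, h1, h2, h3⟩ := h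
  obtain ⟨N', D', h1', h2', h3'⟩ := h'
  refine ⟨N * D' + N' * D, D * D', fun h => ?_, ?_, ?_⟩
  · rcases final_prime.dvd_or_dvd h with h | h
    · exact h1 h
    · exact h1' h
  · push_cast
    rw [← h2, ← h2']
    ring
  · push_cast
    rw [← h3, ← h3']
    ring

theorem final_R_pow {q : ℚ} {x : ZMod (p ^ 2)} (h : final_R p q x) (k : ℕ) :
    final_R p (q ^ k) (x ^ k) := by
  induction k with
  | zero =>
    rw [pow_zero, pow_zero]
    have := final_R_int (p := p) 1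
    simpa using this
  | succ k ih =>
    rw [pow_succ, pow_succ]
    exact final_R_mul ih h

theorem final_R_sum (f : ℕ → ℚ) (g : ℕ → ZMod (p ^ 2)) (n : ℕ)
    (h : ∀ k < n, final_R p (f k) (g k)) :
    final_R p (∑ k ∈ range n, f k) (∑ k ∈ range n, g k) := by
  induction n with
  | zero =>
    rw [Finset.range_zero, Finset.sum_empty, Finset.sum_empty]
    have := final_R_int (p := p) 0
    simpa using this
  | succ n ih =>
    rw [Finset.sum_range_succ, Finset.sum_range_succ]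
    exact final_R_add (ih fun k hk => h k (by omega)) (h n (by omega))

theorem final_cong {a b : ℚ} {x : ZMod (p ^ 2)} (ha : final_R p a x) (hb : final_R p b x) :
    Cong p a b := by
  have h := final_R_add ha (final_R_mul (final_R_int (p := p) (-1)) hb)
  obtain ⟨N, D, h1, h2, h3⟩ := h
  have h4 : ((N : ℤ) : ZMod (p ^ 2)) = 0 := by
    rw [← h3]
    push_cast
    ring
  obtain ⟨M, hM⟩ := (ZMod.intCast_zmod_eq_zero_iff_dvd N (p ^ 2)).1 h4
  have hD : (D : ℚ) ≠ 0 := by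
    intro h
    apply h1
    have h5 : D = 0 := by exact_mod_cast h
    rw [h5]
    exact dvd_zero _
  refine ⟨(M : ℚ) / (D : ℚ), ?_, ?_⟩
  · intro h
    apply h1
    have h5 : (((M : ℚ) / (D : ℚ)).den : ℤ) ∣ D := by
      rw [← Rat.divInt_eq_div]
      exact Rat.den_dvd M D
    exact (Int.natCast_dvd_natCast.2 h).trans h5
  · have h6 : (N : ℚ) = (p : ℚ) ^ 2 * M := by
      rw [hM]
      push_cast
      ring
    rw [h6] at h2
    field_simp
    push_cast at h2
    linear_combination h2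

theorem final_A {n : ℕ} (hn : p = 2 * n + 1) {s : ZMod (p ^ 2)} (hs : 8 * s = 1) :
    final_R p (A1 p) (∑ k ∈ range p, (Tv (half p) 8 k) ^ 3 * s ^ k) ∧
      final_R p (A2 p) (∑ k ∈ range p, (Tv (half p) s k) ^ 3 * 8 ^ k) := by
  have h8 : final_R p ((1 : ℚ) / 8) s := by
    refine ⟨1, 8, ?_, ?_, ?_⟩
    · intro h
      have h2 : ((8 : ℕ) : ZMod (p ^ 2)) * s = 1 := by
        push_cast
        exact hs
      have h3 : p ∣ 8 := by exact_mod_cast h
      have h4 : p ∣ 2 ^ 3 := h3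
      have h5 := hp.out.dvd_of_dvd_pow h4
      have h6 := (Nat.prime_dvd_prime_iff_eq hp.out Nat.prime_two).1 h5
      omega
    · norm_num
    · push_cast
      exact hs
  constructor
  · unfold A1
    refine final_R_sum _ _ p fun k hk => ?_
    have h1 := final_R_mul (final_R_pow (final_R_int (p := p) (Texp 18 49 k)) 3)
      (final_R_pow (final_R_pow h8 3) k)
    have e1 : ((Texp 18 49 k : ℤ) : ℚ) ^ 3 / 512 ^ k =
        ((Texp 18 49 k : ℤ) : ℚ) ^ 3 * (((1 : ℚ) / 8) ^ 3) ^ k := by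
      rw [div_eq_mul_inv, ← inv_pow]
      norm_num
    have e2 : (Tv (half p) 8 k) ^ 3 * s ^ k =
        ((Texp 18 49 k : ℤ) : ZMod (p ^ 2)) ^ 3 * (s ^ 3) ^ k := by
      rw [Tv_eight hn hs k, T_link hn hs hk]
      have e3 : (32 : ZMod (p ^ 2)) ^ k = 4 ^ k * 8 ^ k := by
        rw [← mul_pow]
        norm_num
      have e5 : (8 : ZMod (p ^ 2)) ^ k * s ^ k = 1 := by
        rw [← mul_pow, hs, one_pow]
      have e6 : (s ^ 3) ^ k = (s ^ k) ^ 3 := by rw [← pow_mul, ← pow_mul, mul_comm]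
      have e7 : ((4 : ZMod (p ^ 2)) ^ k) ^ 3 = (8 ^ k) ^ 2 := by
        rw [← pow_mul, ← pow_mul, mul_comm k 3, mul_comm k 2, pow_mul, pow_mul]
        norm_num
      rw [e6, e3]
      linear_combination -((Tv (half p) s k) ^ 3 * (8 ^ k) ^ 3 * s ^ k) *
        (1 + (8 : ZMod (p ^ 2)) ^ k * s ^ k) * e5 -
        ((Tv (half p) s k) ^ 3 * (8 ^ k) ^ 3 * (s ^ k) ^ 3) * e7
    rw [e1, e2]
    exact h1
  · unfold A2
    refine final_R_sum _ _ p fun k hk => ?_
    have h1 := final_R_mul (final_R_pow (final_R_int (p := p) (Texp 18 49 k)) 3)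
      (final_R_pow (final_R_pow h8 4) k)
    have e1 : ((Texp 18 49 k : ℤ) : ℚ) ^ 3 / 4096 ^ k =
        ((Texp 18 49 k : ℤ) : ℚ) ^ 3 * (((1 : ℚ) / 8) ^ 4) ^ k := by
      rw [div_eq_mul_inv, ← inv_pow]
      norm_num
    have e2 : (Tv (half p) s k) ^ 3 * 8 ^ k =
        ((Texp 18 49 k : ℤ) : ZMod (p ^ 2)) ^ 3 * (s ^ 4) ^ k := by
      rw [T_link hn hs hk]
      have e3 : ((32 : ZMod (p ^ 2)) ^ k) ^ 3 = (8 ^ k) ^ 5 := by
        rw [← pow_mul, ← pow_mul, mul_comm k 3, mul_comm k 5, pow_mul, pow_mul]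
        norm_num
      have e5 : (8 : ZMod (p ^ 2)) ^ k * s ^ k = 1 := by
        rw [← mul_pow, hs, one_pow]
      have e6 : (s ^ 4) ^ k = (s ^ k) ^ 4 := by rw [← pow_mul, ← pow_mul, mul_comm]
      have e8 : ((8 : ZMod (p ^ 2)) ^ k) ^ 4 * (s ^ k) ^ 4 = 1 := by
        rw [← mul_pow, e5, one_pow]
      rw [e6, mul_pow, e3]
      linear_combination -((Tv (half p) s k) ^ 3 * 8 ^ k) * e8
    rw [e1, e2]
    exact h1

theorem final_leg {a : ℕ} (h : p = 4 * a + 1) : legendreSym p 2 = (-1) ^ a := by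
  have h2 : p ≠ 2 := by omega
  rw [legendreSym.at_two h2, ZMod.χ₈_nat_eq_if_mod_eight]
  rcases Nat.even_or_odd a with ha | ha
  · rw [ha.neg_one_pow]
    obtain ⟨c, hc⟩ := ha
    rw [if_neg (by omega), if_pos (by omega)]
  · rw [ha.neg_one_pow]
    obtain ⟨c, hc⟩ := ha
    rw [if_neg (by omega), if_neg (by omega)]

end

theorem holds1 (p : ℕ) [hp : Fact p.Prime] (h3 : 3 < p) (h7 : p ≠ 7) : Holds1 p := by
  obtain ⟨n, hn⟩ : ∃ n, p = 2 * n + 1 := by
    rcases hp.out.eq_two_or_odd' with h | h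
    · omega
    · exact h
  have h8 : IsUnit (8 : ZMod (p ^ 2)) := by
    have h1 : ¬ p ∣ 8 := by
      intro h3
      have h4 : p ∣ 2 ^ 3 := h3
      have h5 := hp.out.dvd_of_dvd_pow h4
      have h6 := (Nat.prime_dvd_prime_iff_eq hp.out Nat.prime_two).1 h5
      omega
    exact_mod_cast unit_nat h1
  obtain ⟨s, hs⟩ := h8.exists_right_inv
  obtain ⟨hA1, hA2⟩ := final_A hn hs
  have hL := final_R_int (p := p) (legendreSym p 2)
  rcases Nat.even_or_odd n with ho | ho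
  · obtain ⟨a, ha⟩ := ho
    have ha' : n = 2 * a := by omega
    have hp4 : p = 4 * a + 1 := by omega
    rw [S1_even hn h7 ha' hs] at hA1
    rw [S2_even hn h7 ha' hs] at hA2
    refine ⟨?_, fun _ x y hx hy hxy => ?_, fun h => ?_⟩
    · refine final_cong (final_R_mul hL hA1) ?_
      have e : ((legendreSym p 2 : ℤ) : ZMod (p ^ 2)) * ((-1) ^ a * (u (half p) a) ^ 2) =
          (u (half p) a) ^ 2 := by
        rw [final_leg hp4]
        push_cast
        rw [← mul_assoc, ← mul_pow]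
        norm_num
      rw [e]
      exact hA2
    · refine final_cong hA2 ?_
      rw [u_sq_eq hp4 hx hy hxy]
      have h1 := final_R_int (p := p) (4 * x ^ 2 - 2 * p)
      push_cast at h1
      exact h1
    · omega
  · obtain ⟨h1, h2⟩ := S_odd hn h7 ho hs
    rw [h2] at hA1
    rw [h1] at hA2
    have h0 := final_R_int (p := p) 0
    rw [Int.cast_zero, Int.cast_zero] at h0
    obtain ⟨c, hc⟩ := ho
    refine ⟨?_, fun h => ?_, fun _ => ?_⟩
    · refine final_cong (final_R_mul hL hA1) ?_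
      rw [mul_zero]
      exact hA2
    · omega
    · exact final_cong hA2 h0

end MPf96
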