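import Mathlib

namespace Pool.Agent.Results.MP_f96d9d_nt.FirstFailsAtSeven

/-- The generalized central trinomial coefficient `T_n(b,c)`, the coefficient of `x^n` in
`(x^2 + b x + c)^n`, given by its explicit formula. -/
def T (b c : ℤ) (n : ℕ) : ℤ :=
  ∑ j ∈ Finset.range (n / 2 + 1),
    (n.choose (2 * j) : ℤ) * ((2 * j).choose j : ℤ) * c ^ j * b ^ (n - 2 * j)

/-- `A_1(p) = ∑_{k<p} T_k(18,49)^3 / 512^k`. -/
def A1 (p : ℕ) : ℚ := ∑ k ∈ Finset.range p, ((T 18 49 k : ℤ) : ℚ) ^ 3 / 512 ^ k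

/-- `A_2(p) = ∑_{k<p} T_k(18,49)^3 / 4096^k`. -/
def A2 (p : ℕ) : ℚ := ∑ k ∈ Finset.range p, ((T 18 49 k : ℤ) : ℚ) ^ 3 / 4096 ^ k

/-- Congruence modulo `p^2` of rational numbers: the difference lies in `p^2 ℤ_(p)`. -/
def Cong (p : ℕ) (a b : ℚ) : Prop := ∃ z : ℚ, ¬ (p ∣ z.den) ∧ a - b = (p : ℚ) ^ 2 * z

theorem aux {N D : ℤ} (hD : D ≠ 0) (hN : ¬ ((49 : ℤ) ∣ N)) :
    ¬ Cong 7 ((N : ℚ) / D) 0 := by
  rintro ⟨z, hz, h⟩
  have hz' : (z.den : ℚ) ≠ 0 := by exact_mod_cast z.den_nz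
  have hzz : z = (z.num : ℚ) / z.den := (Rat.num_div_den z).symm
  have hD' : (D : ℚ) ≠ 0 := by exact_mod_cast hD
  have h1 : (N : ℚ) * z.den = 49 * z.num * D := by
    rw [sub_zero, hzz] at h
    field_simp at h
    push_cast at h
    linarith
  have h2 : N * z.den = 49 * z.num * D := by exact_mod_cast h1
  have h3 : (49 : ℤ) ∣ N * z.den := ⟨z.num * D, by rw [h2]; ring⟩
  have hco : IsCoprime (49 : ℤ) (z.den : ℤ) := by
    have : Nat.Coprime (7 ^ 2) z.den :=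
      Nat.Coprime.pow_left 2 ((Nat.Prime.coprime_iff_not_dvd (by norm_num)).2 hz)
    have h4 := Nat.isCoprime_iff_coprime.2 this
    simpa using h4
  exact hN (hco.dvd_of_dvd_mul_right h3)

/-- The first question's congruences fail at the prime `7`. -/
theorem result : ¬ ∀ (p : ℕ) [Fact p.Prime], 3 < p →
    Cong p ((legendreSym p 2 : ℤ) * A1 p) (A2 p) ∧
    (p % 4 = 1 → ∀ x y : ℤ, Odd x → Even y → (p : ℤ) = x ^ 2 + y ^ 2 →
      Cong p (A2 p) (4 * (x : ℚ) ^ 2 - 2 * p)) ∧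
    (p % 4 = 3 → Cong p (A2 p) 0) := by
  intro h
  have _hp : Fact (Nat.Prime 7) := ⟨by norm_num⟩
  have h3 := (h 7 (by norm_num)).2.2 (by norm_num)
  have hA : A2 7 = ((∑ k ∈ Finset.range 7, (T 18 49 k) ^ 3 * 4096 ^ (6 - k) : ℤ) : ℚ) /
      ((4096 ^ 6 : ℤ) : ℚ) := by
    unfold A2
    push_cast
    simp only [Finset.sum_range_succ, Finset.sum_range_zero]
    field_simp
    ring
  rw [hA] at h3
  refine aux (by norm_num) ?_ h3
  decide +kernel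

end Pool.Agent.Results.MP_f96d9d_nt.FirstFailsAtSeven
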