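import Pool.Agent.H.MP_f96d9d_nt.HarmA

/-!
# Harmonic sums modulo `p^2` times `p`

Here `p = 2 n + 1` is a prime (so odd). All `1/i` with `1 ≤ i < p` are inverses of units of
`ZMod (p^2)` (`mul_inv_nat`, `not_dvd_of_lt`).
* `eta_sq`, `p_eta`: `2^(p-1) = 1` in `ZMod p` (Fermat), so `eta p = p z` by
  `eq_p_mul_of_cast_zero`; and `p^2 = 0`.
* `H3`: induction on `i`: `C(2n,i+1)(i+1) = C(2n,i)(2n-i)` and `2n - i = p - (i+1)`, so
  `C(2n,i+1) = C(2n,i) (p/(i+1) - 1)`.
* Put `e_k = p / k` for `1 ≤ k ≤ 2n`. Then `e_{p-k} = -e_k` (since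
  `k (p-k) (e_{p-k} + e_k) = p (k + (p - k)) = p^2 = 0` and `k, p-k` are units).
  So `∑_{k=1}^{2n} e_k = 0` (`H0`; e.g. reflect the sum: it equals minus itself, 2 is a unit).
* `2^p = ∑_k C(p,k)`, `C(p,k) = p/k C(p-1,k-1)` for `1 ≤ k ≤ p-1` (`k C(p,k) = p C(p-1,k-1)`),
  and by `H3` `p C(2n,k-1) = p (-1)^(k-1)`. Hence
  `2 eta = 2^p - 2 = ∑_{k=1}^{2n} (-1)^(k-1) e_k`.
* `∑_{k=1}^{2n} (-1)^(k-1) e_k = ∑_{k=1}^{2n} e_k - 2 ∑_{j=1}^n e_{2j} = - ∑_{j=1}^n e_j`
  (`2 e_{2j} = e_j`), which gives `H1`: `p Hs n = - 2 eta`.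
* `H2`: `∑_{k=1}^{2n} (-1)^(k-1) e_k = 2 ∑_{k=1}^{n} (-1)^(k-1) e_k` (pair `k` with `p-k`, which
  has the other parity, and `e_{p-k} = -e_k`), so `∑_{k=1}^n (-1)^(k-1) e_k = eta`; with `n = 2a`
  the left side is `p Hs n - 2 ∑_{j=1}^a e_{2j} = p Hs n - p Hs a`.
* `H4`: `C(2n,n) = (-1)^n (1 - p Hs n) = (-1)^n (1 + 2 eta)`, `4^n = 2^(p-1) = 1 + eta`,
  `u_n = C(2n,n) half^(2n)`, so `u_n (1+eta) = (-1)^n (1+2 eta)`, `u_n = (-1)^n (1 + eta)`.
-/

namespace MPf96

open Finset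

variable {p n : ℕ} [hp : Fact p.Prime]

/-- `p / k` in `ZMod (p^2)`. -/
def harm_e (p k : ℕ) : ZMod (p ^ 2) := (p : ZMod (p ^ 2)) * (k : ZMod (p ^ 2))⁻¹

theorem harm_mul_e {k : ℕ} (h0 : 0 < k) (h1 : k < p) :
    (k : ZMod (p ^ 2)) * harm_e p k = p := by
  have := mul_inv_nat (p := p) (not_dvd_of_lt h0 h1)
  unfold harm_e
  linear_combination (p : ZMod (p ^ 2)) * this

theorem harm_p_e (k : ℕ) : (p : ZMod (p ^ 2)) * harm_e p k = 0 := by
  have := p_sq (p := p)
  unfold harm_e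
  linear_combination (k : ZMod (p ^ 2))⁻¹ * this

theorem harm_refl {k l : ℕ} (h0 : 0 < k) (h1 : 0 < l) (h : k + l = p) :
    harm_e p l = - harm_e p k := by
  have a1 := harm_mul_e (p := p) h0 (by omega)
  have a2 := harm_mul_e (p := p) h1 (by omega)
  have u1 := unit_nat (p := p) (not_dvd_of_lt h0 (by omega))
  have u2 := unit_nat (p := p) (not_dvd_of_lt h1 (by omega))
  have e : (k : ZMod (p ^ 2)) + (l : ZMod (p ^ 2)) = p := by
    rw [← Nat.cast_add, h]
  have key : ((k : ZMod (p ^ 2)) * (l : ZMod (p ^ 2))) * (harm_e p l + harm_e p k) = 0 := by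
    have := p_sq (p := p)
    linear_combination (k : ZMod (p ^ 2)) * a2 + (l : ZMod (p ^ 2)) * a1 +
      (p : ZMod (p ^ 2)) * e + this
  have := eq_zero_of_unit_mul (u1.mul u2) key
  linear_combination this

theorem harm_two {j : ℕ} (h0 : 0 < j) (h1 : 2 * j < p) :
    2 * harm_e p (2 * j) = harm_e p j := by
  have a1 := harm_mul_e (p := p) h0 (by omega)
  have a2 := harm_mul_e (p := p) (k := 2 * j) (by omega) h1
  have u1 := unit_nat (p := p) (not_dvd_of_lt h0 (by omega))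
  apply cancel_unit u1
  push_cast at a2
  linear_combination a2 - a1

omit hp in
theorem harm_Hs (m : ℕ) :
    (p : ZMod (p ^ 2)) * Hs p m = ∑ i ∈ range m, harm_e p (i + 1) := by
  unfold Hs harm_e
  rw [mul_sum]

theorem harm_alt {R : Type*} [CommRing R] (f : ℕ → R) (m : ℕ) :
    ∑ k ∈ range (2 * m), (-1) ^ k * f (k + 1)
      = ∑ k ∈ range (2 * m), f (k + 1) - 2 * ∑ j ∈ range m, f (2 * (j + 1)) := by
  induction m with
  | zero => simp
  | succ m ih =>
    rw [show 2 * (m + 1) = 2 * m + 1 + 1 by ring, sum_range_succ, sum_range_succ, ih,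
      sum_range_succ, sum_range_succ, sum_range_succ]
    have e1 : ((-1 : R)) ^ (2 * m) = 1 := by
      rw [pow_mul]
      simp
    have e2 : ((-1 : R)) ^ (2 * m + 1) = -1 := by
      rw [pow_succ, e1]
      ring
    rw [e1, e2]
    have e3 : 2 * m + 1 + 1 = 2 * (m + 1) := by ring
    rw [e3]
    ring

theorem harm_sum_zero (hn : p = 2 * n + 1) :
    ∑ k ∈ range (2 * n), harm_e p (k + 1) = 0 := by
  have h2 : p ≠ 2 := by omega
  have key : ∑ k ∈ range (2 * n), harm_e p (k + 1)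
      = - ∑ k ∈ range (2 * n), harm_e p (k + 1) := by
    conv_lhs => rw [← sum_range_reflect]
    rw [← sum_neg_distrib]
    apply sum_congr rfl
    intro k hk
    have hk' := mem_range.1 hk
    apply harm_refl
    · omega
    · omega
    · omega
  have h := two_half h2
  linear_combination (half p) * key + (- (∑ k ∈ range (2 * n), harm_e p (k + 1))) * h

theorem harm_choose (hn : p = 2 * n + 1) {k : ℕ} (hk : k < 2 * n) :
    ((2 * n + 1).choose (k + 1) : ZMod (p ^ 2)) = (-1) ^ k * harm_e p (k + 1) := by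
  have u1 := unit_nat (p := p) (not_dvd_of_lt (m := k + 1) (by omega) (by omega))
  apply cancel_unit u1
  have e1 : (((2 * n + 1) * (2 * n).choose k : ℕ) : ZMod (p ^ 2))
      = (((2 * n + 1).choose (k + 1) * (k + 1) : ℕ) : ZMod (p ^ 2)) := by
    rw [Nat.add_one_mul_choose_eq]
  have e2 := H3 hn (i := k) (by omega)
  have e3 := harm_mul_e (p := p) (k := k + 1) (by omega) (by omega)
  have e4 : ((2 * n + 1 : ℕ) : ZMod (p ^ 2)) = (p : ZMod (p ^ 2)) := by rw [hn]
  have e5 := p_sq (p := p)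
  rw [Nat.cast_mul, Nat.cast_mul, e4, e2] at e1
  linear_combination -e1 - (-1) ^ k * e3 - (-1) ^ k * Hs p k * e5

theorem harm_eta (hn : p = 2 * n + 1) :
    2 * eta p = ∑ k ∈ range (2 * n), (-1) ^ k * harm_e p (k + 1) := by
  have e1 : ((∑ m ∈ range (2 * n + 1 + 1), (2 * n + 1).choose m : ℕ) : ZMod (p ^ 2))
      = ((2 ^ (2 * n + 1) : ℕ) : ZMod (p ^ 2)) := by
    rw [Nat.sum_range_choose]
  rw [sum_range_succ, sum_range_succ'] at e1
  push_cast at e1
  rw [sum_congr rfl (fun k hk => harm_choose hn (mem_range.1 hk))] at e1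
  rw [Nat.choose_self, Nat.choose_zero_right] at e1
  have e2 : p - 1 = 2 * n := by omega
  have e3 : (2 : ZMod (p ^ 2)) ^ (2 * n + 1) = 2 ^ (2 * n) * 2 := pow_succ _ _
  simp only [Nat.cast_one] at e1
  unfold eta
  rw [e2]
  linear_combination -e1 - e3

theorem harm_double {m : ℕ} (hn : p = 2 * n + 1) (hm : m ≤ n) :
    2 * ∑ j ∈ range m, harm_e p (2 * (j + 1)) = ∑ j ∈ range m, harm_e p (j + 1) := by
  rw [mul_sum]
  apply sum_congr rfl
  intro j hj
  have := mem_range.1 hj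
  exact harm_two (by omega) (by omega)

theorem H1 (hn : p = 2 * n + 1) : (p : ZMod (p ^ 2)) * Hs p n = -2 * eta p := by
  have e1 := harm_eta hn
  rw [harm_alt, harm_sum_zero hn, harm_double hn le_rfl] at e1
  rw [harm_Hs]
  linear_combination e1

theorem harm_half (hn : p = 2 * n + 1) :
    ∑ k ∈ range n, (-1) ^ k * harm_e p (k + 1) = eta p := by
  have h2 : p ≠ 2 := by
    have := hp.out.two_le
    omega
  have e1 := harm_eta hn
  have e2 : ∑ k ∈ range (2 * n), (-1) ^ k * harm_e p (k + 1)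
      = ∑ k ∈ range n, (-1) ^ k * harm_e p (k + 1)
        + ∑ k ∈ range n, (-1) ^ k * harm_e p (k + 1) := by
    rw [two_mul, sum_range_add]
    congr 1
    conv_rhs => rw [← sum_range_reflect]
    apply sum_congr rfl
    intro k hk
    have hk' := mem_range.1 hk
    have r := harm_refl (p := p) (k := n - 1 - k + 1) (l := n + k + 1) (by omega) (by omega)
      (by omega)
    rw [r]
    have s : ((-1 : ZMod (p ^ 2))) ^ (n + k) = - (-1) ^ (n - 1 - k) := by
      have t : n + k = (n - 1 - k) + (2 * k + 1) := by omega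
      rw [t, pow_add, Odd.neg_one_pow (⟨k, rfl⟩ : Odd (2 * k + 1))]
      ring
    rw [s]
    ring
  rw [e2] at e1
  have h := two_half h2
  linear_combination (-half p) * e1 +
    (eta p - ∑ k ∈ range n, (-1) ^ k * harm_e p (k + 1)) * h

theorem H2 (hn : p = 2 * n + 1) {a : ℕ} (ha : n = 2 * a) :
    (p : ZMod (p ^ 2)) * (Hs p n - Hs p a) = eta p := by
  have e1 := harm_half hn
  have e2 := harm_double hn (m := a) (by omega)
  have e3 := harm_Hs (p := p) n
  have e4 := harm_Hs (p := p) a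
  rw [ha] at e1 e3
  rw [harm_alt, e2] at e1
  rw [mul_sub, ha, e3, e4]
  exact e1

theorem H4 (hn : p = 2 * n + 1) : u (half p) n = (-1) ^ n * 2 ^ (p - 1) := by
  have h2 : p ≠ 2 := by
    have := hp.out.two_le
    omega
  have h := two_half h2
  have e2 : p - 1 = 2 * n := by omega
  have hu : (half p) ^ (2 * n) * (2 : ZMod (p ^ 2)) ^ (2 * n) = 1 := by
    rw [← mul_pow, mul_comm (half p) 2, h, one_pow]
  have hunit : IsUnit ((2 : ZMod (p ^ 2)) ^ (2 * n)) := IsUnit.of_mul_eq_one_right _ hu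
  apply cancel_unit hunit
  have e3 := H3 hn (i := n) (by omega)
  have e4 := H1 hn
  have e5 := eta_sq hn
  have e6 : eta p = 2 ^ (2 * n) - 1 := by
    unfold eta
    rw [e2]
  have e7 : ((Nat.centralBinom n : ℕ) : ZMod (p ^ 2)) = ((2 * n).choose n : ZMod (p ^ 2)) := by
    rw [Nat.centralBinom_eq_two_mul_choose]
  unfold u
  rw [e2, e7, e3]
  rw [e6] at e4 e5
  linear_combination ((-1) ^ n * (1 - (p : ZMod (p ^ 2)) * Hs p n)) * hu
    - (-1) ^ n * e4 - (-1) ^ n * e5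

/-- `u_n` is a unit (it is `± 2^(p-1)`). -/
theorem unit_un (hn : p = 2 * n + 1) : IsUnit (u (half p) n) := by
  have h2 : p ≠ 2 := by
    have := hp.out.two_le
    omega
  rw [H4 hn]
  have h3 : IsUnit (2 : ZMod (p ^ 2)) := IsUnit.of_mul_eq_one _ (two_half h2)
  exact (isUnit_one.neg.pow n).mul (h3.pow _)

end MPf96
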