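import Pool.Agent.H.MP_f96d9d_nt.Base

/-!
# Harmonic sums modulo `p^2` times `p`

Here `p = 2 n + 1` is a prime (so odd). All `1/i` with `1 ≤ i < p` are inverses of units of
`ZMod (p^2)` (`mul_inv_nat`, `not_dvd_of_lt`).
* `eta_sq`, `p_eta`: `2^(p-1) = 1` in `ZMod p` (Fermat), so `eta p = p z` by
  `eq_p_mul_of_cast_zero`; and `p^2 = 0`.
* `H3`: induction on `i`: `C(2n,i+1)(i+1) = C(2n,i)(2n-i)` and `2n - i = p - (i+1)`, so
  `C(2n,i+1) = C(2n,i) (p/(i+1) - 1)`.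
* Put `e_k = p / k` for `1 ≤ k ≤ 2n`. Then `e_{p-k} = -e_k` (since
  `k (p-k) (e_{p-k} + e_k) = p (k + (p - k)) = p^2 = 0` and `k, p-k` are units).
  So `∑_{k=1}^{2n} e_k = 0` (`H0`; e.g. reflect the sum: it equals minus itself, 2 is a unit).
* `2^p = ∑_k C(p,k)`, `C(p,k) = p/k C(p-1,k-1)` for `1 ≤ k ≤ p-1` (`k C(p,k) = p C(p-1,k-1)`),
  and by `H3` `p C(2n,k-1) = p (-1)^(k-1)`. Hence
  `2 eta = 2^p - 2 = ∑_{k=1}^{2n} (-1)^(k-1) e_k`.
* `∑_{k=1}^{2n} (-1)^(k-1) e_k = ∑_{k=1}^{2n} e_k - 2 ∑_{j=1}^n e_{2j} = - ∑_{j=1}^n e_j`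
  (`2 e_{2j} = e_j`), which gives `H1`: `p Hs n = - 2 eta`.
* `H2`: `∑_{k=1}^{2n} (-1)^(k-1) e_k = 2 ∑_{k=1}^{n} (-1)^(k-1) e_k` (pair `k` with `p-k`, which
  has the other parity, and `e_{p-k} = -e_k`), so `∑_{k=1}^n (-1)^(k-1) e_k = eta`; with `n = 2a`
  the left side is `p Hs n - 2 ∑_{j=1}^a e_{2j} = p Hs n - p Hs a`.
* `H4`: `C(2n,n) = (-1)^n (1 - p Hs n) = (-1)^n (1 + 2 eta)`, `4^n = 2^(p-1) = 1 + eta`,
  `u_n = C(2n,n) half^(2n)`, so `u_n (1+eta) = (-1)^n (1+2 eta)`, `u_n = (-1)^n (1 + eta)`.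
-/

namespace MPf96

open Finset

variable {p n : ℕ} [hp : Fact p.Prime]

theorem harma_p_ne_two (hn : p = 2 * n + 1) : p ≠ 2 := by omega

theorem eta_eq (hn : p = 2 * n + 1) : ∃ z, eta p = (p : ZMod (p ^ 2)) * z := by
  apply eq_p_mul_of_cast_zero
  have h2 : (2 : ZMod p) ≠ 0 := by
    intro h
    have h3 : ((2 : ℕ) : ZMod p) = 0 := by exact_mod_cast h
    have h4 := (ZMod.natCast_eq_zero_iff 2 p).1 h3
    exact harma_p_ne_two hn ((Nat.prime_dvd_prime_iff_eq hp.out Nat.prime_two).1 h4)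
  unfold eta
  rw [map_sub, map_pow, map_one, map_ofNat, ZMod.pow_card_sub_one_eq_one h2, sub_self]

theorem eta_sq (hn : p = 2 * n + 1) : eta p ^ 2 = 0 := by
  obtain ⟨z, hz⟩ := eta_eq hn
  rw [hz, mul_pow, p_sq, zero_mul]

theorem p_eta (hn : p = 2 * n + 1) : (p : ZMod (p ^ 2)) * eta p = 0 := by
  obtain ⟨z, hz⟩ := eta_eq hn
  rw [hz, ← mul_assoc, ← pow_two, p_sq, zero_mul]

theorem H3 (hn : p = 2 * n + 1) {i : ℕ} (hi : i ≤ 2 * n) :
    ((2 * n).choose i : ZMod (p ^ 2)) = (-1) ^ i * (1 - p * Hs p i) := by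
  induction i with
  | zero => simp [Hs]
  | succ i ih =>
    have ih' := ih (by omega)
    have hinv := mul_inv_nat (p := p) (not_dvd_of_lt (m := i + 1) (by omega) (by omega))
    have hc : (((2 * n).choose (i + 1) * (i + 1) : ℕ) : ZMod (p ^ 2)) =
        (((2 * n).choose i * (2 * n - i) : ℕ) : ZMod (p ^ 2)) := by
      rw [Nat.choose_succ_right_eq]
    have hsub : ((2 * n - i : ℕ) : ZMod (p ^ 2)) = (p : ZMod (p ^ 2)) - ((i + 1 : ℕ) : ZMod (p ^ 2)) := by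
      rw [eq_sub_iff_add_eq, ← Nat.cast_add]
      congr 1
      omega
    have hH : Hs p (i + 1) = Hs p i + ((i + 1 : ℕ) : ZMod (p ^ 2))⁻¹ := by
      unfold Hs
      rw [Finset.sum_range_succ]
    rw [Nat.cast_mul, Nat.cast_mul, hsub, ih'] at hc
    rw [hH]
    have hp2 := p_sq (p := p)
    generalize ((i + 1 : ℕ) : ZMod (p ^ 2))⁻¹ = v at hinv ⊢
    generalize ((i + 1 : ℕ) : ZMod (p ^ 2)) = m at hinv hc
    generalize (((2 * n).choose (i + 1) : ℕ) : ZMod (p ^ 2)) = c at hc ⊢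
    generalize (p : ZMod (p ^ 2)) = q at hc hp2 ⊢
    generalize Hs p i = H at hc ⊢
    rw [pow_succ (-1 : ZMod (p ^ 2)) i]
    generalize ((-1 : ZMod (p ^ 2)) ^ i) = e at hc ⊢
    linear_combination v * hc - c * hinv - e * (1 - q * H) * hinv - e * H * v * hp2

end MPf96
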