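import Pool.Agent.H.MP_f96d9d_nt.CoefLow
import Pool.Agent.H.MP_f96d9d_nt.CoefUp
import Pool.Agent.H.MP_f96d9d_nt.SumU

/-!
# The master formula

`p = 2n+1`, `t s = 1` in `ZMod (p^2)`, `U = u_n`, `Y = YY (half p) p`.
`Y(t) = (1-t) ∑_{k<p} T_k(t)^3 t^(p-1-k)` (`eval_Tp`), and
`t^(p-1-k) s^(p-1) = s^k`, so `s^(p-1) Y(t) = (1-t) ∑_{k<p} T_k(t)^3 s^k`.
By `Y_low`, `Y_mid`, `Y_high` the coefficients of `Y` vanish outside `[n, p-1]` and
`[p+n, 2p-1]`; write these as `p-1-j` and `2p-1-j`, `0 ≤ j ≤ n`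
(`Y = ∑_{m < 2p} Y_m X^m`, `Polynomial.eval_eq_sum_range'` with degree `< 2p` from `Y_high`):
`s^(p-1) Y(t) = ∑_j Y_{p-1-j} s^j + t^p ∑_j Y_{2p-1-j} s^j`.
First sum: `Y_{p-1-j} = (-1)^n (-1)^j u_j^3` (`Y_chain1`, `Y_top1`), giving `(-1)^n FF p n s`.
Second sum: `Y_{2p-1} = -(-1)^n U^6` (`Y_2p1`, `Y_top2_val`), and by `Y_chain2` (cancel `U^3`,
a unit) `Y_{2p-1-j} = -(-1)^n U^3 (-1)^j (2 u_{n-j}^3 - U^3 u_j^3)`, so the second term is
`-2 (-1)^n U^3 t^p ∑_j (-1)^j s^j u_{n-j}^3 + (-1)^n U^6 t^p FF p n s`; with `i = n - j`: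
`∑_j (-1)^j s^j u_{n-j}^3 = (-1)^n s^n ∑_i (-1)^i t^i u_i^3 = (-1)^n s^n FF p n t`, and
`t^p s^n = t^(p-n)`.
-/

namespace MPf96

open Polynomial Finset

variable {p n : ℕ} [hp : Fact p.Prime]

theorem master_ts {t s : ZMod (p ^ 2)} (hts : t * s = 1) (a b : ℕ) (hab : b ≤ a) :
    t ^ (a - b) * s ^ a = s ^ b := by
  have h1 : s ^ a = s ^ (a - b) * s ^ b := by
    rw [← pow_add]
    congr 1
    omega
  rw [h1, ← mul_assoc, ← mul_pow, hts, one_pow, one_mul]

theorem master_eval (h t : ZMod (p ^ 2)) :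
    (YY h p).eval t = (1 - t) * ∑ k ∈ range p, (Tv h t k) ^ 3 * t ^ (p - 1 - k) := by
  unfold YY PP
  rw [eval_mul, eval_sub, eval_one, eval_X, eval_finsetSum]
  congr 1
  apply Finset.sum_congr rfl
  intro k _
  rw [eval_mul, eval_pow, eval_pow, eval_X, eval_Tp]

theorem master_low (hn : p = 2 * n + 1) {t s : ZMod (p ^ 2)} (hts : t * s = 1) :
    ∑ m ∈ range p, (YY (half p) p).coeff m * t ^ m * s ^ (p - 1) = (-1) ^ n * FF p n s := by
  rw [← Finset.sum_range_reflect]
  have h1 : ∀ j ∈ range p, (YY (half p) p).coeff (p - 1 - j) * t ^ (p - 1 - j) * s ^ (p - 1) =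
      if j < n + 1 then (-1) ^ n * ((u (half p) j) ^ 3 * (-s) ^ j) else 0 := by
    intro j hj
    have hj' := Finset.mem_range.1 hj
    by_cases hjn : j < n + 1
    · rw [if_pos hjn, Y_chain1 hn (by omega), Y_top1 hn, mul_assoc, master_ts hts (p - 1) j
        (by omega), neg_pow s j]
      ring
    · rw [if_neg hjn, Y_low hn (by omega), zero_mul, zero_mul]
  rw [Finset.sum_congr rfl h1, ← Finset.sum_filter]
  have h2 : (range p).filter (fun j => j < n + 1) = range (n + 1) := by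
    ext j
    rw [Finset.mem_filter, Finset.mem_range, Finset.mem_range]
    omega
  rw [h2, ← Finset.mul_sum]
  rfl

theorem master_flip {t s : ZMod (p ^ 2)} (hts : t * s = 1) :
    ∑ j ∈ range (n + 1), (-1) ^ j * s ^ j * (u (half p) (n - j)) ^ 3 =
      (-1) ^ n * s ^ n * FF p n t := by
  rw [← Finset.sum_range_reflect, FF, Finset.mul_sum]
  apply Finset.sum_congr rfl
  intro i hi
  have hi' := Finset.mem_range.1 hi
  have e1 : n + 1 - 1 - i = n - i := by omega
  have e2 : n - (n - i) = i := by omega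
  rw [e1, e2]
  have e3 : (-1 : ZMod (p ^ 2)) ^ (n - i) = (-1) ^ n * (-1) ^ i := by
    have h1 : (-1 : ZMod (p ^ 2)) ^ n = (-1) ^ (n - i) * (-1) ^ i := by
      rw [← pow_add]
      congr 1
      omega
    rw [h1, mul_assoc, ← mul_pow]
    simp
  have e4 : s ^ (n - i) = s ^ n * t ^ i := by
    have h1 : s ^ n = s ^ (n - i) * s ^ i := by
      rw [← pow_add]
      congr 1
      omega
    rw [h1, mul_assoc, ← mul_pow, mul_comm s t, hts, one_pow, mul_one]
  rw [e3, e4, neg_pow t i]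
  ring

theorem master_chain (hn : p = 2 * n + 1) {j : ℕ} (hj : j ≤ n) :
    (YY (half p) p).coeff (2 * p - 1 - j) =
      -((-1) ^ n * (u (half p) n) ^ 3 * (-1) ^ j *
        (2 * (u (half p) (n - j)) ^ 3 - (u (half p) n) ^ 3 * (u (half p) j) ^ 3)) := by
  have hu : IsUnit ((u (half p) n) ^ 3) := (unit_u hn le_rfl).pow 3
  apply cancel_unit hu
  rw [Y_chain2 hn hj, Y_2p1 hn, Y_top2_val hn]
  ring

theorem master_high (hn : p = 2 * n + 1) {t s : ZMod (p ^ 2)} (hts : t * s = 1) :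
    ∑ m ∈ range p, (YY (half p) p).coeff (p + m) * t ^ (p + m) * s ^ (p - 1) =
      (-1) ^ n * (FF p n s * ((u (half p) n) ^ 6 * t ^ p)) -
        2 * (u (half p) n) ^ 3 * t ^ (p - n) * FF p n t := by
  rw [← Finset.sum_range_reflect]
  have h1 : ∀ j ∈ range p,
      (YY (half p) p).coeff (p + (p - 1 - j)) * t ^ (p + (p - 1 - j)) * s ^ (p - 1) =
      if j < n + 1 then
        (-1) ^ n * (u (half p) n) ^ 6 * t ^ p * ((u (half p) j) ^ 3 * (-s) ^ j) -
        2 * (-1) ^ n * (u (half p) n) ^ 3 * t ^ p *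
          ((-1) ^ j * s ^ j * (u (half p) (n - j)) ^ 3) else 0 := by
    intro j hj
    have hj' := Finset.mem_range.1 hj
    by_cases hjn : j < n + 1
    · have e1 : p + (p - 1 - j) = 2 * p - 1 - j := by omega
      have e2 : t ^ (2 * p - 1 - j) = t ^ p * t ^ (p - 1 - j) := by
        rw [← pow_add]
        congr 1
        omega
      have e3 := master_ts hts (p - 1) j (by omega)
      rw [if_pos hjn, e1, master_chain hn (by omega), e2, neg_pow s j]
      linear_combination (-((-1) ^ n * (u (half p) n) ^ 3 * (-1) ^ j *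
        (2 * (u (half p) (n - j)) ^ 3 - (u (half p) n) ^ 3 * (u (half p) j) ^ 3)) * t ^ p) * e3
    · rw [if_neg hjn, Y_mid hn (by omega) (by omega), zero_mul, zero_mul]
  rw [Finset.sum_congr rfl h1, ← Finset.sum_filter]
  have h2 : (range p).filter (fun j => j < n + 1) = range (n + 1) := by
    ext j
    rw [Finset.mem_filter, Finset.mem_range, Finset.mem_range]
    omega
  rw [h2, Finset.sum_sub_distrib, ← Finset.mul_sum, ← Finset.mul_sum, master_flip hts]
  have e4 : t ^ p * s ^ n = t ^ (p - n) := by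
    have h3 : t ^ p = t ^ (p - n) * t ^ n := by
      rw [← pow_add]
      congr 1
      omega
    rw [h3, mul_assoc, ← mul_pow, hts, one_pow, mul_one]
  have e5 : (-1 : ZMod (p ^ 2)) ^ n * (-1) ^ n = 1 := by
    rw [← mul_pow]
    simp
  have e6 : ∑ j ∈ range (n + 1), (u (half p) j) ^ 3 * (-s) ^ j = FF p n s := rfl
  rw [e6]
  linear_combination (-2 * (u (half p) n) ^ 3 * FF p n t * ((-1) ^ n * (-1) ^ n)) * e4 -
    (2 * (u (half p) n) ^ 3 * FF p n t * t ^ (p - n)) * e5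

theorem master (hn : p = 2 * n + 1) {t s : ZMod (p ^ 2)} (hts : t * s = 1) :
    (1 - t) * ∑ k ∈ range p, (Tv (half p) t k) ^ 3 * s ^ k =
      (-1) ^ n * (FF p n s * (1 + (u (half p) n) ^ 6 * t ^ p)) -
        2 * (u (half p) n) ^ 3 * t ^ (p - n) * FF p n t := by
  have hp1 : 0 < p := hp.out.pos
  have h1 : (YY (half p) p).eval t * s ^ (p - 1) =
      (1 - t) * ∑ k ∈ range p, (Tv (half p) t k) ^ 3 * s ^ k := by
    rw [master_eval, mul_assoc, Finset.sum_mul]
    congr 1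
    apply Finset.sum_congr rfl
    intro k hk
    have hk' := Finset.mem_range.1 hk
    rw [mul_assoc, master_ts hts (p - 1) k (by omega)]
  have hdeg : (YY (half p) p).natDegree < p + p := by
    have h2 : (YY (half p) p).natDegree ≤ 2 * p - 1 := by
      rw [natDegree_le_iff_coeff_eq_zero]
      intro N hN
      exact Y_high hn (by omega)
    omega
  rw [← h1, eval_eq_sum_range' hdeg, Finset.sum_mul, Finset.sum_range_add, master_low hn hts,
    master_high hn hts]
  ring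

end MPf96
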