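import Pool.Agent.H.MP_f96d9d_nt.Base

/-!
# The Teichmueller character modulo `p^2`

`om x = (x.val)^p` in `ZMod (p^2)`, for `x : ZMod p`. If `m` is any integer with
`(m : ZMod p) = x` then `om x = (m : ZMod (p^2))^p` (`om_of_int`; Mathlib:
`dvd_sub_pow_of_dvd_sub` : `(p : R) ∣ a - b → (p^(k+1) : R) ∣ a^(p^k) - b^(p^k)` with `k = 1`).
Hence `om` is multiplicative, `om 1 = 1`, `om 0 = 0`, `om (-1) = -1` (`p` odd), and
`om x` reduces to `x^p = x` modulo `p` (`castHom_om`).
`sum_om_pow`: for `m > 0`, `∑_x om(x)^m = p - 1` if `p - 1 ∣ m` (`om(x)^(p-1) = om(x^(p-1)) = 1` for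
`x ≠ 0`, `om 0 = 0`) and `= 0` otherwise: choose `g : ZMod p` nonzero with `g^m ≠ 1` (a generator of
the cyclic group, `IsCyclic`; or FiniteField results), the substitution `x ↦ g x` gives
`S = om(g)^m S`, and `1 - om(g)^m` reduces to `1 - g^m ≠ 0` modulo `p`, so it is a unit
(`unit_of_castHom`).
-/

namespace MPf96

open Finset

variable {p : ℕ} [hp : Fact p.Prime]

/-- The Teichmueller character modulo `p^2`. -/
def om (p : ℕ) (x : ZMod p) : ZMod (p ^ 2) := ((x.val : ℕ) : ZMod (p ^ 2)) ^ p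

/-- reduction modulo `p` -/
def red (p : ℕ) : ZMod (p ^ 2) →+* ZMod p :=
  ZMod.castHom (Dvd.intro_left (p ^ 1) (by ring) : p ∣ p ^ 2) (ZMod p)

theorem om_of_int (m : ℤ) : om p (m : ZMod p) = (m : ZMod (p ^ 2)) ^ p := by
  unfold om
  have h1 : (p : ℤ) ∣ (((m : ZMod p).val : ℕ) : ℤ) - m := by
    rw [← ZMod.intCast_zmod_eq_zero_iff_dvd]
    push_cast
    rw [ZMod.natCast_val, ZMod.cast_id', id]
    ring
  have h2 := dvd_sub_pow_of_dvd_sub (R := ℤ) (p := p) (a := (((m : ZMod p).val : ℕ) : ℤ))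
    (b := m) h1 1
  simp only [pow_one] at h2
  have h3 : (((p ^ 2 : ℕ) : ℤ)) ∣ (((m : ZMod p).val : ℕ) : ℤ) ^ p - m ^ p := by
    push_cast
    exact h2
  have h4 := (ZMod.intCast_zmod_eq_zero_iff_dvd _ (p ^ 2)).2 h3
  push_cast at h4
  exact sub_eq_zero.1 h4

private theorem omega_cast (x : ZMod p) : ∃ m : ℤ, (m : ZMod p) = x :=
  ⟨(x.val : ℤ), by push_cast; rw [ZMod.natCast_val, ZMod.cast_id', id]⟩

theorem om_mul (x y : ZMod p) : om p (x * y) = om p x * om p y := by
  obtain ⟨a, rfl⟩ := omega_cast x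
  obtain ⟨b, rfl⟩ := omega_cast y
  rw [← Int.cast_mul, om_of_int, om_of_int, om_of_int]
  push_cast
  ring

theorem om_one : om p 1 = 1 := by
  have := om_of_int (p := p) 1
  simpa using this

theorem om_zero : om p 0 = 0 := by
  have := om_of_int (p := p) 0
  simpa [hp.out.ne_zero] using this

theorem om_neg_one (h2 : p ≠ 2) : om p (-1) = -1 := by
  have := om_of_int (p := p) (-1)
  push_cast at this
  rw [this]
  exact (hp.out.odd_of_ne_two h2).neg_one_pow

theorem om_pow (x : ZMod p) (m : ℕ) : om p (x ^ m) = om p x ^ m := by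
  induction m with
  | zero => simp [om_one]
  | succ m ih =>
    have e1 : x ^ (m + 1) = x ^ m * x := pow_succ x m
    have e2 : om p x ^ (m + 1) = om p x ^ m * om p x := pow_succ _ m
    rw [e1, e2, om_mul, ih]

theorem red_om (x : ZMod p) : red p (om p x) = x := by
  obtain ⟨a, rfl⟩ := omega_cast x
  rw [om_of_int, map_pow, map_intCast, ZMod.pow_card]

theorem unit_of_red {x : ZMod (p ^ 2)} (hx : red p x ≠ 0) : IsUnit x := by
  have : NeZero (p ^ 2) := ⟨pow_ne_zero 2 hp.out.ne_zero⟩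
  obtain ⟨m, rfl⟩ : ∃ m : ℕ, (m : ZMod (p ^ 2)) = x := ⟨x.val, ZMod.natCast_zmod_val x⟩
  apply unit_nat
  intro h
  apply hx
  rw [map_natCast]
  exact (ZMod.natCast_eq_zero_iff _ _).2 h

theorem eq_of_red_zero {x : ZMod (p ^ 2)} (hx : red p x = 0) :
    ∃ z, x = (p : ZMod (p ^ 2)) * z := by
  exact eq_p_mul_of_cast_zero hx

theorem sum_om_pow {m : ℕ} (hm : 0 < m) :
    ∑ x : ZMod p, om p x ^ m = if (p - 1) ∣ m then ((p : ZMod (p ^ 2)) - 1) else 0 := by
  split_ifs with h
  · obtain ⟨k, rfl⟩ := h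
    have h1 : ∀ x : ZMod p, x ≠ 0 → om p x ^ ((p - 1) * k) = 1 := by
      intro x hx
      rw [pow_mul, ← om_pow, ZMod.pow_card_sub_one_eq_one hx, om_one, one_pow]
    rw [← Finset.add_sum_erase _ _ (Finset.mem_univ (0 : ZMod p)), om_zero,
      zero_pow hm.ne', zero_add]
    rw [Finset.sum_congr rfl (fun x hx => h1 x (Finset.ne_of_mem_erase hx))]
    rw [Finset.sum_const, Finset.card_erase_of_mem (Finset.mem_univ _), Finset.card_univ,
      ZMod.card, nsmul_eq_mul, mul_one, Nat.cast_sub hp.out.one_lt.le, Nat.cast_one]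
  · obtain ⟨g, hg⟩ := IsCyclic.exists_generator (α := (ZMod p)ˣ)
    have hord : orderOf g = p - 1 := by
      rw [orderOf_eq_card_of_forall_mem_zpowers hg, Nat.card_eq_fintype_card,
        ZMod.card_units_eq_totient, Nat.totient_prime hp.out]
    have hgm : (g : ZMod p) ^ m ≠ 1 := by
      intro h1
      apply h
      rw [← hord]
      apply orderOf_dvd_of_pow_eq_one
      ext
      push_cast
      exact h1
    have hS : ∑ x : ZMod p, om p x ^ m = om p (g : ZMod p) ^ m * ∑ x : ZMod p, om p x ^ m := by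
      rw [Finset.mul_sum]
      rw [← Equiv.sum_comp (Units.mulLeft g) (fun x => om p x ^ m)]
      refine Finset.sum_congr rfl fun x _ => ?_
      rw [Units.mulLeft_apply, om_mul, mul_pow]
    have hu : IsUnit (1 - om p (g : ZMod p) ^ m) := by
      apply unit_of_red
      rw [map_sub, map_one, map_pow, red_om]
      exact sub_ne_zero.2 (Ne.symm hgm)
    have h0 : (1 - om p (g : ZMod p) ^ m) * ∑ x : ZMod p, om p x ^ m = 0 := by
      rw [sub_mul, one_mul, sub_eq_zero]
      exact hS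
    exact (hu.mul_right_eq_zero).1 h0

end MPf96
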