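import Pool.Agent.H.MP_f96d9d_nt.Base

/-!
# Recurrences of the polynomials `T_k`

`θ = X d/dX`. Proof of `r1` and `r2`: compare the coefficients of `X^j` (use `coeff_Tp`,
`coeff_theta` of the Base file and the recurrence `u_succ`: `2(j+1)u_{j+1} = (2j+1)u_j`).
`r1`, coefficient of `X^j` for `1 ≤ j ≤ k+1`: the left side is
`j u_j u_{k+1-j} - (j-1) u_{j-1} u_{k+2-j}` and the right side
`(k+1)(u_{j-1}u_{k+1-j} - u_{j-1}u_{k+2-j})`; twice the difference is, by `u_succ` for the indices
`j-1` and `k+1-j`, equal to `u_{j-1} u_{k+1-j} [(2j-1) - 2(k+1) + (2(k+1-j)+1)] = 0`.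
(write `j = i+1`, `k = i + l`, so that `k+1-j = l`, `k+2-j = l+1`.)
Coefficient `j = 0`: both sides 0. Coefficient `j = k+2`: left `-(k+1)u_{k+1}u_0`, right
`(k+1)(0 - u_{k+1}u_0)`. Beyond: 0 = 0. (2 is invertible: `2*h = 1`.)
`r2` in the same way: coefficient of `X^j`, `1 ≤ j ≤ k`:
left `2(j u_j u_{k-j} - (j-1) u_{j-1} u_{k+1-j})`, right
`(2k+1) u_j u_{k-j} + u_{j-1}u_{k+1-j} - 2(k+1) u_j u_{k+1-j}`. Difference left - right =
`(2j-2k-1) u_j u_{k-j} - (2j-1) u_{j-1} u_{k+1-j} + 2(k+1) u_j u_{k+1-j}`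
`= -(2(k-j)+1) u_j u_{k-j} - 2 j u_j u_{k+1-j} + 2(k+1) u_j u_{k+1-j}`
`= u_j [2(k+1-j) u_{k+1-j} - (2(k-j)+1) u_{k-j}] = 0`.
Coefficient `j = 0`: left 0, right `(2k+1)u_k - 2(k+1)u_{k+1} = 0`. Coefficient `j = k+1`: left
`-2k u_k`, right `u_k u_0 - 2(k+1) u_{k+1} = u_k - (2k+1)u_k`.
`r0` follows: `2 * r1` at `k` and `r2` at `k+1` have the same left side
`2 (1-X) θ T_{k+1}`.
-/

namespace MPf96

open Polynomial Finset

variable {R : Type*} [CommRing R] {h : R}

theorem reca_C (k : ℕ) : ((k : R[X]) + 1) = C ((k : R) + 1) := by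
  rw [map_add, map_natCast, map_one]

theorem reca_two : (2 : R[X]) = C 2 := by
  rw [map_ofNat]

theorem reca_cancel (hh : 2 * h = 1) {a b : R} (e : 2 * a = 2 * b) : a = b := by
  have e2 : h * (2 * a) = h * (2 * b) := by rw [e]
  linear_combination e2 + (b - a) * hh

theorem reca_cancelP (hh : 2 * h = 1) {a b : R[X]} (e : 2 * a = 2 * b) : a = b := by
  have e1 : 2 * (C h : R[X]) = 1 := by
    rw [reca_two, ← C_mul, hh, C_1]
  have e2 : C h * (2 * a) = C h * (2 * b) := by rw [e]
  linear_combination e2 + (b - a) * e1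

theorem r1 (hh : 2 * h = 1) (k : ℕ) :
    (1 - X) * (X * derivative (Tp h (k + 1))) =
      ((k : R[X]) + 1) * X * (Tp h k - Tp h (k + 1)) := by
  have e : (1 - X) * (X * derivative (Tp h (k + 1))) =
      X * derivative (Tp h (k + 1)) - X * (X * derivative (Tp h (k + 1))) := by ring
  have e' : ((k : R[X]) + 1) * X * (Tp h k - Tp h (k + 1)) =
      C ((k : R) + 1) * (X * (Tp h k - Tp h (k + 1))) := by
    rw [reca_C]
    ring
  rw [e, e']
  ext m
  rw [coeff_sub, coeff_theta, coeff_C_mul]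
  cases m with
  | zero => simp
  | succ j =>
    rw [coeff_X_mul, coeff_X_mul, coeff_theta, coeff_sub, coeff_Tp, coeff_Tp, coeff_Tp,
      Nat.cast_succ]
    rcases lt_trichotomy j (k + 1) with hj | hj | hj
    · obtain ⟨l, rfl⟩ := Nat.exists_eq_add_of_le (Nat.lt_succ_iff.1 hj)
      rw [if_pos (by omega), if_pos (by omega), if_pos (by omega)]
      have e1 : j + l + 1 - (j + 1) = l := by omega
      have e2 : j + l + 1 - j = l + 1 := by omega
      have e3 : j + l - j = l := by omega
      rw [e1, e2, e3]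
      have h1 := u_succ hh j
      have h2 := u_succ hh l
      refine reca_cancel hh ?_
      push_cast
      linear_combination u h l * h1 + u h j * h2
    · subst hj
      rw [if_neg (by omega), if_pos (by omega), if_neg (by omega)]
      push_cast
      ring
    · rw [if_neg (by omega), if_neg (by omega), if_neg (by omega)]
      ring

theorem r2 (hh : 2 * h = 1) (k : ℕ) :
    2 * (1 - X) * (X * derivative (Tp h k)) =
      (2 * (k : R[X]) + 1 + X) * Tp h k - 2 * ((k : R[X]) + 1) * Tp h (k + 1) := by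
  have e : 2 * (1 - X) * (X * derivative (Tp h k)) =
      C 2 * (X * derivative (Tp h k) - X * (X * derivative (Tp h k))) := by
    rw [← reca_two]
    ring
  have e' : (2 * (k : R[X]) + 1 + X) * Tp h k - 2 * ((k : R[X]) + 1) * Tp h (k + 1) =
      C (2 * (k : R) + 1) * Tp h k + X * Tp h k - C (2 * ((k : R) + 1)) * Tp h (k + 1) := by
    have e1 : (C (2 * (k : R) + 1) : R[X]) = 2 * (k : R[X]) + 1 := by
      rw [map_add, map_mul, map_natCast, map_one, map_ofNat]
    have e2 : (C (2 * ((k : R) + 1)) : R[X]) = 2 * ((k : R[X]) + 1) := by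
      rw [map_mul, map_add, map_natCast, map_one, map_ofNat]
    rw [e1, e2]
    ring
  rw [e, e']
  ext m
  rw [coeff_C_mul, coeff_sub, coeff_theta, coeff_sub, coeff_add, coeff_C_mul, coeff_C_mul]
  cases m with
  | zero =>
    rw [coeff_X_mul_zero, coeff_X_mul_zero, coeff_Tp, coeff_Tp, if_pos (Nat.zero_le _),
      if_pos (Nat.zero_le _), Nat.sub_zero, Nat.sub_zero]
    have h1 := u_succ hh k
    push_cast
    linear_combination (u h 0) * h1
  | succ j =>
    rw [coeff_X_mul, coeff_X_mul, coeff_theta, coeff_Tp, coeff_Tp, coeff_Tp, Nat.cast_succ]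
    rcases lt_trichotomy j k with hj | hj | hj
    · obtain ⟨l, rfl⟩ := Nat.exists_eq_add_of_lt hj
      rw [if_pos (by omega), if_pos (by omega), if_pos (by omega)]
      have e1 : j + l + 1 - (j + 1) = l := by omega
      have e2 : j + l + 1 - j = l + 1 := by omega
      have e3 : j + l + 1 + 1 - (j + 1) = l + 1 := by omega
      rw [e1, e2, e3]
      have h1 := u_succ hh j
      have h2 := u_succ hh l
      push_cast
      linear_combination u h (l + 1) * h1 + u h (j + 1) * h2
    · subst hj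
      rw [if_neg (by omega), if_pos (by omega), if_pos (by omega)]
      have h1 := u_succ hh j
      have e1 : j + 1 - (j + 1) = 0 := by omega
      have e2 : j - j = 0 := by omega
      rw [e1, e2, u_zero]
      linear_combination h1
    · rw [if_neg (by omega), if_neg (by omega), if_neg (by omega)]
      ring

theorem r0 (hh : 2 * h = 1) (k : ℕ) :
    2 * ((k : R[X]) + 2) * Tp h (k + 2) =
      (2 * (k : R[X]) + 3) * (1 + X) * Tp h (k + 1) - 2 * ((k : R[X]) + 1) * X * Tp h k := by
  have h1 := r1 hh k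
  have h2 := r2 hh (k + 1)
  push_cast at h2
  linear_combination (-2) * h1 + h2

/-- evaluation of `r0` at `t` (use `eval_Tp`) -/
theorem r0v (hh : 2 * h = 1) (t : R) (k : ℕ) :
    2 * ((k : R) + 2) * Tv h t (k + 2) =
      (2 * (k : R) + 3) * (1 + t) * Tv h t (k + 1) - 2 * ((k : R) + 1) * t * Tv h t k := by
  have h1 := congrArg (eval t) (r0 hh k)
  simp only [eval_mul, eval_add, eval_sub, eval_ofNat, eval_natCast, eval_one, eval_X,
    eval_Tp] at h1
  exact h1

theorem r0one (hh : 2 * h = 1) : 2 * Tp h 1 = 1 + X := by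
  ext m
  have h1 := u_succ hh 0
  rw [Nat.cast_zero, zero_add, mul_zero, zero_add, mul_one, u_zero, mul_one] at h1
  rw [reca_two, coeff_C_mul, coeff_Tp, coeff_add, coeff_one, coeff_X]
  rcases m with _ | _ | m
  · simpa [u_zero] using h1
  · simpa [u_zero] using h1
  · rw [if_neg (by omega), if_neg (by omega), if_neg (by omega)]
    ring

theorem Tv_zero (t : R) : Tv h t 0 = 1 := by
  unfold Tv
  simp [u_zero]

theorem Tv_one (hh : 2 * h = 1) (t : R) : 2 * Tv h t 1 = 1 + t := by
  have h1 := congrArg (eval t) (r0one hh)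
  simp only [eval_mul, eval_add, eval_ofNat, eval_one, eval_X, eval_Tp] at h1
  exact h1

end MPf96
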