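import Pool.Agent.H.MP_f96d9d_nt.RecA
import Pool.Agent.H.MP_f96d9d_nt.Cert

/-!
# Telescoping: the coefficient recurrence of `Y = (1-X) ∑_{k<p} T_k^3 X^(p-1-k)`

Let `k + a = p - 1`. From `θ(X^a f) = X^a (θ f + a f)` one gets
`Lop (k+a) (X^a f) = X^a Lop k f` (`Lop_shift`; prove first `Op 2 (2(k+a)+1) (X^a f)
= X^a Op 2 (2k+1) f` and `Op 1 (k+a) (X^a f) = X^a Op 1 k f`).
`Lop` is additive. By `cert` with `A = T_k`, `B = T_{k-1}` (`B = 0` when `k = 0`: then H1 is
`(1-X) θ 1 = 0`, H2 is `0 = 0`, H0 is `2 T_1 = 1 + X`), `D = T_{k+1}` (H1 is r1, H2 is r2 at `k-1`,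
H0 is r0 at `k-1`):
`X (1-X)^2 Lop (p-1) (X^(p-1-k) (1-X) T_k^3) = X^(p-1-k) (G_{k+1} - X G_k)
 = X^(p-1-k) G_{k+1} - X^(p-k) G_k`, where `G_k = Gh k T_k T_{k-1}`, `G_0 = 0`.
Summing over `k < p` telescopes: `X (1-X)^2 Lop (p-1) (YY h p) = G_p - X^p G_0 = G_p`.
Every term of `G_p = Gh p T_p T_{p-1}` is divisible by `(p : R[X])^2`, hence `G_p = 0`.
`X (X-1)^2` is monic, so `Lop (p-1) (YY h p) = 0` (Polynomial.Monic.mul_left_eq_zero_iff or so).
Coefficients: `(Op a b f).coeff m = (a m - b) f.coeff m` for constants `a, b` (numerals and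
natural number casts), hence
`(Lop (p-1) f).coeff (m+1) = (2(m+1) - (2(p-1)+1))^3 f_{m+1} + 8 (m - (p-1))^3 f_m`,
`(Lop (p-1) f).coeff 0 = (-(2(p-1)+1))^3 f_0`.
-/

namespace MPf96

open Polynomial Finset

variable {R : Type*} [CommRing R] {h : R}

theorem telea_theta (a : ℕ) (f : R[X]) :
    X * derivative (X ^ a * f) = X ^ a * (X * derivative f) + (a : R[X]) * (X ^ a * f) := by
  rw [derivative_mul, derivative_X_pow]
  cases a with
  | zero => simp
  | succ a =>
    rw [Nat.add_sub_cancel]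
    simp only [map_natCast]
    ring

theorem telea_op2 (k a : ℕ) (f : R[X]) :
    Op 2 (2 * ((k + a : ℕ) : R[X]) + 1) (X ^ a * f) = X ^ a * Op 2 (2 * (k : R[X]) + 1) f := by
  unfold Op
  rw [telea_theta]
  push_cast
  ring

theorem telea_op1 (k a : ℕ) (f : R[X]) :
    Op 1 ((k + a : ℕ) : R[X]) (X ^ a * f) = X ^ a * Op 1 (k : R[X]) f := by
  unfold Op
  rw [telea_theta]
  push_cast
  ring

theorem Lop_shift (k a : ℕ) (f : R[X]) : Lop (k + a) (X ^ a * f) = X ^ a * Lop k f := by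
  unfold Lop
  rw [telea_op2, telea_op2, telea_op2, telea_op1, telea_op1, telea_op1]
  ring

theorem telea_op_add (a b f g : R[X]) : Op a b (f + g) = Op a b f + Op a b g := by
  unfold Op
  rw [derivative_add]
  ring

theorem telea_lop_add (k : ℕ) (f g : R[X]) : Lop k (f + g) = Lop k f + Lop k g := by
  unfold Lop
  simp only [telea_op_add]
  ring

theorem telea_op_zero (a b : R[X]) : Op a b 0 = 0 := by
  unfold Op
  simp

theorem telea_lop_zero (k : ℕ) : Lop k (0 : R[X]) = 0 := by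
  unfold Lop
  simp only [telea_op_zero]
  ring

theorem telea_lop_sum (k n : ℕ) (f : ℕ → R[X]) :
    Lop k (∑ i ∈ range n, f i) = ∑ i ∈ range n, Lop k (f i) := by
  induction n with
  | zero => simp [telea_lop_zero]
  | succ n ih => rw [sum_range_succ, telea_lop_add, ih, sum_range_succ]

/-- `T_{k-1}`, and `0` for `k = 0`. -/
noncomputable def teleaB (h : R) : ℕ → R[X]
  | 0 => 0
  | k + 1 => Tp h k

theorem telea_cert (hh : 2 * h = 1) (k : ℕ) :
    X * (1 - X) ^ 2 * Lop k ((1 - X) * (Tp h k) ^ 3) =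
      Gh (k + 1) (Tp h (k + 1)) (teleaB h (k + 1)) - X * Gh k (Tp h k) (teleaB h k) := by
  cases k with
  | zero =>
    refine cert hh 0 (Tp h 0) (teleaB h 0) (Tp h 1) ?_ ?_ ?_
    · rw [Tp_zero]
      simp
    · simp [teleaB]
    · have h1 := r0one (h := h) hh
      simp only [teleaB, Tp_zero]
      push_cast
      linear_combination h1
  | succ k =>
    refine cert hh (k + 1) (Tp h (k + 1)) (teleaB h (k + 1)) (Tp h (k + 2)) ?_ ?_ ?_
    · have h1 := r1 (h := h) hh k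
      simp only [teleaB]
      push_cast
      linear_combination h1
    · have h1 := r2 (h := h) hh k
      simp only [teleaB]
      push_cast
      linear_combination h1
    · have h1 := r0 (h := h) hh k
      simp only [teleaB]
      push_cast
      linear_combination h1

theorem telea_gh_zero (A B : R[X]) : Gh 0 A B = 0 := by
  unfold Gh
  push_cast
  ring

theorem telea_gh_p {p : ℕ} (hp2 : (p : R) ^ 2 = 0) (A B : R[X]) : Gh p A B = 0 := by
  have h1 : (p : R[X]) ^ 2 = 0 := by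
    have h2 : (C ((p : R) ^ 2) : R[X]) = 0 := by rw [hp2, C_0]
    simpa using h2
  unfold Gh
  linear_combination (-8 * (p : R[X]) * X ^ 3 * (5 + X) * B ^ 3 +
    (X ^ 2 * (-12 - 36 * X) + (p : R[X]) * X ^ 2 * (-24 + 72 * X)) * A * B ^ 2 +
    (X ^ 2 * (36 + 12 * X) + (p : R[X]) * X ^ 2 * (72 - 24 * X)) * A ^ 2 * B -
    8 * X * (1 + 5 * X) * (p : R[X]) * A ^ 3) * h1

theorem Lop_YY (hh : 2 * h = 1) {p : ℕ} (hp0 : 0 < p) (hp2 : (p : R) ^ 2 = 0) :
    Lop (p - 1) (YY h p) = 0 := by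
  have hmon : (X * (X - C (1 : R)) ^ 2).Monic :=
    monic_X.mul ((monic_X_sub_C (1 : R)).pow 2)
  have key : (X * (X - C (1 : R)) ^ 2) * Lop (p - 1) (YY h p) = 0 := by
    have hY : YY h p = ∑ k ∈ range p, X ^ (p - 1 - k) * ((1 - X) * (Tp h k) ^ 3) := by
      unfold YY PP
      rw [mul_sum]
      refine sum_congr rfl fun k _ => ?_
      ring
    rw [hY, telea_lop_sum, mul_sum]
    have h1 : ∀ k ∈ range p, (X * (X - C (1 : R)) ^ 2) *
        Lop (p - 1) (X ^ (p - 1 - k) * ((1 - X) * (Tp h k) ^ 3)) =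
        (X ^ (p - (k + 1)) * Gh (k + 1) (Tp h (k + 1)) (teleaB h (k + 1))) -
          (X ^ (p - k) * Gh k (Tp h k) (teleaB h k)) := by
      intro k hk
      have hk' := mem_range.1 hk
      have h2 := Lop_shift k (p - 1 - k) ((1 - X) * (Tp h k) ^ 3)
      rw [show k + (p - 1 - k) = p - 1 by omega] at h2
      rw [h2]
      have h3 := telea_cert (h := h) hh k
      have h4 : (X : R[X]) ^ (p - k) = X ^ (p - 1 - k) * X := by
        rw [← pow_succ]
        congr 1
        omega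
      have h5 : p - (k + 1) = p - 1 - k := by omega
      rw [h4, h5, C_1]
      linear_combination X ^ (p - 1 - k) * h3
    rw [sum_congr rfl h1,
      Finset.sum_range_sub (fun k => X ^ (p - k) * Gh k (Tp h k) (teleaB h k)) p,
      telea_gh_p hp2, telea_gh_zero]
    simp
  exact (hmon.mul_right_eq_zero_iff).1 key

theorem telea_coeff_op (a b : R) (f : R[X]) (m : ℕ) :
    (Op (C a) (C b) f).coeff m = (a * (m : R) - b) * f.coeff m := by
  unfold Op
  rw [coeff_sub, coeff_C_mul, coeff_C_mul, coeff_theta]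
  ring

theorem telea_lop_eq (k : ℕ) (f : R[X]) : Lop k f =
    Op (C 2) (C (2 * (k : R) + 1)) (Op (C 2) (C (2 * (k : R) + 1))
      (Op (C 2) (C (2 * (k : R) + 1)) f)) +
    C 8 * (X * Op (C 1) (C (k : R)) (Op (C 1) (C (k : R)) (Op (C 1) (C (k : R)) f))) := by
  have e2 : (C (2 : R) : R[X]) = 2 := map_ofNat C 2
  have e1 : (C (2 * (k : R) + 1) : R[X]) = 2 * (k : R[X]) + 1 := by
    rw [C_add, C_mul, C_1, e2]
    simp
  have e3 : (C (8 : R) : R[X]) = 8 := by
    exact map_ofNat C 8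
  have e4 : (C (k : R) : R[X]) = (k : R[X]) := by simp
  rw [e1, e2, e3, e4, C_1]
  unfold Lop
  ring

theorem telea_coeff_succ (k : ℕ) (f : R[X]) (m : ℕ) : (Lop k f).coeff (m + 1) =
    (2 * ((m : R) + 1) - (2 * (k : R) + 1)) ^ 3 * f.coeff (m + 1) +
      8 * ((m : R) - k) ^ 3 * f.coeff m := by
  rw [telea_lop_eq, coeff_add, coeff_C_mul, coeff_X_mul]
  simp only [telea_coeff_op]
  push_cast
  ring

theorem telea_coeff_zero (k : ℕ) (f : R[X]) : (Lop k f).coeff 0 =
    (-(2 * (k : R) + 1)) ^ 3 * f.coeff 0 := by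
  rw [telea_lop_eq, coeff_add, coeff_C_mul, coeff_X_mul_zero]
  simp only [telea_coeff_op]
  push_cast
  ring

theorem Y_rec (hh : 2 * h = 1) {p : ℕ} (hp0 : 0 < p) (hp2 : (p : R) ^ 2 = 0) (m : ℕ) :
    (2 * ((m : R) + 1) + 1 - 2 * p) ^ 3 * (YY h p).coeff (m + 1) +
      8 * ((m : R) + 1 - p) ^ 3 * (YY h p).coeff m = 0 := by
  have h1 := telea_coeff_succ (p - 1) (YY h p) m
  rw [Lop_YY hh hp0 hp2, coeff_zero] at h1
  rw [h1, Nat.cast_sub (by omega : 1 ≤ p)]
  push_cast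
  ring

theorem Y_rec0 (hh : 2 * h = 1) {p : ℕ} (hp0 : 0 < p) (hp2 : (p : R) ^ 2 = 0) :
    (1 - 2 * (p : R)) ^ 3 * (YY h p).coeff 0 = 0 := by
  have h1 := telea_coeff_zero (p - 1) (YY h p)
  rw [Lop_YY hh hp0 hp2, coeff_zero] at h1
  rw [h1, Nat.cast_sub (by omega : 1 ≤ p)]
  push_cast
  ring

end MPf96
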